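import Pool.Agent.R320.KL.Jlc
import Pool.Agent.R320.JL.Fin

/-! # Counts near a zero: joint law over all zeros -/

set_option autoImplicit false

namespace Pool.Agent.R320.KL

open Filter Topology MeasureTheory Set
open SG (ord NZ)
open Pool.Agent.Y743.CL (lm log_nat bigT lm_nonneg exM)
open Pool.Agent.R320.JL

noncomputable section

lemma two_top : Tendsto (fun m : ℕ => 2 * m) atTop atTop :=
  tendsto_atTop_mono (fun m => by show m ≤ 2 * m; omega) tendsto_id

lemma b1_zero {k : ℕ} (r : ℕ) (b : Fin (k + 1) → ℕ) : QQ (c1 (fun _ : Fin k => (0 : ℝ))) r b = 0 := by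
  have : c1 (fun _ : Fin k => (0 : ℝ)) = fun _ => (0 : ℝ) := by
    funext i
    refine Fin.cases ?_ (fun j => ?_) i
    · simp [c1]
    · simp [c1]
  rw [this]
  exact QQ_zero _ _

lemma fc_zero {k : ℕ} (r : ℕ) (T : ℝ) (u : Fin k → ℝ) (n : ℕ) : fc (fun _ => (0 : ℝ)) r T u n = 0 := by
  unfold fc
  simp

/-- the bound for `exp (-QQ / 2)` -/
lemma E_bd {k : ℕ} (c : Fin k → ℝ) : ∃ D : ℝ, 0 < D ∧ ∀ m : ℕ, 1 ≤ m → 1 ≤ Real.log ((2 * m : ℕ) : ℝ) →
    ∀ v : Fin k → ℤ, (∀ i, -(m : ℤ) < v i ∧ v i ≤ m) →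
    Real.exp (-(QQ (c1 c) (2 * m) (b1 m v) / 2)) ≤ D := by
  refine ⟨Real.exp ((∑ i, |c1 c i|) ^ 2), Real.exp_pos _, fun m hm hl v hv => ?_⟩
  apply Real.exp_le_exp.2
  have := (abs_le.1 (QQ_bd (c1 c) hl (b1 m v) (b1_rng hm hv))).1
  nlinarith [sq_nonneg (∑ i, |c1 c i|)]

/-- **one block** -/
theorem blk2C {k : ℕ} (c : Fin k → ℝ) (B : ℝ) (hB : 1 ≤ B) (ε : ℝ) (hε : 0 < ε) : ∀ᶠ m : ℕ in atTop,
    ∀ T : ℝ, 1 ≤ T → ((2 * m : ℕ) : ℝ) * Real.log (2 * m : ℕ) ≤ B * Real.log T →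
    ∀ v : Fin k → ℤ, (∀ i, -(m : ℤ) < v i ∧ v i ≤ m) → ∀ u : Fin k → ℝ, (∀ i, |u i - v i| ≤ 2) →
    ∀ A A' : ℝ, T + Real.log T + 20 ≤ A → A + 1 ≤ A' → A' ≤ 2 * T - Real.log T - 20 →
    ‖∑ n ∈ Finset.Ioc (NZ A) (NZ A'), (Complex.exp (Complex.I * (fc c (2 * m) T u n : ℂ)) -
      (Real.exp (-(QQ (c1 c) (2 * m) (b1 m v) / 2)) : ℂ))‖ ≤ ε * (T * Real.log T) := by
  obtain ⟨D, hD0, hD⟩ := E_bd c
  have hlogt : Tendsto (fun m : ℕ => Real.log ((2 * m : ℕ) : ℝ)) atTop atTop := log_nat.comp two_top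
  filter_upwards [blkC c B hB (ε / 2) (by positivity),
    blkC (fun _ : Fin k => (0 : ℝ)) B hB (ε / (2 * D)) (by positivity),
    hlogt.eventually_ge_atTop 1, eventually_ge_atTop 1] with m h1 h2 h3 hm1
  intro T hT1 hrT v hv u hu A A' hA hAA hA'
  have g1 := h1 T hT1 hrT v hv u hu A A' hA hAA hA'
  have g2 := h2 T hT1 hrT v hv u hu A A' hA hAA hA'
  rw [b1_zero] at g2
  simp only [fc_zero, Complex.ofReal_zero, mul_zero, Complex.exp_zero, zero_div, neg_zero, Real.exp_zero,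
    mul_one, Finset.sum_const, nsmul_eq_mul] at g2
  obtain ⟨E, hE⟩ : ∃ E : ℝ, E = Real.exp (-(QQ (c1 c) (2 * m) (b1 m v) / 2)) := ⟨_, rfl⟩
  have hED : E ≤ D := by rw [hE]; exact hD m hm1 h3 v hv
  rw [← hE] at g1 ⊢
  have hE0 : 0 < E := by rw [hE]; exact Real.exp_pos _
  rw [Finset.sum_sub_distrib, Finset.sum_const, nsmul_eq_mul]
  obtain ⟨m1, hm1⟩ : ∃ m1 : ℝ, m1 = Real.log T / (2 * Real.pi) * (A' - A) := ⟨_, rfl⟩
  rw [← hm1] at g2
  have e0 : Real.log T / (2 * Real.pi) * ((A' - A) * E) = m1 * E := by rw [hm1]; ring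
  rw [e0] at g1
  obtain ⟨S1, hs1⟩ : ∃ S1 : ℂ, S1 = ∑ n ∈ Finset.Ioc (NZ A) (NZ A'),
    Complex.exp (Complex.I * (fc c (2 * m) T u n : ℂ)) := ⟨_, rfl⟩
  rw [← hs1] at g1 ⊢
  obtain ⟨m2, hm2⟩ : ∃ m2 : ℂ, m2 = ((Finset.Ioc (NZ A) (NZ A')).card : ℂ) := ⟨_, rfl⟩
  rw [← hm2] at g2 ⊢
  have e1 : S1 - m2 * (E : ℂ) = (S1 - ((m1 * E : ℝ) : ℂ)) - (E : ℂ) * (m2 - (m1 : ℂ)) := by
    push_cast
    ring
  rw [e1]
  refine (norm_sub_le _ _).trans ?_
  rw [norm_mul, Complex.norm_real, Real.norm_eq_abs, abs_of_pos hE0]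
  have e2 : E * ‖m2 - (m1 : ℂ)‖ ≤ D * (ε / (2 * D) * (T * Real.log T)) := by gcongr
  have e3 : D * (ε / (2 * D) * (T * Real.log T)) = ε / 2 * (T * Real.log T) := by field_simp
  linarith

lemma XX_conv {T T' u : ℝ} (hT : 1 < T) (hT' : 1 < T') (n : ℕ) :
    XX T u n = XX T' (u * (Real.log T' / Real.log T)) n - (u - u * (Real.log T' / Real.log T)) := by
  have h1 : 0 < Real.log T := Real.log_pos hT
  have h2 : 0 < Real.log T' := Real.log_pos hT'
  unfold XX
  have e : u * (Real.log T' / Real.log T) * (2 * Real.pi / Real.log T') =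
      u * (2 * Real.pi / Real.log T) := by
    field_simp
  rw [e]
  ring

/-- **the joint law of the counts near the zeros up to height `T`** -/
theorem jointC {k : ℕ} (c : Fin k → ℝ) (B : ℝ) (hB : 1 ≤ B) (ε : ℝ) (hε : 0 < ε) :
    ∀ᶠ m : ℕ in atTop, ∀ T : ℝ, 1 ≤ T → ((2 * m : ℕ) : ℝ) * Real.log (2 * m : ℕ) ≤ B * Real.log T →
    ∀ u : Fin k → ℝ, (∀ i, |u i| ≤ m - 1) →
    ‖∑ n ∈ Finset.Icc 1 (NZ T), (Complex.exp (Complex.I * (fc c (2 * m) T u n : ℂ)) -
      (Real.exp (-(QQ (c1 c) (2 * m) (b1 m (fun i => ⌊u i⌋)) / 2)) : ℂ))‖ ≤ ε * (T * Real.log T) := by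
  obtain ⟨D, hD0, hD⟩ := E_bd c
  have hlogt : Tendsto (fun m : ℕ => Real.log ((2 * m : ℕ) : ℝ)) atTop atTop := log_nat.comp two_top
  have hlmt : Tendsto (fun m : ℕ => lm (2 * m)) atTop atTop := lm_top.comp two_top
  obtain ⟨C3, T3, hC3, hT3, hup⟩ := LG.GapAux.NZ_up
  obtain ⟨S, hS⟩ : ∃ S : ℝ, S = ∑ i, |c i| := ⟨_, rfl⟩
  have hS0 : 0 ≤ S := by rw [hS]; exact Finset.sum_nonneg fun _ _ => abs_nonneg _
  obtain ⟨K, hK⟩ : ∃ K : ℕ, (2 / 3 : ℝ) ^ K < ε / (2 * ((1 + D) * C3)) :=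
    exists_pow_lt_of_lt_one (by positivity) (by norm_num)
  obtain ⟨ρ, hρ⟩ : ∃ ρ : ℝ, ρ = (2 / 3 : ℝ) ^ K := ⟨_, rfl⟩
  rw [← hρ] at hK
  have hρ0 : 0 < ρ := by rw [hρ]; positivity
  have hρ1 : ρ ≤ 1 := by rw [hρ]; exact pow_le_one₀ (by norm_num) (by norm_num)
  obtain ⟨ε', hε'⟩ : ∃ ε' : ℝ, ε' = ε / (4 * (K + 1)) := ⟨_, rfl⟩
  have hε'0 : 0 < ε' := by rw [hε']; positivity
  -- the shift
  obtain ⟨DK, hDK⟩ : ∃ DK : ℝ, DK = Real.log (5 / (3 * ρ)) := ⟨_, rfl⟩
  have hDK0 : 0 ≤ DK := by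
    rw [hDK]
    apply Real.log_nonneg
    rw [le_div_iff₀ (by positivity)]
    linarith
  -- large heights
  have ev1 : ∀ᶠ x : ℝ in atTop, x ≤ (3 / 5 * ρ * x) ^ 2 := by
    filter_upwards [eventually_ge_atTop (1 / (3 / 5 * ρ) ^ 2), eventually_ge_atTop 0] with x hx hx0
    rw [div_le_iff₀ (by positivity)] at hx
    nlinarith
  have ev2 : ∀ᶠ y : ℝ in atTop, Real.log y + 20 ≤ y / 15 ∧ 2 * T3 ≤ y ∧ 3 ≤ y := by
    have h2 := Real.isLittleO_log_id_atTop.bound (c := 1 / 30) (by positivity)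
    filter_upwards [h2, eventually_ge_atTop 600, eventually_ge_atTop (2 * T3)] with x hx hx1 hx2
    rw [id, Real.norm_of_nonneg (Real.log_nonneg (by linarith)), Real.norm_of_nonneg (by linarith)] at hx
    exact ⟨by linarith, hx2, by linarith⟩
  obtain ⟨y0, hy0⟩ := ev2.exists_forall_of_atTop
  have ev3 : ∀ᶠ x : ℝ in atTop, y0 ≤ ρ * x := by
    filter_upwards [eventually_ge_atTop (y0 / ρ)] with x hx
    rw [div_le_iff₀ hρ0] at hx
    linarith
  obtain ⟨X0, hX0⟩ := ((ev1.and ev3).and (eventually_ge_atTop 10)).exists_forall_of_atTop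
  filter_upwards [blk2C c (2 * B) (by linarith) ε' hε'0, two_top.eventually (bigT B hB X0),
    hlogt.eventually_ge_atTop 1, hlogt.eventually_ge_atTop (B * (DK + 1)), eventually_ge_atTop 4,
    hlmt.eventually_ge_atTop (S * 1 * C3 / ε' + 1)] with m h1 h2 h3 h4 hm4 h5
  intro T hT1 hrT u hu
  have hTX := h2 T hT1 hrT
  obtain ⟨⟨g1, g2⟩, g4⟩ := hX0 T hTX
  have hT0 : 0 < T := by linarith
  have hlT : 0 < Real.log T := Real.log_pos (by linarith)
  have hm4r : (4 : ℝ) ≤ m := by exact_mod_cast hm4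
  -- `m (DK + 1) ≤ log T`
  have hmD : (m : ℝ) * (DK + 1) ≤ Real.log T := by
    have h9 : ((2 * m : ℕ) : ℝ) * (B * (DK + 1)) ≤ B * Real.log T :=
      (mul_le_mul_of_nonneg_left h4 (Nat.cast_nonneg _)).trans hrT
    push_cast at h9
    have h10 : B * (2 * m * (DK + 1)) ≤ B * Real.log T := by linarith
    have h11 : 2 * m * (DK + 1) ≤ Real.log T := le_of_mul_le_mul_left h10 (by linarith)
    have h12 : 0 ≤ (m : ℝ) * (DK + 1) := by positivity
    linarith
  have hv : ∀ i, -(m : ℤ) < ⌊u i⌋ ∧ ⌊u i⌋ ≤ m := by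
    intro i
    obtain ⟨a1, a2⟩ := abs_le.1 (hu i)
    constructor
    · have : (-(m : ℤ) + 1 : ℤ) ≤ ⌊u i⌋ := by
        rw [Int.le_floor]
        push_cast
        linarith
      omega
    · have : (⌊u i⌋ : ℝ) ≤ m := (Int.floor_le _).trans (by linarith)
      exact_mod_cast this
  obtain ⟨E, hE⟩ : ∃ E : ℝ, E = Real.exp (-(QQ (c1 c) (2 * m) (b1 m (fun i => ⌊u i⌋)) / 2)) := ⟨_, rfl⟩
  have hED : E ≤ D := by rw [hE]; exact hD m (by omega) h3 _ hv
  rw [← hE]
  have hE0 : 0 < E := by rw [hE]; exact Real.exp_pos _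
  obtain ⟨g, hg⟩ : ∃ g : ℕ → ℂ, g = fun n => Complex.exp (Complex.I * (fc c (2 * m) T u n : ℂ)) - (E : ℂ) := ⟨_, rfl⟩
  have hgn : ∀ n, ‖g n‖ ≤ 1 + D := by
    intro n
    rw [hg]
    refine (norm_sub_le _ _).trans ?_
    rw [Complex.norm_exp_I_mul_ofReal, Complex.norm_real, Real.norm_eq_abs, abs_of_pos hE0]
    linarith
  have hcard : ∀ S : Finset ℕ, ‖∑ n ∈ S, g n‖ ≤ (1 + D) * S.card := by
    intro S
    refine (norm_sum_le _ _).trans ((Finset.sum_le_sum fun n _ => hgn n).trans (le_of_eq ?_))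
    rw [Finset.sum_const, nsmul_eq_mul]
    ring
  -- the low part
  have hρx := hy0 (ρ * T) g2
  have hNZu : ∀ y, ρ * T ≤ y → y ≤ T → (NZ y : ℝ) ≤ C3 * (y * Real.log T) := by
    intro y hy1 hy2
    obtain ⟨k1, k2, k3⟩ := hy0 y (g2.trans hy1)
    have a1 := hup (y / 2) (by linarith)
    have e2 : 2 * (y / 2) = y := by ring
    rw [e2] at a1
    refine a1.trans ?_
    apply mul_le_mul_of_nonneg_left _ hC3.le
    have b1 : Real.log (y / 2) ≤ Real.log T := Real.log_le_log (by linarith) (by linarith)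
    have b2 : 0 ≤ y / 2 := by linarith
    calc y / 2 * Real.log (y / 2) ≤ y / 2 * Real.log T := by gcongr
      _ ≤ y * Real.log T := mul_le_mul_of_nonneg_right (by linarith) hlT.le
  have hlow : ‖∑ n ∈ Finset.Icc 1 (NZ (ρ * T)), g n‖ ≤ ε / 2 * (T * Real.log T) := by
    refine (hcard _).trans ?_
    rw [Nat.card_Icc, Nat.add_sub_cancel]
    calc (1 + D) * (NZ (ρ * T) : ℝ) ≤ (1 + D) * (C3 * (ρ * T * Real.log T)) := by
          apply mul_le_mul_of_nonneg_left _ (by linarith)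
          exact hNZu _ le_rfl (by nlinarith)
      _ = ((1 + D) * C3) * ρ * (T * Real.log T) := by ring
      _ ≤ ((1 + D) * C3) * (ε / (2 * ((1 + D) * C3))) * (T * Real.log T) := by gcongr
      _ = _ := by field_simp
  -- the blocks
  have hblk : ∀ j ∈ Finset.range K, ‖∑ n ∈ Finset.Ioc (NZ (2 / 3 * ((2 / 3) ^ j * T)))
      (NZ ((2 / 3) ^ j * T)), g n‖ ≤ 2 * ε' * (T * Real.log T) := by
    intro j hj
    rw [Finset.mem_range] at hj
    obtain ⟨y, hy⟩ : ∃ y : ℝ, y = (2 / 3) ^ j * T := ⟨_, rfl⟩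
    rw [← hy]
    have hρy : ρ * T ≤ y := by
      rw [hy, hρ]
      apply mul_le_mul_of_nonneg_right _ hT0.le
      exact pow_le_pow_of_le_one (by norm_num) (by norm_num) hj.le
    have hyx : y ≤ T := by
      rw [hy]
      have : (2 / 3 : ℝ) ^ j ≤ 1 := pow_le_one₀ (by norm_num) (by norm_num)
      nlinarith
    obtain ⟨k1, k2, k3⟩ := hy0 y (g2.trans hρy)
    obtain ⟨T', hT'⟩ : ∃ T' : ℝ, T' = 3 / 5 * y := ⟨_, rfl⟩
    have hly : 0 ≤ Real.log y := Real.log_nonneg (by linarith)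
    have hT'1 : 1 < T' := by rw [hT']; linarith
    have hlT' : 0 < Real.log T' := Real.log_pos hT'1
    have hlogT : Real.log T' ≤ Real.log y := Real.log_le_log (by linarith) (by linarith)
    have hlTT : Real.log T ≤ 2 * Real.log T' := by
      have m1 : Real.log T ≤ Real.log ((3 / 5 * ρ * T) ^ 2) := Real.log_le_log (by linarith) g1
      rw [Real.log_pow] at m1
      have m2 : Real.log (3 / 5 * ρ * T) ≤ Real.log T' := by
        apply Real.log_le_log (by positivity)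
        rw [hT']
        nlinarith
      push_cast at m1
      linarith
    have hrT' : ((2 * m : ℕ) : ℝ) * Real.log (2 * m : ℕ) ≤ 2 * B * Real.log T' := by
      refine hrT.trans ?_
      have : B * Real.log T ≤ B * (2 * Real.log T') := mul_le_mul_of_nonneg_left hlTT (by linarith)
      linarith
    have hdl : Real.log T - Real.log T' ≤ DK := by
      have m1 : Real.log T ≤ Real.log (5 / (3 * ρ) * T') := by
        apply Real.log_le_log hT0
        rw [div_mul_eq_mul_div, le_div_iff₀ (by positivity), hT']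
        nlinarith
      rw [Real.log_mul (by positivity) (by linarith), ← hDK] at m1
      linarith
    have hdl0 : 0 ≤ Real.log T - Real.log T' := by
      have : Real.log T' ≤ Real.log T := Real.log_le_log (by linarith) (by rw [hT']; linarith)
      linarith
    obtain ⟨u', hu'⟩ : ∃ u' : Fin k → ℝ, u' = fun i => u i * (Real.log T' / Real.log T) := ⟨_, rfl⟩
    have hshift : ∀ i, |u i - u' i| ≤ 1 := by
      intro i
      have e : u i - u' i = u i * ((Real.log T - Real.log T') / Real.log T) := by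
        rw [hu']
        field_simp
      rw [e, abs_mul, abs_of_nonneg (div_nonneg hdl0 hlT.le), mul_div_assoc', div_le_one hlT]
      calc |u i| * (Real.log T - Real.log T') ≤ m * (DK + 1) := by
            apply mul_le_mul _ (by linarith) hdl0 (by positivity)
            have := hu i
            linarith
        _ ≤ Real.log T := hmD
    have huf : ∀ i, |u' i - (⌊u i⌋ : ℝ)| ≤ 2 := by
      intro i
      have a1 := hshift i
      have a2 := Int.floor_le (u i)
      have a3 := (Int.lt_floor_add_one (u i)).le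
      obtain ⟨a4, a5⟩ := abs_le.1 a1
      rw [abs_le]
      constructor <;> linarith
    have h6 := h1 T' hT'1.le hrT' (fun i => ⌊u i⌋) hv u' huf (2 / 3 * y) y
      (by rw [hT']; have : Real.log (3 / 5 * y) ≤ Real.log y := by rw [← hT']; exact hlogT
          linarith) (by linarith)
      (by rw [hT']; have : Real.log (3 / 5 * y) ≤ Real.log y := by rw [← hT']; exact hlogT
          linarith)
    rw [← hE] at h6
    have hlm0 : 0 < lm (2 * m) := by
      have : 0 ≤ S * 1 * C3 / ε' := by positivity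
      linarith
    have hdiff : ∀ n, ‖g n - (Complex.exp (Complex.I * (fc c (2 * m) T' u' n : ℂ)) - (E : ℂ))‖ ≤
        ε' / C3 := by
      intro n
      rw [hg]
      show ‖Complex.exp (Complex.I * (fc c (2 * m) T u n : ℂ)) - (E : ℂ) -
        (Complex.exp (Complex.I * (fc c (2 * m) T' u' n : ℂ)) - (E : ℂ))‖ ≤ _
      rw [sub_sub_sub_cancel_right]
      refine (exp_lip _ _).trans ?_
      have e : fc c (2 * m) T u n - fc c (2 * m) T' u' n = -(∑ i, c i * (u i - u' i)) / lm (2 * m) := by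
        unfold fc
        rw [← sub_div, ← Finset.sum_sub_distrib, ← Finset.sum_neg_distrib]
        congr 1
        refine Finset.sum_congr rfl fun i _ => ?_
        have := XX_conv (u := u i) (show 1 < T by linarith) hT'1 n
        have e2 : u' i = u i * (Real.log T' / Real.log T) := by rw [hu']
        rw [← e2] at this
        rw [this]
        ring
      rw [e, abs_div, abs_neg, abs_of_pos hlm0, div_le_iff₀ hlm0]
      have hle : |∑ i, c i * (u i - u' i)| ≤ S * 1 := by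
        refine (Finset.abs_sum_le_sum_abs _ _).trans ?_
        rw [hS, Finset.sum_mul]
        refine Finset.sum_le_sum fun i _ => ?_
        rw [abs_mul]
        exact mul_le_mul_of_nonneg_left (hshift i) (abs_nonneg _)
      refine hle.trans ?_
      calc S * 1 = ε' / C3 * (S * 1 * C3 / ε') := by field_simp
        _ ≤ ε' / C3 * lm (2 * m) := by
            apply mul_le_mul_of_nonneg_left _ (by positivity)
            linarith
    have hsum : ‖∑ n ∈ Finset.Ioc (NZ (2 / 3 * y)) (NZ y), g n‖ ≤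
        ‖∑ n ∈ Finset.Ioc (NZ (2 / 3 * y)) (NZ y),
          (Complex.exp (Complex.I * (fc c (2 * m) T' u' n : ℂ)) - (E : ℂ))‖ +
        ε' / C3 * (NZ y : ℝ) := by
      have e : ∑ n ∈ Finset.Ioc (NZ (2 / 3 * y)) (NZ y), g n =
          ∑ n ∈ Finset.Ioc (NZ (2 / 3 * y)) (NZ y),
          (Complex.exp (Complex.I * (fc c (2 * m) T' u' n : ℂ)) - (E : ℂ)) +
          ∑ n ∈ Finset.Ioc (NZ (2 / 3 * y)) (NZ y),
          (g n - (Complex.exp (Complex.I * (fc c (2 * m) T' u' n : ℂ)) - (E : ℂ))) := by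
        rw [← Finset.sum_add_distrib]
        refine Finset.sum_congr rfl fun n _ => ?_
        ring
      rw [e]
      refine (norm_add_le _ _).trans (add_le_add le_rfl ?_)
      refine (norm_sum_le _ _).trans ((Finset.sum_le_sum fun n _ => hdiff n).trans ?_)
      rw [Finset.sum_const, nsmul_eq_mul, Nat.card_Ioc, mul_comm]
      apply mul_le_mul_of_nonneg_left _ (by positivity)
      exact_mod_cast Nat.sub_le _ _
    refine hsum.trans ?_
    have a1 : ε' * (T' * Real.log T') ≤ ε' * (T * Real.log T) := by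
      apply mul_le_mul_of_nonneg_left _ hε'0.le
      apply mul_le_mul (by rw [hT']; linarith) _ hlT'.le hT0.le
      exact hlogT.trans (Real.log_le_log (by linarith) hyx)
    have a2 : ε' / C3 * (NZ y : ℝ) ≤ ε' * (T * Real.log T) := by
      calc ε' / C3 * (NZ y : ℝ) ≤ ε' / C3 * (C3 * (y * Real.log T)) := by
            apply mul_le_mul_of_nonneg_left (hNZu y hρy hyx) (by positivity)
        _ = ε' * (y * Real.log T) := by field_simp
        _ ≤ ε' * (T * Real.log T) := by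
            apply mul_le_mul_of_nonneg_left _ hε'0.le
            exact mul_le_mul_of_nonneg_right hyx hlT.le
    linarith
  have hblks : ‖∑ k ∈ Finset.range K, ∑ n ∈ Finset.Ioc (NZ (2 / 3 * ((2 / 3) ^ k * T)))
      (NZ ((2 / 3) ^ k * T)), g n‖ ≤ ε / 2 * (T * Real.log T) := by
    refine (norm_sum_le _ _).trans ((Finset.sum_le_sum hblk).trans ?_)
    rw [Finset.sum_const, Finset.card_range, nsmul_eq_mul, hε']
    have hTl : 0 ≤ T * Real.log T := by positivity
    have hKK : (K : ℝ) * (2 * (ε / (4 * (K + 1))) * (T * Real.log T)) ≤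
        (K + 1) * (2 * (ε / (4 * (K + 1))) * (T * Real.log T)) := by
      apply mul_le_mul_of_nonneg_right (by linarith) (by positivity)
    refine hKK.trans (le_of_eq ?_)
    field_simp
    ring
  have e2 := split_sum g T hT0.le K
  rw [← hρ] at e2
  have e3 : ∑ n ∈ Finset.Icc 1 (NZ T), (Complex.exp (Complex.I * (fc c (2 * m) T u n : ℂ)) - (E : ℂ)) =
      ∑ n ∈ Finset.Icc 1 (NZ T), g n := by rw [hg]
  rw [e3, e2]
  refine (norm_add_le _ _).trans ?_
  linarith

end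

end Pool.Agent.R320.KL
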