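import Pool.Agent.R320.KL.Gmo

/-! # Polarization and pairings -/

set_option autoImplicit false

namespace Pool.Agent.R320.KL

open scoped Nat

noncomputable section

/-- the sum over all pairings of `K` (the hafnian), `q = m / 2`; it is `0` for odd `m` -/
def Hf (m : ℕ) (K : Fin m → Fin m → ℝ) : ℝ :=
  (∑ e : Fin (m / 2) ⊕ Fin (m / 2) ≃ Fin m, ∏ l, K (e (Sum.inl l)) (e (Sum.inr l))) /
    (2 ^ (m / 2) * ((m / 2)! : ℝ))

lemma incl {ι κ : Type} [Fintype ι] [DecidableEq ι] [Fintype κ] [DecidableEq κ] (g : (κ → ι) → ℝ) :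
    ∑ S : Finset ι, (-1 : ℝ) ^ (Sᶜ).card * ∑ w ∈ Fintype.piFinset (fun _ : κ => S), g w =
      ∑ w : κ → ι, if Function.Surjective w then g w else 0 := by
  classical
  have h1 : ∀ S : Finset ι, ∑ w ∈ Fintype.piFinset (fun _ : κ => S), g w =
      ∑ w : κ → ι, if Finset.univ.image w ⊆ S then g w else 0 := by
    intro S
    rw [← Finset.sum_filter]
    refine Finset.sum_congr ?_ fun _ _ => rfl
    ext w
    simp [Fintype.mem_piFinset, Finset.image_subset_iff]
  simp only [h1, Finset.mul_sum]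
  rw [Finset.sum_comm]
  refine Finset.sum_congr rfl fun w _ => ?_
  have h2 : ∑ S : Finset ι, (-1 : ℝ) ^ (Sᶜ).card * (if Finset.univ.image w ⊆ S then g w else 0) =
      g w * ∑ U : Finset ι, (if U ⊆ (Finset.univ.image w)ᶜ then (-1 : ℝ) ^ U.card else 0) := by
    rw [Finset.mul_sum]
    refine Fintype.sum_bijective (fun S : Finset ι => Sᶜ) compl_involutive.bijective _ _ fun S => ?_
    have h3 : (Finset.univ.image w ⊆ S) ↔ (Sᶜ ⊆ (Finset.univ.image w)ᶜ) := by
      rw [Finset.compl_subset_compl]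
    by_cases h : Finset.univ.image w ⊆ S
    · rw [if_pos h, if_pos (h3.1 h)]
      show _ = g w * (-1) ^ (Sᶜ).card
      ring
    · rw [if_neg h, if_neg (fun h4 => h (h3.2 h4))]
      ring
  rw [h2, ← Finset.sum_filter]
  have h4 : (Finset.univ.filter fun U : Finset ι => U ⊆ (Finset.univ.image w)ᶜ) =
      ((Finset.univ.image w)ᶜ).powerset := by
    ext U
    simp [Finset.mem_powerset]
  rw [h4]
  have h5 := Finset.sum_powerset_neg_one_pow_card (x := (Finset.univ.image w)ᶜ)
  have h6 : ∑ U ∈ ((Finset.univ.image w)ᶜ).powerset, (-1 : ℝ) ^ U.card =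
      if (Finset.univ.image w)ᶜ = ∅ then 1 else 0 := by
    have := congrArg (fun z : ℤ => (z : ℝ)) h5
    push_cast at this
    exact this
  rw [h6]
  have h7 : ((Finset.univ.image w)ᶜ = ∅) ↔ Function.Surjective w := by
    rw [Finset.compl_eq_empty_iff, Finset.eq_univ_iff_forall]
    simp only [Finset.mem_image, Finset.mem_univ, true_and]
    rfl
  by_cases h : Function.Surjective w
  · rw [if_pos h, if_pos (h7.2 h), mul_one]
  · rw [if_neg h, if_neg (fun h8 => h (h7.1 h8)), mul_zero]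

/-- sums over surjections between types of the same size are sums over bijections -/
lemma surj_equiv {ι κ : Type} [Fintype ι] [DecidableEq ι] [Fintype κ] [DecidableEq κ]
    (h : Fintype.card κ = Fintype.card ι) (g : (κ → ι) → ℝ) :
    (∑ w : κ → ι, if Function.Surjective w then g w else 0) = ∑ e : κ ≃ ι, g e := by
  classical
  rw [← Finset.sum_filter]
  symm
  refine Finset.sum_bij (fun e _ => (e : κ → ι)) ?_ ?_ ?_ ?_
  · intro e _
    simp [e.surjective]
  · intro e1 _ e2 _ h12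
    exact DFunLike.coe_injective h12
  · intro w hw
    rw [Finset.mem_filter] at hw
    have hb : Function.Bijective w := (Fintype.bijective_iff_surjective_and_card w).2 ⟨hw.2, h⟩
    exact ⟨Equiv.ofBijective w hb, Finset.mem_univ _, rfl⟩
  · intro e _
    rfl

/-- polarization of a product -/
lemma pol1 (m : ℕ) (x : Fin m → ℝ) :
    ∑ S : Finset (Fin m), (-1 : ℝ) ^ (Sᶜ).card * (∑ i ∈ S, x i) ^ m = (m ! : ℝ) * ∏ i, x i := by
  have h1 : ∀ S : Finset (Fin m), (∑ i ∈ S, x i) ^ m =
      ∑ w ∈ Fintype.piFinset (fun _ : Fin m => S), ∏ j, x (w j) := by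
    intro S
    rw [← Finset.prod_univ_sum, Finset.prod_const, Finset.card_univ, Fintype.card_fin]
  simp only [h1]
  rw [incl, surj_equiv rfl]
  have h2 : ∀ e : Fin m ≃ Fin m, ∏ j, x (e j) = ∏ i, x i := fun e => Equiv.prod_comp e x
  simp only [h2, Finset.sum_const, Finset.card_univ, nsmul_eq_mul, Fintype.card_perm,
    Fintype.card_fin]

/-- polarization of a power of a quadratic form -/
lemma pol2 (m q : ℕ) (h : m = q + q) (K : Fin m → Fin m → ℝ) :
    ∑ S : Finset (Fin m), (-1 : ℝ) ^ (Sᶜ).card * (∑ i ∈ S, ∑ j ∈ S, K i j) ^ q =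
      ∑ e : Fin q ⊕ Fin q ≃ Fin m, ∏ l, K (e (Sum.inl l)) (e (Sum.inr l)) := by
  have h1 : ∀ S : Finset (Fin m), (∑ i ∈ S, ∑ j ∈ S, K i j) ^ q =
      ∑ w ∈ Fintype.piFinset (fun _ : Fin q ⊕ Fin q => S), ∏ l, K (w (Sum.inl l)) (w (Sum.inr l)) := by
    intro S
    rw [← Finset.sum_product' (f := fun i j => K i j)]
    have h2 : (∑ p ∈ S ×ˢ S, K p.1 p.2) ^ q = ∏ _l : Fin q, ∑ p ∈ S ×ˢ S, K p.1 p.2 := by
      rw [Finset.prod_const, Finset.card_univ, Fintype.card_fin]
    rw [h2, Finset.prod_univ_sum]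
    refine Finset.sum_bij' (fun x _ => Sum.elim (fun l => (x l).1) (fun l => (x l).2))
      (fun w _ => fun l => (w (Sum.inl l), w (Sum.inr l))) ?_ ?_ ?_ ?_ ?_
    · intro x hx
      rw [Fintype.mem_piFinset] at hx ⊢
      intro a
      rcases a with l | l
      · exact (Finset.mem_product.1 (hx l)).1
      · exact (Finset.mem_product.1 (hx l)).2
    · intro w hw
      rw [Fintype.mem_piFinset] at hw ⊢
      intro l
      exact Finset.mem_product.2 ⟨hw _, hw _⟩
    · intro x _
      rfl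
    · intro w _
      funext a
      rcases a with l | l <;> rfl
    · intro x _
      rfl
  simp only [h1]
  rw [incl, surj_equiv]
  rw [Fintype.card_sum, Fintype.card_fin, Fintype.card_fin, h]

/-- **Gaussian moments and pairings** -/
theorem pol (m : ℕ) (K : Fin m → Fin m → ℝ) :
    ∑ S : Finset (Fin m), (-1 : ℝ) ^ (Sᶜ).card * MM m (∑ i ∈ S, ∑ j ∈ S, K i j) =
      (m ! : ℝ) * Hf m K := by
  by_cases hm : Even m
  · obtain ⟨q, hq⟩ := hm
    have hq2 : m / 2 = q := by omega
    have hE : Even m := ⟨q, hq⟩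
    unfold MM Hf
    simp only [if_pos hE]
    rw [hq2]
    have e1 : ∀ S : Finset (Fin m), (-1 : ℝ) ^ (Sᶜ).card * (((m - 1)‼ : ℝ) * (∑ i ∈ S, ∑ j ∈ S, K i j) ^ q) =
        ((m - 1)‼ : ℝ) * ((-1 : ℝ) ^ (Sᶜ).card * (∑ i ∈ S, ∑ j ∈ S, K i j) ^ q) := fun S => by ring
    simp only [e1]
    rw [← Finset.mul_sum, pol2 m q hq]
    have hfac : (m ! : ℝ) = ((m - 1)‼ : ℝ) * (2 ^ q * (q ! : ℝ)) := by
      rcases Nat.eq_zero_or_pos q with h0 | h0
      · subst h0
        simp [hq]
      · obtain ⟨j, hj⟩ : ∃ j, m = j + 1 := ⟨m - 1, by omega⟩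
        have h1 := Nat.factorial_eq_mul_doubleFactorial j
        rw [← hj] at h1
        have h2 := Nat.doubleFactorial_two_mul q
        rw [show 2 * q = m by omega] at h2
        rw [h1, h2, show m - 1 = j by omega]
        push_cast
        ring
    rw [hfac]
    have : (2 : ℝ) ^ q * (q ! : ℝ) ≠ 0 := by positivity
    field_simp
  · have h1 : ∀ S : Finset (Fin m), MM m (∑ i ∈ S, ∑ j ∈ S, K i j) = 0 := fun S => by
      unfold MM
      rw [if_neg hm]
    simp only [h1, mul_zero, Finset.sum_const_zero]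
    unfold Hf
    have : IsEmpty (Fin (m / 2) ⊕ Fin (m / 2) ≃ Fin m) := by
      refine ⟨fun e => hm ?_⟩
      have := Fintype.card_congr e
      rw [Fintype.card_sum, Fintype.card_fin, Fintype.card_fin] at this
      exact ⟨m / 2, this.symm⟩
    rw [Fintype.sum_empty]
    simp

end

end Pool.Agent.R320.KL
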