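import Pool.Agent.R320.KL.Cnt

/-! # Mixed moments of the numbers of neighbours, on RH -/

set_option autoImplicit false

namespace Pool.Agent.R320.KL

open Filter Topology MeasureTheory Set ProbabilityTheory
open SG (ord NZ)
open SP (RHs)
open Pool.Agent.Y743.CL (lm log_nat bigT)
open Pool.Agent.R320.JL
open scoped NNReal Nat

noncomputable section

lemma prod_le_sum {m : ℕ} (hm : 1 ≤ m) (z : Fin m → ℝ) (hz : ∀ j, 0 ≤ z j) : ∏ j, z j ≤ ∑ j, z j ^ m := by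
  have : Nonempty (Fin m) := ⟨⟨0, by omega⟩⟩
  obtain ⟨i, hi⟩ := Finite.exists_max z
  calc ∏ j, z j ≤ ∏ _j : Fin m, z i := Finset.prod_le_prod (fun j _ => hz j) (fun j _ => hi j)
    _ = z i ^ m := by rw [Finset.prod_const, Finset.card_univ, Fintype.card_fin]
    _ ≤ ∑ j, z j ^ m := Finset.single_le_sum (f := fun j => z j ^ m) (fun j _ => pow_nonneg (hz j) m)
        (Finset.mem_univ i)

/-- comparison of products -/
lemma prod_dif {m : ℕ} (b d : Fin m → ℝ) {θ : ℝ} (hθ : 0 < θ) (hθ1 : θ ≤ 1) :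
    |∏ j, (d j + b j) - ∏ j, b j| ≤ 2 ^ m * θ * ∑ j, ((|d j| / θ) ^ m + |b j| ^ m) := by
  classical
  have h1 : ∏ j, (d j + b j) = ∑ S : Finset (Fin m), (∏ j ∈ S, d j) * ∏ j ∈ Sᶜ, b j := by
    rw [Finset.prod_add, Finset.powerset_univ]
    refine Finset.sum_congr rfl fun S _ => ?_
    rw [Finset.compl_eq_univ_sdiff]
  have h2 : ∏ j, (d j + b j) - ∏ j, b j =
      ∑ S ∈ Finset.univ.erase (∅ : Finset (Fin m)), (∏ j ∈ S, d j) * ∏ j ∈ Sᶜ, b j := by
    rw [h1, ← Finset.sum_erase_add _ _ (Finset.mem_univ (∅ : Finset (Fin m))), Finset.prod_empty, one_mul,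
      Finset.compl_empty, add_sub_cancel_right]
  rw [h2]
  refine (Finset.abs_sum_le_sum_abs _ _).trans ?_
  obtain ⟨Z, hZ⟩ : ∃ Z : ℝ, Z = ∑ j, ((|d j| / θ) ^ m + |b j| ^ m) := ⟨_, rfl⟩
  rw [← hZ]
  have hZ0 : 0 ≤ Z := by rw [hZ]; exact Finset.sum_nonneg fun j _ => by positivity
  have hterm : ∀ S ∈ Finset.univ.erase (∅ : Finset (Fin m)), |(∏ j ∈ S, d j) * ∏ j ∈ Sᶜ, b j| ≤ θ * Z := by
    intro S hS
    have hSne : S ≠ ∅ := Finset.ne_of_mem_erase hS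
    have hS1 : 1 ≤ S.card := Finset.card_pos.2 (Finset.nonempty_iff_ne_empty.2 hSne)
    have hm1 : 1 ≤ m := by
      have := Finset.card_le_univ S
      rw [Fintype.card_fin] at this
      omega
    rw [abs_mul, Finset.abs_prod, Finset.abs_prod]
    obtain ⟨z, hz⟩ : ∃ z : Fin m → ℝ, z = fun j => if j ∈ S then |d j| / θ else |b j| := ⟨_, rfl⟩
    have e1 : ∏ j ∈ S, |d j| = θ ^ S.card * ∏ j ∈ S, z j := by
      rw [← Finset.prod_const, ← Finset.prod_mul_distrib]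
      refine Finset.prod_congr rfl fun j hj => ?_
      rw [hz]
      simp only [if_pos hj]
      field_simp
    have e2 : ∏ j ∈ Sᶜ, |b j| = ∏ j ∈ Sᶜ, z j := by
      refine Finset.prod_congr rfl fun j hj => ?_
      rw [hz]
      simp only [if_neg (Finset.mem_compl.1 hj)]
    have hz0 : ∀ j, 0 ≤ z j := by
      intro j
      rw [hz]
      show 0 ≤ (if j ∈ S then |d j| / θ else |b j|)
      split_ifs <;> positivity
    have e3 : (∏ j ∈ S, z j) * ∏ j ∈ Sᶜ, z j = ∏ j, z j := Finset.prod_mul_prod_compl S z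
    have h3 : θ ^ S.card ≤ θ := by
      calc θ ^ S.card ≤ θ ^ 1 := pow_le_pow_of_le_one hθ.le hθ1 hS1
        _ = θ := pow_one θ
    have h4 : ∏ j, z j ≤ Z := by
      refine (prod_le_sum hm1 z hz0).trans ?_
      rw [hZ]
      refine Finset.sum_le_sum fun j _ => ?_
      rw [hz]
      show (if j ∈ S then |d j| / θ else |b j|) ^ m ≤ _
      have k1 : 0 ≤ (|d j| / θ) ^ m := by positivity
      have k2 : 0 ≤ |b j| ^ m := by positivity
      split_ifs <;> linarith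
    have h5 : 0 ≤ ∏ j, z j := Finset.prod_nonneg fun j _ => hz0 j
    rw [e1, e2, mul_assoc, e3]
    exact mul_le_mul h3 h4 h5 hθ.le
  refine (Finset.sum_le_sum hterm).trans ?_
  rw [Finset.sum_const, nsmul_eq_mul]
  have h6 : (((Finset.univ.erase (∅ : Finset (Fin m))).card : ℕ) : ℝ) ≤ 2 ^ m := by
    have h7 := Finset.card_le_univ (Finset.univ.erase (∅ : Finset (Fin m)))
    rw [Fintype.card_finset, Fintype.card_fin] at h7
    exact_mod_cast h7
  calc (((Finset.univ.erase (∅ : Finset (Fin m))).card : ℕ) : ℝ) * (θ * Z) ≤ 2 ^ m * (θ * Z) := by gcongr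
    _ = _ := by ring

lemma pow_le_one_add {z : ℝ} (hz : 0 ≤ z) {m p : ℕ} (h : m ≤ p) : z ^ m ≤ 1 + z ^ p := by
  rcases le_total z 1 with h1 | h1
  · have := pow_le_one₀ hz h1 (n := m)
    have : 0 ≤ z ^ p := by positivity
    linarith
  · have := pow_le_pow_right₀ h1 h
    linarith

/-- the centred numbers of neighbours -/
def DD (T x y : ℝ) (n : ℕ) : ℝ := ((Cs T x y n).card : ℝ) - (y - x)

theorem cntlim (hRH : RHs) (m : ℕ) (B : ℝ) (hB : 1 ≤ B) (ε : ℝ) (hε : 0 < ε) :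
    ∀ᶠ M : ℕ in atTop, ∀ T : ℝ, 1 ≤ T → ((2 * M : ℕ) : ℝ) * Real.log (2 * M : ℕ) ≤ B * Real.log T →
    ∀ x y : Fin m → ℝ, (∀ i, |x i| ≤ M - 1) → (∀ i, |y i| ≤ M - 1) → (∀ i, x i ≤ y i) →
    |((NZ T : ℝ)⁻¹) * ∑ n ∈ Finset.Icc 1 (NZ T), ∏ j, (DD T (x j) (y j) n / lm (2 * M)) -
      Hf m (fun i j => KR (x i) (y i) (x j) (y j) / Real.log ((2 * M : ℕ) : ℝ))| ≤ ε := by
  obtain ⟨c0, T0, hc0, hT0, hlow⟩ := NZ_ge
  obtain ⟨j0, hj0⟩ : ∃ j : ℕ, m ≤ 2 * 2 ^ j := ⟨m, by have := Nat.lt_two_pow_self (n := m); omega⟩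
  obtain ⟨C1, hC1, hev1⟩ := momX hRH j0 B hB
  obtain ⟨C2, hC2, hev2⟩ := momE hRH j0 B hB
  obtain ⟨p, hp⟩ : ∃ p : ℕ, p = 2 ^ j0 := ⟨_, rfl⟩
  have hp1 : 1 ≤ p := by rw [hp]; exact Nat.one_le_two_pow
  rw [← hp] at hj0 hev1 hev2
  obtain ⟨G, hG⟩ : ∃ G : ℝ, G = 2 ^ m * (m * (3 + 2 ^ (2 * p) * (2 * C1) / c0)) + 1 := ⟨_, rfl⟩
  have hG0 : 0 < G := by rw [hG]; positivity
  obtain ⟨θ, hθd⟩ : ∃ θ : ℝ, θ = min 1 (ε / (2 * G)) := ⟨_, rfl⟩
  have hθ : 0 < θ := by rw [hθd]; positivity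
  have hθ1 : θ ≤ 1 := by rw [hθd]; exact min_le_left _ _
  have hθ2 : θ * G ≤ ε / 2 := by
    have h1 : θ ≤ ε / (2 * G) := by rw [hθd]; exact min_le_right _ _
    calc θ * G ≤ ε / (2 * G) * G := mul_le_mul_of_nonneg_right h1 hG0.le
      _ = ε / 2 := by field_simp
  have hlmt : Tendsto (fun m : ℕ => lm (2 * m)) atTop atTop := lm_top.comp two_top
  filter_upwards [prodlim hRH m B hB (ε / 2) (by positivity), hev1, hev2,
    two_top.eventually (bigT B hB T0), hlmt.eventually_ge_atTop (max 1 (C2 / (c0 * θ ^ (2 * p))))]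
    with M h1 h2 h3 h4 h5
  intro T hT1 hrT x y hx hy hxy
  have hTT0 := h4 T hT1 hrT
  have hNlow := hlow T hTT0
  obtain ⟨q, hq⟩ : ∃ q : ℝ, q = lm (2 * M) := ⟨_, rfl⟩
  have hq1 : 1 ≤ q := by rw [hq]; exact (le_max_left _ _).trans h5
  have hq2 : C2 / (c0 * θ ^ (2 * p)) ≤ q := by rw [hq]; exact (le_max_right _ _).trans h5
  have hq0 : 0 < q := by linarith
  have hT10 : 10 ≤ T := hT0.trans hTT0
  have hL : 0 < Real.log T := Real.log_pos (by linarith)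
  have hTL : 0 < T * Real.log T := by positivity
  have hNp : (0 : ℝ) < NZ T := lt_of_lt_of_le (by positivity) hNlow
  have g1 := h1 T hT1 hrT x y hx hy
  rw [← hq] at g1 h2 ⊢
  obtain ⟨b, hb⟩ : ∃ b : ℕ → Fin m → ℝ, b = fun n j => (XX T (y j) n - XX T (x j) n) / q := ⟨_, rfl⟩
  obtain ⟨d, hd⟩ : ∃ d : ℕ → Fin m → ℝ, d = fun n j => (((Cs T (x j) (y j) n).card : ℝ) - (y j - x j) -
    (XX T (y j) n - XX T (x j) n)) / q := ⟨_, rfl⟩
  have e1 : ∀ n, ∏ j, (DD T (x j) (y j) n / q) = ∏ j, (d n j + b n j) := by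
    intro n
    refine Finset.prod_congr rfl fun j _ => ?_
    rw [hb, hd]
    unfold DD
    ring
  have e2 : ∀ n, ∏ j, ((XX T (y j) n - XX T (x j) n) / q) = ∏ j, b n j := fun n => by rw [hb]
  simp only [e2] at g1
  simp only [e1]
  -- the moments
  have hTN : T * Real.log T ≤ NZ T / c0 := by
    rw [le_div_iff₀ hc0]
    linarith
  have mb : ∀ j, ∑ n ∈ Finset.Icc 1 (NZ T), |b n j| ^ m ≤ (1 + 2 ^ (2 * p) * (2 * C1) / c0) * NZ T := by
    intro j
    have k1 : ∀ n, |b n j| ^ m ≤ 1 + 2 ^ (2 * p) * (XX T (y j) n ^ (2 * p) + XX T (x j) n ^ (2 * p)) / q ^ (2 * p) := by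
      intro n
      refine (pow_le_one_add (abs_nonneg _) hj0).trans ?_
      rw [(even_two_mul p).pow_abs, hb]
      show 1 + ((XX T (y j) n - XX T (x j) n) / q) ^ (2 * p) ≤ _
      rw [div_pow]
      apply add_le_add le_rfl
      exact div_le_div_of_nonneg_right (two_pow_add p) (by positivity)
    refine (Finset.sum_le_sum fun n _ => k1 n).trans ?_
    rw [Finset.sum_add_distrib, Finset.sum_const, Nat.card_Icc, Nat.add_sub_cancel, nsmul_eq_mul, mul_one,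
      ← Finset.sum_div, ← Finset.mul_sum, Finset.sum_add_distrib]
    have k2 := h2 T hT1 hrT (y j) ((hy j).trans (by linarith))
    have k3 := h2 T hT1 hrT (x j) ((hx j).trans (by linarith))
    have k4 : 2 ^ (2 * p) * (∑ n ∈ Finset.Icc 1 (NZ T), XX T (y j) n ^ (2 * p) +
        ∑ n ∈ Finset.Icc 1 (NZ T), XX T (x j) n ^ (2 * p)) / q ^ (2 * p) ≤
        2 ^ (2 * p) * (2 * C1) * (T * Real.log T) := by
      rw [div_le_iff₀ (by positivity)]
      calc 2 ^ (2 * p) * (∑ n ∈ Finset.Icc 1 (NZ T), XX T (y j) n ^ (2 * p) +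
            ∑ n ∈ Finset.Icc 1 (NZ T), XX T (x j) n ^ (2 * p)) ≤
            2 ^ (2 * p) * (C1 * q ^ (2 * p) * (T * Real.log T) + C1 * q ^ (2 * p) * (T * Real.log T)) := by
            gcongr
        _ = _ := by ring
    have k5 : 2 ^ (2 * p) * (2 * C1) * (T * Real.log T) ≤ 2 ^ (2 * p) * (2 * C1) * (NZ T / c0) := by gcongr
    calc (NZ T : ℝ) + 2 ^ (2 * p) * (∑ n ∈ Finset.Icc 1 (NZ T), XX T (y j) n ^ (2 * p) +
        ∑ n ∈ Finset.Icc 1 (NZ T), XX T (x j) n ^ (2 * p)) / q ^ (2 * p) ≤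
        NZ T + 2 ^ (2 * p) * (2 * C1) * (NZ T / c0) := by linarith
      _ = _ := by ring
  have md : ∀ j, ∑ n ∈ Finset.Icc 1 (NZ T), (|d n j| / θ) ^ m ≤ 2 * NZ T := by
    intro j
    have k1 : ∀ n, (|d n j| / θ) ^ m ≤ 1 + (((Cs T (x j) (y j) n).card : ℝ) - (y j - x j) -
        (XX T (y j) n - XX T (x j) n)) ^ (2 * p) / (q * θ) ^ (2 * p) := by
      intro n
      refine (pow_le_one_add (by positivity) hj0).trans ?_
      rw [div_pow, (even_two_mul p).pow_abs, hd]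
      show 1 + ((((Cs T (x j) (y j) n).card : ℝ) - (y j - x j) -
        (XX T (y j) n - XX T (x j) n)) / q) ^ (2 * p) / θ ^ (2 * p) ≤ _
      rw [div_pow, div_div, mul_pow]
    refine (Finset.sum_le_sum fun n _ => k1 n).trans ?_
    rw [Finset.sum_add_distrib, Finset.sum_const, Nat.card_Icc, Nat.add_sub_cancel, nsmul_eq_mul, mul_one,
      ← Finset.sum_div]
    have k2 := h3 T hT1 hrT (x j) (y j) (hx j) (hy j) (hxy j)
    have k3 : (∑ n ∈ Finset.Icc 1 (NZ T), (((Cs T (x j) (y j) n).card : ℝ) - (y j - x j) -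
        (XX T (y j) n - XX T (x j) n)) ^ (2 * p)) / (q * θ) ^ (2 * p) ≤ NZ T := by
      rw [div_le_iff₀ (by positivity)]
      refine k2.trans ?_
      have k4 : C2 ≤ q * (c0 * θ ^ (2 * p)) := by
        rw [div_le_iff₀ (by positivity)] at hq2
        exact hq2
      have k5 : q ≤ q ^ (2 * p) := by
        calc q = q ^ 1 := (pow_one q).symm
          _ ≤ q ^ (2 * p) := pow_le_pow_right₀ hq1 (by omega)
      calc C2 * (T * Real.log T) ≤ q * (c0 * θ ^ (2 * p)) * (NZ T / c0) := by gcongr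
        _ = NZ T * (q * θ ^ (2 * p)) := by field_simp
        _ ≤ NZ T * (q ^ (2 * p) * θ ^ (2 * p)) := by gcongr
        _ = NZ T * (q * θ) ^ (2 * p) := by rw [mul_pow]
    linarith
  have hdif : |((NZ T : ℝ)⁻¹) * ∑ n ∈ Finset.Icc 1 (NZ T), ∏ j, (d n j + b n j) -
      ((NZ T : ℝ)⁻¹) * ∑ n ∈ Finset.Icc 1 (NZ T), ∏ j, b n j| ≤ ε / 2 := by
    rw [← mul_sub, ← Finset.sum_sub_distrib, abs_mul, abs_of_pos (by positivity), inv_mul_le_iff₀ hNp]
    calc |∑ n ∈ Finset.Icc 1 (NZ T), (∏ j, (d n j + b n j) - ∏ j, b n j)| ≤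
        ∑ n ∈ Finset.Icc 1 (NZ T), 2 ^ m * θ * ∑ j, ((|d n j| / θ) ^ m + |b n j| ^ m) :=
          (Finset.abs_sum_le_sum_abs _ _).trans (Finset.sum_le_sum fun n _ => prod_dif (b n) (d n) hθ hθ1)
      _ = 2 ^ m * θ * ∑ j, (∑ n ∈ Finset.Icc 1 (NZ T), (|d n j| / θ) ^ m +
          ∑ n ∈ Finset.Icc 1 (NZ T), |b n j| ^ m) := by
          rw [← Finset.mul_sum, Finset.sum_comm]
          congr 1
          refine Finset.sum_congr rfl fun j _ => ?_
          rw [Finset.sum_add_distrib]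
      _ ≤ 2 ^ m * θ * ∑ _j : Fin m, (2 * NZ T + (1 + 2 ^ (2 * p) * (2 * C1) / c0) * NZ T) := by
          apply mul_le_mul_of_nonneg_left _ (by positivity)
          exact Finset.sum_le_sum fun j _ => add_le_add (md j) (mb j)
      _ = θ * (2 ^ m * (m * (3 + 2 ^ (2 * p) * (2 * C1) / c0))) * NZ T := by
          rw [Finset.sum_const, Finset.card_univ, Fintype.card_fin, nsmul_eq_mul]
          ring
      _ ≤ θ * G * NZ T := by
          apply mul_le_mul_of_nonneg_right _ hNp.le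
          apply mul_le_mul_of_nonneg_left _ hθ.le
          rw [hG]
          linarith
      _ ≤ ε / 2 * NZ T := mul_le_mul_of_nonneg_right hθ2 hNp.le
      _ = NZ T * (ε / 2) := mul_comm _ _
  have f1 := abs_le.1 hdif
  have f2 := abs_le.1 g1
  rw [abs_le]
  constructor <;> linarith [f1.1, f1.2, f2.1, f2.2]

end

end Pool.Agent.R320.KL
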