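import Pool.Agent.R320.KL.Prd

/-! # Counts of neighbours, on RH -/

set_option autoImplicit false

namespace Pool.Agent.R320.KL

open Filter Topology MeasureTheory Set ProbabilityTheory
open SG (ord NZ)
open SP (RHs)
open Pool.Agent.Y743.CL (lm log_nat bigT)
open Pool.Agent.R320.JL
open scoped NNReal Nat

noncomputable section

/-- the neighbours of the `n`-th zero with scaled distance in `[x, y]` -/
def Cs (T x y : ℝ) (n : ℕ) : Finset ℕ :=
  (Finset.Icc 1 (NZ T)).filter (fun l => l ≠ n ∧ (ord l - ord n) * (Real.log T / (2 * Real.pi)) ∈ Icc x y)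

lemma Cs_near {T x y : ℝ} {n : ℕ} (hT : 1 < T) (hxy : x ≤ y)
    (hb : ord n + y * (2 * Real.pi / Real.log T) ≤ T) :
    |((Cs T x y n).card : ℝ) - (y - x) - (XX T y n - XX T x n)| ≤ |WW T (x - 1) x n| + 2 := by
  have hpi := Real.pi_pos
  have hL : 0 < Real.log T := Real.log_pos hT
  obtain ⟨h, hh⟩ : ∃ h : ℝ, h = 2 * Real.pi / Real.log T := ⟨_, rfl⟩
  have hh0 : 0 < h := by rw [hh]; positivity
  have hhi : ∀ z : ℝ, z * (Real.log T / (2 * Real.pi)) = z / h := by
    intro z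
    rw [hh]
    field_simp
  rw [← hh] at hb
  obtain ⟨a, ha⟩ : ∃ a : ℝ, a = ord n + x * h := ⟨_, rfl⟩
  obtain ⟨b, hbd⟩ : ∃ b : ℝ, b = ord n + y * h := ⟨_, rfl⟩
  have hab : a ≤ b := by rw [ha, hbd]; nlinarith
  have hmem : ∀ l, l ∈ Cs T x y n ↔ (1 ≤ l ∧ l ≤ NZ T) ∧ l ≠ n ∧ a ≤ ord l ∧ ord l ≤ b := by
    intro l
    unfold Cs
    rw [Finset.mem_filter, Finset.mem_Icc, hhi, mem_Icc, le_div_iff₀ hh0, div_le_iff₀ hh0, ha, hbd]
    constructor
    · rintro ⟨h1, h2, h3, h4⟩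
      exact ⟨h1, h2, by linarith, by linarith⟩
    · rintro ⟨h1, h2, h3, h4⟩
      exact ⟨h1, h2, by linarith, by linarith⟩
  rw [← hbd] at hb
  -- lower
  have hsub1 : (Finset.Ioc (NZ a) (NZ b)).erase n ⊆ Cs T x y n := by
    intro l hl
    rw [Finset.mem_erase, Finset.mem_Ioc] at hl
    obtain ⟨h1, h2, h3⟩ := hl
    have hl1 : 1 ≤ l := by omega
    rw [hmem]
    have h4 : ord l ≤ b := (SG.ord_le_iff hl1 _).mpr h3
    refine ⟨⟨hl1, (SG.ord_le_iff hl1 _).mp (h4.trans hb)⟩, h1, ?_, h4⟩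
    by_contra hcon
    push Not at hcon
    have := (SG.ord_le_iff hl1 _).mp hcon.le
    omega
  have hsub2 : Cs T x y n ⊆ Finset.Ioc (NZ (a - h)) (NZ b) := by
    intro l hl
    rw [hmem] at hl
    obtain ⟨⟨h1, h1'⟩, h2, h3, h4⟩ := hl
    rw [Finset.mem_Ioc]
    refine ⟨?_, (SG.ord_le_iff h1 _).mp h4⟩
    by_contra hcon
    push Not at hcon
    have := (SG.ord_le_iff h1 _).mpr hcon
    linarith
  have c1 : (NZ b : ℝ) - NZ a - 1 ≤ (Cs T x y n).card := by
    have h1 := Finset.card_le_card hsub1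
    have h2 := Finset.pred_card_le_card_erase (s := Finset.Ioc (NZ a) (NZ b)) (a := n)
    rw [Nat.card_Ioc] at h2
    have h3 : NZ a ≤ NZ b := SG.NZ_mono hab
    have h4 : NZ b ≤ NZ a + (Cs T x y n).card + 1 := by omega
    have h5 : (NZ b : ℝ) ≤ NZ a + (Cs T x y n).card + 1 := by exact_mod_cast h4
    linarith
  have c2 : ((Cs T x y n).card : ℝ) ≤ (NZ b : ℝ) - NZ (a - h) := by
    have h1 := Finset.card_le_card hsub2
    rw [Nat.card_Ioc] at h1
    have h3 : NZ (a - h) ≤ NZ b := SG.NZ_mono (by linarith)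
    have h4 : (Cs T x y n).card + NZ (a - h) ≤ NZ b := by omega
    have h5 : ((Cs T x y n).card : ℝ) + NZ (a - h) ≤ NZ b := by exact_mod_cast h4
    linarith
  have e1 : XX T y n - XX T x n = (NZ b : ℝ) - NZ a - (y - x) := by
    unfold XX
    rw [← hh, ← ha, ← hbd]
    ring
  have e2 : WW T (x - 1) x n = (NZ a : ℝ) - NZ (a - h) - 1 := by
    unfold WW
    rw [← hh, ← ha, show ord n + (x - 1) * h = a - h by rw [ha]; ring]
    ring
  rw [e1]
  have q1 := le_abs_self (WW T (x - 1) x n)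
  have q2 := abs_nonneg (WW T (x - 1) x n)
  rw [abs_le]
  constructor <;> linarith

lemma Cs_far {T x y : ℝ} {n : ℕ} (hT : 1 < T) (hxy : x ≤ y) :
    |((Cs T x y n).card : ℝ) - (y - x) - (XX T y n - XX T x n)| ≤
      (NZ (ord n + y * (2 * Real.pi / Real.log T)) : ℝ) -
        NZ (ord n + (x - 1) * (2 * Real.pi / Real.log T)) := by
  have hpi := Real.pi_pos
  have hL : 0 < Real.log T := Real.log_pos hT
  obtain ⟨h, hh⟩ : ∃ h : ℝ, h = 2 * Real.pi / Real.log T := ⟨_, rfl⟩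
  have hh0 : 0 < h := by rw [hh]; positivity
  have hhi : ∀ z : ℝ, z * (Real.log T / (2 * Real.pi)) = z / h := by
    intro z
    rw [hh]
    field_simp
  obtain ⟨a, ha⟩ : ∃ a : ℝ, a = ord n + x * h := ⟨_, rfl⟩
  obtain ⟨b, hbd⟩ : ∃ b : ℝ, b = ord n + y * h := ⟨_, rfl⟩
  have hab : a ≤ b := by rw [ha, hbd]; nlinarith
  have hsub2 : Cs T x y n ⊆ Finset.Ioc (NZ (a - h)) (NZ b) := by
    intro l hl
    unfold Cs at hl
    rw [Finset.mem_filter, Finset.mem_Icc, hhi, mem_Icc, le_div_iff₀ hh0, div_le_iff₀ hh0] at hl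
    obtain ⟨⟨h1, h1'⟩, h2, h3, h4⟩ := hl
    rw [Finset.mem_Ioc]
    refine ⟨?_, (SG.ord_le_iff h1 _).mp (by rw [hbd]; linarith)⟩
    by_contra hcon
    push Not at hcon
    have := (SG.ord_le_iff h1 _).mpr hcon
    rw [ha] at this
    linarith
  have c2 : ((Cs T x y n).card : ℝ) ≤ (NZ b : ℝ) - NZ (a - h) := by
    have h1 := Finset.card_le_card hsub2
    rw [Nat.card_Ioc] at h1
    have h3 : NZ (a - h) ≤ NZ b := SG.NZ_mono (by linarith)
    have h4 : (Cs T x y n).card + NZ (a - h) ≤ NZ b := by omega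
    have h5 : ((Cs T x y n).card : ℝ) + NZ (a - h) ≤ NZ b := by exact_mod_cast h4
    linarith
  have c3 : (0 : ℝ) ≤ (Cs T x y n).card := Nat.cast_nonneg _
  have e1 : XX T y n - XX T x n = (NZ b : ℝ) - NZ a - (y - x) := by
    unfold XX
    rw [← hh, ← ha, ← hbd]
    ring
  have p1 : (NZ a : ℝ) ≤ NZ b := by exact_mod_cast SG.NZ_mono hab
  have p2 : (NZ (a - h) : ℝ) ≤ NZ a := by exact_mod_cast SG.NZ_mono (by linarith)
  rw [e1, ← hh, ← hbd, show ord n + (x - 1) * h = a - h by rw [ha]; ring, abs_le]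
  constructor <;> linarith

/-- the error has bounded moments -/
lemma momE (hRH : RHs) (j : ℕ) (B : ℝ) (hB : 1 ≤ B) : ∃ C : ℝ, 0 < C ∧ ∀ᶠ M : ℕ in atTop,
    ∀ T : ℝ, 1 ≤ T → ((2 * M : ℕ) : ℝ) * Real.log (2 * M : ℕ) ≤ B * Real.log T →
    ∀ x y : ℝ, |x| ≤ M - 1 → |y| ≤ M - 1 → x ≤ y →
    ∑ n ∈ Finset.Icc 1 (NZ T),
      (((Cs T x y n).card : ℝ) - (y - x) - (XX T y n - XX T x n)) ^ (2 * 2 ^ j) ≤ C * (T * Real.log T) := by
  obtain ⟨C, hC, hev⟩ := momC hRH j B hB
  obtain ⟨C3, T3, hC3, hT3, hup⟩ := LG.GapAux.NZ_up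
  obtain ⟨C4, hC4, hunit⟩ := Pool.Agent.Y743.NC.unit_count
  obtain ⟨m, hm⟩ : ∃ m : ℕ, m = 2 ^ j := ⟨_, rfl⟩
  rw [← hm] at hev ⊢
  have hpi := Real.pi_pos
  have hpi4 := Real.pi_lt_d2
  have hlogt : Tendsto (fun m : ℕ => Real.log ((2 * m : ℕ) : ℝ)) atTop atTop := log_nat.comp two_top
  have evT : ∀ᶠ T : ℝ in atTop, (6 * C4) ^ (2 * m + 1) * Real.log T ^ (2 * m + 1) ≤ T := by
    have h1 : (fun T : ℝ => Real.log T ^ (2 * m + 1)) =o[atTop] id := Real.isLittleO_pow_log_id_atTop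
    have h2 := h1.bound (c := 1 / (6 * C4) ^ (2 * m + 1)) (by positivity)
    filter_upwards [h2, eventually_ge_atTop 1] with s hs hs1
    have hl := Real.log_nonneg hs1
    rw [id, Real.norm_of_nonneg (by positivity), Real.norm_of_nonneg (by linarith)] at hs
    calc _ ≤ (6 * C4) ^ (2 * m + 1) * (1 / (6 * C4) ^ (2 * m + 1) * s) := by gcongr
      _ = s := by field_simp
  obtain ⟨X0, hX0⟩ := evT.exists_forall_of_atTop
  refine ⟨3 ^ (2 * m) * (C * 3 ^ m + 2 ^ (2 * m) * C3 + 1), by positivity, ?_⟩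
  filter_upwards [hev, two_top.eventually (bigT B hB (max (max (2 * T3) 10) X0)),
    hlogt.eventually_ge_atTop (64 * B), eventually_ge_atTop 2] with M h1 h2 h3 hM2
  intro T hT1 hrT x y hx hy hxy
  have hTX := h2 T hT1 hrT
  have hTT3 : 2 * T3 ≤ T := ((le_max_left _ _).trans (le_max_left _ _)).trans hTX
  have hT10 : 10 ≤ T := ((le_max_right _ _).trans (le_max_left _ _)).trans hTX
  have hTX0 : X0 ≤ T := (le_max_right _ _).trans hTX
  have hT1' : 1 < T := by linarith
  have hL : 0 < Real.log T := Real.log_pos hT1'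
  have hMr : (2 : ℝ) ≤ M := by exact_mod_cast hM2
  obtain ⟨L, hLd⟩ : ∃ L : ℝ, L = Real.log T := ⟨_, rfl⟩
  have hML : 2 * (M : ℝ) * 64 ≤ L := by
    have h9 : ((2 * M : ℕ) : ℝ) * (64 * B) ≤ B * L := by
      rw [hLd]
      exact (mul_le_mul_of_nonneg_left h3 (Nat.cast_nonneg _)).trans hrT
    push_cast at h9
    have h10 : B * (2 * M * 64) ≤ B * L := by linarith
    exact le_of_mul_le_mul_left h10 (by linarith)
  obtain ⟨h, hh⟩ : ∃ h : ℝ, h = 2 * Real.pi / Real.log T := ⟨_, rfl⟩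
  have hh0 : 0 < h := by rw [hh]; positivity
  have hMh : M * h ≤ 1 / 16 := by
    rw [hh, ← hLd, mul_div_assoc', div_le_iff₀ (by linarith)]
    have h9 : (M : ℝ) * (2 * Real.pi) ≤ M * 7 := mul_le_mul_of_nonneg_left (by linarith) (by linarith)
    linarith
  have hyh : y * h ≤ 1 / 16 := by
    refine le_trans ?_ hMh
    exact mul_le_mul_of_nonneg_right (by linarith [(abs_le.1 hy).2]) hh0.le
  have hxh : -(1 / 16) ≤ (x - 1) * h := by
    have : -(M : ℝ) * h ≤ (x - 1) * h :=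
      mul_le_mul_of_nonneg_right (by linarith [(abs_le.1 hx).1]) hh0.le
    linarith
  -- the bound for one zero
  obtain ⟨U, hU⟩ : ∃ U : ℕ → ℝ, U = fun n => if T - 1 < ord n then 6 * C4 * L else 0 := ⟨_, rfl⟩
  have hU0 : ∀ n, 0 ≤ U n := by
    intro n
    rw [hU]
    show 0 ≤ (if T - 1 < ord n then 6 * C4 * L else 0)
    split_ifs
    · rw [hLd]; positivity
    · exact le_rfl
  have hone : ∀ n ∈ Finset.Icc 1 (NZ T),
      (((Cs T x y n).card : ℝ) - (y - x) - (XX T y n - XX T x n)) ^ (2 * m) ≤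
      3 ^ (2 * m) * (WW T (x - 1) x n ^ (2 * m) + 2 ^ (2 * m) + U n ^ (2 * m)) := by
    intro n hn
    rw [Finset.mem_Icc] at hn
    have hon : ord n ≤ T := (SG.ord_le_iff hn.1 _).mpr hn.2
    have habs : |((Cs T x y n).card : ℝ) - (y - x) - (XX T y n - XX T x n)| ≤
        |WW T (x - 1) x n| + 2 + U n := by
      by_cases hc : T - 1 < ord n
      · have h4 := Cs_far (n := n) hT1' hxy
        rw [← hh] at h4
        have hUn : U n = 6 * C4 * L := by rw [hU]; simp only [if_pos hc]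
        have p1 : (NZ (ord n + y * h) : ℝ) ≤ NZ (T - 2 + 1 + 1 + 1) := by
          exact_mod_cast SG.NZ_mono (by linarith)
        have p2 : (NZ (T - 2) : ℝ) ≤ NZ (ord n + (x - 1) * h) := by
          exact_mod_cast SG.NZ_mono (by linarith)
        have q1 := hunit (T - 2) (by linarith)
        have q2 := hunit (T - 2 + 1) (by linarith)
        have q3 := hunit (T - 2 + 1 + 1) (by linarith)
        have r : ∀ z, 3 ≤ z → z ≤ T → C4 * Real.log z ≤ C4 * L := by
          intro z hz1 hz2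
          rw [hLd]
          exact mul_le_mul_of_nonneg_left (Real.log_le_log (by linarith) hz2) hC4.le
        have r1 := r (T - 2) (by linarith) (by linarith)
        have r2 := r (T - 2 + 1) (by linarith) (by linarith)
        have r3 := r (T - 2 + 1 + 1) (by linarith) (by linarith)
        have := abs_nonneg (WW T (x - 1) x n)
        have hCL : 0 ≤ C4 * L := by rw [hLd]; positivity
        linarith
      · push Not at hc
        have h4 := Cs_near (n := n) hT1' hxy (by rw [← hh]; linarith)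
        linarith [hU0 n]
    have h5 : |WW T (x - 1) x n| + 2 + U n ≤ 3 * max (max |WW T (x - 1) x n| 2) (U n) := by
      have k1 := le_max_left |WW T (x - 1) x n| 2
      have k2 := le_max_right |WW T (x - 1) x n| 2
      have k3 := le_max_left (max |WW T (x - 1) x n| 2) (U n)
      have k4 := le_max_right (max |WW T (x - 1) x n| 2) (U n)
      linarith
    have h6 : (max (max |WW T (x - 1) x n| 2) (U n)) ^ (2 * m) ≤
        WW T (x - 1) x n ^ (2 * m) + 2 ^ (2 * m) + U n ^ (2 * m) := by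
      have a1 : 0 ≤ WW T (x - 1) x n ^ (2 * m) := (even_two_mul m).pow_nonneg _
      have a2 : (0 : ℝ) ≤ 2 ^ (2 * m) := by positivity
      have a3 : 0 ≤ U n ^ (2 * m) := (even_two_mul m).pow_nonneg _
      rcases max_cases (max |WW T (x - 1) x n| 2) (U n) with hc | hc
      · rw [hc.1]
        rcases max_cases |WW T (x - 1) x n| 2 with hd | hd
        · rw [hd.1, (even_two_mul m).pow_abs]; linarith
        · rw [hd.1]; linarith
      · rw [hc.1]; linarith
    rw [← (even_two_mul m).pow_abs]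
    calc |((Cs T x y n).card : ℝ) - (y - x) - (XX T y n - XX T x n)| ^ (2 * m) ≤
        (3 * max (max |WW T (x - 1) x n| 2) (U n)) ^ (2 * m) :=
          pow_le_pow_left₀ (abs_nonneg _) (habs.trans h5) _
      _ = 3 ^ (2 * m) * (max (max |WW T (x - 1) x n| 2) (U n)) ^ (2 * m) := mul_pow _ _ _
      _ ≤ _ := mul_le_mul_of_nonneg_left h6 (by positivity)
  refine (Finset.sum_le_sum hone).trans ?_
  rw [← Finset.mul_sum, Finset.sum_add_distrib, Finset.sum_add_distrib, Finset.sum_const, Nat.card_Icc,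
    Nat.add_sub_cancel, nsmul_eq_mul]
  have b1 : ∑ n ∈ Finset.Icc 1 (NZ T), WW T (x - 1) x n ^ (2 * m) ≤ C * 3 ^ m * (T * Real.log T) := by
    refine (h1 T hT1 hrT (x - 1) x ?_ (hx.trans (by linarith)) (by linarith)).trans ?_
    · have := abs_le.1 hx
      rw [abs_le]
      constructor <;> linarith
    · have e : x - (x - 1) = 1 := by ring
      rw [e]
      have a1 : Real.log (2 + 1) ≤ 2 := by
        have := Real.log_le_sub_one_of_pos (show (0 : ℝ) < 2 + 1 by norm_num)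
        linarith
      have a2 : 0 ≤ Real.log ((2 : ℝ) + 1) := Real.log_nonneg (by norm_num)
      have a3 : (1 + Real.log ((2 : ℝ) + 1)) ^ m ≤ 3 ^ m := pow_le_pow_left₀ (by linarith) (by linarith) m
      gcongr
  have b2 : (NZ T : ℝ) ≤ C3 * (T * Real.log T) := by
    have a1 := hup (T / 2) (by linarith)
    have e2 : 2 * (T / 2) = T := by ring
    rw [e2] at a1
    refine a1.trans ?_
    apply mul_le_mul_of_nonneg_left _ hC3.le
    have b1 : Real.log (T / 2) ≤ Real.log T := Real.log_le_log (by linarith) (by linarith)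
    have b2 : 0 ≤ T / 2 := by linarith
    calc T / 2 * Real.log (T / 2) ≤ T / 2 * Real.log T := by gcongr
      _ ≤ T * Real.log T := mul_le_mul_of_nonneg_right (by linarith) hL.le
  have b3 : ∑ n ∈ Finset.Icc 1 (NZ T), U n ^ (2 * m) ≤ T * Real.log T := by
    have e : ∀ n, U n ^ (2 * m) ≤ if T - 1 < ord n then (6 * C4 * L) ^ (2 * m) else (0 : ℝ) ^ (2 * m) := by
      intro n
      rw [hU]
      show (if T - 1 < ord n then 6 * C4 * L else 0) ^ (2 * m) ≤ _
      split_ifs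
      · exact le_rfl
      · exact le_rfl
    have hm1 : 2 * m ≠ 0 := by
      have : 1 ≤ m := by rw [hm]; exact Nat.one_le_two_pow
      omega
    refine (Finset.sum_le_sum fun n _ => e n).trans ?_
    rw [zero_pow hm1, ← Finset.sum_filter, Finset.sum_const, nsmul_eq_mul]
    have hsub : (Finset.Icc 1 (NZ T)).filter (fun n => T - 1 < ord n) ⊆ Finset.Ioc (NZ (T - 1)) (NZ T) := by
      intro n hn
      rw [Finset.mem_filter, Finset.mem_Icc] at hn
      rw [Finset.mem_Ioc]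
      refine ⟨?_, hn.1.2⟩
      by_contra hcon
      push Not at hcon
      have := (SG.ord_le_iff hn.1.1 _).mpr hcon
      linarith [hn.2]
    have hcard : (((Finset.Icc 1 (NZ T)).filter (fun n => T - 1 < ord n)).card : ℝ) ≤ 6 * C4 * L := by
      have a1 := Finset.card_le_card hsub
      rw [Nat.card_Ioc] at a1
      have a2 : NZ (T - 1) ≤ NZ T := SG.NZ_mono (by linarith)
      have a3 : (((Finset.Icc 1 (NZ T)).filter (fun n => T - 1 < ord n)).card : ℝ) ≤
          ((NZ T - NZ (T - 1) : ℕ) : ℝ) := by exact_mod_cast a1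
      rw [Nat.cast_sub a2] at a3
      have a4 := hunit (T - 1) (by linarith)
      rw [sub_add_cancel] at a4
      have a5 : C4 * Real.log (T - 1) ≤ C4 * L := by
        rw [hLd]
        exact mul_le_mul_of_nonneg_left (Real.log_le_log (by linarith) (by linarith)) hC4.le
      have hCL : 0 ≤ C4 * L := by rw [hLd]; positivity
      linarith
    have hCL : 0 ≤ 6 * C4 * L := by rw [hLd]; positivity
    calc (((Finset.Icc 1 (NZ T)).filter (fun n => T - 1 < ord n)).card : ℝ) * (6 * C4 * L) ^ (2 * m) ≤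
        6 * C4 * L * (6 * C4 * L) ^ (2 * m) := by gcongr
      _ = (6 * C4) ^ (2 * m + 1) * Real.log T ^ (2 * m + 1) := by rw [← hLd, ← mul_pow]; ring
      _ ≤ T := hX0 T hTX0
      _ ≤ T * Real.log T := le_mul_of_one_le_right (by linarith) (by rw [← hLd]; linarith)
  have hTL : 0 ≤ T * Real.log T := by positivity
  calc 3 ^ (2 * m) * (∑ n ∈ Finset.Icc 1 (NZ T), WW T (x - 1) x n ^ (2 * m) + (NZ T : ℝ) * 2 ^ (2 * m) +
        ∑ n ∈ Finset.Icc 1 (NZ T), U n ^ (2 * m)) ≤
      3 ^ (2 * m) * (C * 3 ^ m * (T * Real.log T) + C3 * (T * Real.log T) * 2 ^ (2 * m) +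
        T * Real.log T) := by gcongr
    _ = _ := by ring

end

end Pool.Agent.R320.KL
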