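import Pool.Agent.R320.KL.Mza
import Pool.Agent.R320.KL.Cmb

/-! # Convergence of the moments of linear combinations of counts near zeros, on RH -/

set_option autoImplicit false

namespace Pool.Agent.R320.KL

open Filter Topology MeasureTheory Set ProbabilityTheory
open SG (ord NZ)
open SP (RHs)
open Pool.Agent.Y743.CL (lm log_nat bigT)
open Pool.Agent.R320.JL
open scoped NNReal

noncomputable section

/-- `log max (1, |u|)` -/
def lp (u : ℝ) : ℝ := Real.log (max 1 |u|)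

/-- the quadratic form of the limit (without the factor `π⁻²`) -/
def QR {k : ℕ} (c : Fin k → ℝ) (u : Fin k → ℝ) : ℝ :=
  (∑ i, ∑ j, c i * c j * (lp (u i) + lp (u j) - lp (u i - u j))) / 2

lemma lp_nonneg (u : ℝ) : 0 ≤ lp u := Real.log_nonneg (le_max_left _ _)

lemma lp_int (v : ℤ) : Real.log |(v : ℝ)| = lp v := by
  unfold lp
  by_cases h : v = 0
  · subst h
    simp
  · have h1 : (1 : ℝ) ≤ |(v : ℝ)| := by exact_mod_cast Int.one_le_abs h
    rw [max_eq_right h1]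

lemma lp_near {u v : ℝ} (h : |u - v| ≤ 1) : |lp u - lp v| ≤ 1 := by
  have key : ∀ a b : ℝ, |a - b| ≤ 1 → lp a - lp b ≤ 1 := by
    intro a b hab
    unfold lp
    have h1 : max 1 |a| ≤ 2 * max 1 |b| := by
      have h2 : |a| ≤ |b| + 1 := by
        have := abs_sub_abs_le_abs_sub a b
        linarith
      have h3 := le_max_left 1 |b|
      have h4 := le_max_right 1 |b|
      exact max_le (by linarith) (by linarith)
    have h5 : Real.log (max 1 |a|) ≤ Real.log (2 * max 1 |b|) := Real.log_le_log (by positivity) h1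
    rw [Real.log_mul (by norm_num) (by positivity)] at h5
    have := Real.log_two_lt_d9
    linarith
  rw [abs_le]
  constructor
  · have := key v u (by rw [abs_sub_comm]; exact h)
    linarith
  · exact key u v h

lemma QQ_c1 {k : ℕ} (c : Fin k → ℝ) (r m : ℕ) {v : Fin k → ℤ} (hv : ∀ i, -(m : ℤ) < v i ∧ v i ≤ m) :
    QQ (c1 c) r (b1 m v) = (∑ i, ∑ j, c i * c j * (Real.log |(v i : ℝ)| + Real.log |(v j : ℝ)| -
      Real.log |(v i : ℝ) - v j|)) / (2 * Real.log r) := by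
  have h2 : ∀ i, (((v i + m).toNat : ℕ) : ℝ) = (v i : ℝ) + m := by
    intro i
    have h3 : (((v i + m).toNat : ℕ) : ℤ) = v i + m := Int.toNat_of_nonneg (by have := (hv i).1; omega)
    exact_mod_cast h3
  obtain ⟨S, hS⟩ : ∃ S : ℝ, S = ∑ i, c i := ⟨_, rfl⟩
  obtain ⟨lb, hlb⟩ : ∃ lb : Fin k → ℝ, lb = fun i => Real.log ((v i : ℝ) + m) := ⟨_, rfl⟩
  obtain ⟨lv, hlv⟩ : ∃ lv : Fin k → ℝ, lv = fun i => Real.log |(v i : ℝ)| := ⟨_, rfl⟩
  obtain ⟨lij, hlij⟩ : ∃ lij : Fin k → Fin k → ℝ, lij = fun i j => Real.log |(v i : ℝ) - v j| := ⟨_, rfl⟩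
  unfold QQ
  rw [Fin.sum_univ_succ]
  simp only [Fin.sum_univ_succ, c1, b1, Fin.cons_zero, Fin.cons_succ]
  unfold ld
  simp only [h2]
  have e1 : ∀ i, Real.log |(m : ℝ) - ((v i : ℝ) + m)| = lv i := by
    intro i
    rw [hlv, show (m : ℝ) - ((v i : ℝ) + m) = -(v i : ℝ) by ring, abs_neg]
  have e2 : ∀ i, Real.log |(v i : ℝ) + m - (m : ℝ)| = lv i := by
    intro i
    rw [hlv, add_sub_cancel_right]
  have e3 : ∀ i j, Real.log |(v i : ℝ) + m - ((v j : ℝ) + m)| = lij i j := by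
    intro i j
    rw [hlij, add_sub_add_right_eq_sub]
  have e4 : ∀ i, Real.log ((v i : ℝ) + m) = lb i := by
    intro i
    rw [hlb]
  have e5 : ∀ i, Real.log |(v i : ℝ)| = lv i := by
    intro i
    rw [hlv]
  have e6 : ∀ i j, Real.log |(v i : ℝ) - v j| = lij i j := by
    intro i j
    rw [hlij]
  simp only [e1, e2, e3, e4, e5, e6, sub_self, abs_zero, Real.log_zero, sub_zero]
  rw [← hS]
  obtain ⟨lM, hlM⟩ : ∃ lM : ℝ, lM = Real.log (m : ℝ) := ⟨_, rfl⟩
  rw [← hlM]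
  obtain ⟨P, hP⟩ : ∃ P : ℝ, P = ∑ i, c i * lb i := ⟨_, rfl⟩
  obtain ⟨V, hV⟩ : ∃ V : ℝ, V = ∑ i, c i * lv i := ⟨_, rfl⟩
  obtain ⟨W, hW⟩ : ∃ W : ℝ, W = ∑ i, ∑ j, c i * c j * lij i j := ⟨_, rfl⟩
  have s1 : ∑ i, -S * c i * ((lM + lb i - lv i) / (2 * Real.log r)) =
      (-S * (S * lM + P - V)) / (2 * Real.log r) := by
    have : ∀ i, -S * c i * ((lM + lb i - lv i) / (2 * Real.log r)) =
        (-S / (2 * Real.log r)) * (c i * lM + c i * lb i - c i * lv i) := fun i => by ring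
    simp only [this]
    rw [← Finset.mul_sum, Finset.sum_sub_distrib, Finset.sum_add_distrib, ← Finset.sum_mul, ← hS, ← hP,
      ← hV]
    ring
  have s2 : ∑ i, (c i * -S * ((lb i + lM - lv i) / (2 * Real.log r)) +
      ∑ j, c i * c j * ((lb i + lb j - lij i j) / (2 * Real.log r))) =
      (-S * (P + S * lM - V) + (2 * S * P - W)) / (2 * Real.log r) := by
    rw [Finset.sum_add_distrib]
    have a1 : ∑ i, c i * -S * ((lb i + lM - lv i) / (2 * Real.log r)) =
        (-S * (P + S * lM - V)) / (2 * Real.log r) := by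
      have : ∀ i, c i * -S * ((lb i + lM - lv i) / (2 * Real.log r)) =
          (-S / (2 * Real.log r)) * (c i * lb i + c i * lM - c i * lv i) := fun i => by ring
      simp only [this]
      rw [← Finset.mul_sum, Finset.sum_sub_distrib, Finset.sum_add_distrib, ← Finset.sum_mul, ← hS, ← hP,
        ← hV]
      ring
    have a2 : ∑ i, ∑ j, c i * c j * ((lb i + lb j - lij i j) / (2 * Real.log r)) =
        (2 * S * P - W) / (2 * Real.log r) := by
      have : ∀ i j, c i * c j * ((lb i + lb j - lij i j) / (2 * Real.log r)) =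
          (1 / (2 * Real.log r)) * ((c i * lb i) * c j + c i * (c j * lb j) - c i * c j * lij i j) :=
        fun i j => by ring
      simp only [this, ← Finset.mul_sum, Finset.sum_sub_distrib, Finset.sum_add_distrib]
      rw [← hW]
      simp only [← Finset.mul_sum, ← Finset.sum_mul]
      rw [← hS, ← hP]
      ring
    rw [a1, a2]
    ring
  have s3 : ∑ i, ∑ j, c i * c j * (lv i + lv j - lij i j) = 2 * S * V - W := by
    have : ∀ i j, c i * c j * (lv i + lv j - lij i j) =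
        (c i * lv i) * c j + c i * (c j * lv j) - c i * c j * lij i j := fun i j => by ring
    simp only [this, Finset.sum_sub_distrib, Finset.sum_add_distrib]
    rw [← hW]
    simp only [← Finset.mul_sum, ← Finset.sum_mul]
    rw [← hS, ← hV]
    ring
  rw [s1, s2, s3]
  ring

/-- the variance of the counts and its real version -/
lemma QQ_QR {k : ℕ} (c : Fin k → ℝ) {m : ℕ} (hl : 0 < Real.log ((2 * m : ℕ) : ℝ)) {u : Fin k → ℝ}
    (hu : ∀ i, |u i| ≤ m - 1) :
    |QQ (c1 c) (2 * m) (b1 m (fun i => ⌊u i⌋)) - QR c u / Real.log ((2 * m : ℕ) : ℝ)| ≤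
      (∑ i, |c i|) ^ 2 * (3 / 2) / Real.log ((2 * m : ℕ) : ℝ) := by
  have hv : ∀ i, -(m : ℤ) < ⌊u i⌋ ∧ ⌊u i⌋ ≤ m := by
    intro i
    obtain ⟨a1, a2⟩ := abs_le.1 (hu i)
    constructor
    · have : (-(m : ℤ) + 1 : ℤ) ≤ ⌊u i⌋ := by
        rw [Int.le_floor]
        push_cast
        linarith
      omega
    · have : (⌊u i⌋ : ℝ) ≤ m := (Int.floor_le _).trans (by linarith)
      exact_mod_cast this
  rw [QQ_c1 c (2 * m) m hv]
  unfold QR
  have hf : ∀ i, |(⌊u i⌋ : ℝ) - u i| ≤ 1 := by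
    intro i
    have a2 := Int.floor_le (u i)
    have a3 := (Int.lt_floor_add_one (u i)).le
    rw [abs_le]
    constructor <;> linarith
  have hf2 : ∀ i j, |((⌊u i⌋ : ℝ) - ⌊u j⌋) - (u i - u j)| ≤ 1 := by
    intro i j
    have a2 := Int.floor_le (u i)
    have a3 := (Int.lt_floor_add_one (u i)).le
    have a4 := Int.floor_le (u j)
    have a5 := (Int.lt_floor_add_one (u j)).le
    rw [abs_le]
    constructor <;> linarith
  have h1 : ∀ i, Real.log |((⌊u i⌋ : ℤ) : ℝ)| = lp ⌊u i⌋ := fun i => lp_int _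
  have h2 : ∀ i j, Real.log |((⌊u i⌋ : ℤ) : ℝ) - ((⌊u j⌋ : ℤ) : ℝ)| = lp ((⌊u i⌋ : ℝ) - ⌊u j⌋) := by
    intro i j
    have := lp_int (⌊u i⌋ - ⌊u j⌋)
    push_cast at this
    exact this
  simp only [h1, h2]
  have h2l : 0 < 2 * Real.log ((2 * m : ℕ) : ℝ) := by linarith
  rw [div_div, ← sub_div, ← Finset.sum_sub_distrib, abs_div, abs_of_pos h2l,
    div_le_div_iff₀ h2l hl]
  have h3 : |∑ i, (∑ j, c i * c j * (lp ⌊u i⌋ + lp ⌊u j⌋ - lp ((⌊u i⌋ : ℝ) - ⌊u j⌋)) -
      ∑ j, c i * c j * (lp (u i) + lp (u j) - lp (u i - u j)))| ≤ (∑ i, |c i|) ^ 2 * 3 := by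
    have h4 : ∀ i, (∑ j, c i * c j * (lp ⌊u i⌋ + lp ⌊u j⌋ - lp ((⌊u i⌋ : ℝ) - ⌊u j⌋)) -
        ∑ j, c i * c j * (lp (u i) + lp (u j) - lp (u i - u j))) =
        ∑ j, c i * c j * ((lp ⌊u i⌋ - lp (u i)) + (lp ⌊u j⌋ - lp (u j)) -
          (lp ((⌊u i⌋ : ℝ) - ⌊u j⌋) - lp (u i - u j))) := by
      intro i
      rw [← Finset.sum_sub_distrib]
      refine Finset.sum_congr rfl fun j _ => ?_
      ring
    simp only [h4]
    refine sum_bd c (fun i j => ((lp ⌊u i⌋ - lp (u i)) + (lp ⌊u j⌋ - lp (u j)) -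
          (lp ((⌊u i⌋ : ℝ) - ⌊u j⌋) - lp (u i - u j)))) 3 fun i j => ?_
    have k1 := abs_le.1 (lp_near (hf i))
    have k2 := abs_le.1 (lp_near (hf j))
    have k3 := abs_le.1 (lp_near (hf2 i j))
    rw [abs_le]
    constructor <;> linarith [k1.1, k1.2, k2.1, k2.2, k3.1, k3.2]
  have h5 := mul_le_mul_of_nonneg_right h3 hl.le
  refine h5.trans (le_of_eq ?_)
  ring

lemma XX_abs {T u : ℝ} {n : ℕ} (hT : 1 < T) (hn : 1 ≤ n) :
    |XX T u n| ≤ |WW T (min u 0) (max u 0) n| + |WW T (-1) 0 n| + 1 := by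
  have hpi := Real.pi_pos
  have hL : 0 < Real.log T := Real.log_pos hT
  obtain ⟨h, hh⟩ : ∃ h : ℝ, h = 2 * Real.pi / Real.log T := ⟨_, rfl⟩
  have hh0 : 0 < h := by rw [hh]; positivity
  have p1 : (n : ℝ) ≤ NZ (ord n) := by exact_mod_cast SG.le_NZ_ord hn
  have p2 : (NZ (ord n + -1 * h) : ℝ) ≤ n := by
    by_contra hcon
    push Not at hcon
    have h1 : n ≤ NZ (ord n + -1 * h) := by exact_mod_cast hcon.le
    have := (SG.ord_le_iff hn _).mpr h1
    linarith
  have q1 : |WW T (-1) 0 n| ≥ (NZ (ord n) : ℝ) - NZ (ord n + -1 * h) - 1 := by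
    have := le_abs_self (WW T (-1) 0 n)
    unfold WW at this ⊢
    rw [← hh, zero_mul, add_zero] at this ⊢
    linarith
  have q2 := abs_nonneg (WW T (-1) 0 n)
  rcases le_total 0 u with hu | hu
  · rw [min_eq_right hu, max_eq_left hu]
    have e : XX T u n = WW T 0 u n + ((NZ (ord n) : ℝ) - n) := by
      unfold XX WW
      rw [zero_mul, add_zero]
      ring
    rw [e]
    refine (abs_add_le _ _).trans ?_
    rw [abs_of_nonneg (show 0 ≤ (NZ (ord n) : ℝ) - n by linarith)]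
    linarith
  · rw [min_eq_left hu, max_eq_right hu]
    have e : XX T u n = -WW T u 0 n + ((NZ (ord n) : ℝ) - n) := by
      unfold XX WW
      rw [zero_mul, add_zero]
      ring
    rw [e]
    refine (abs_add_le _ _).trans ?_
    rw [abs_neg, abs_of_nonneg (show 0 ≤ (NZ (ord n) : ℝ) - n by linarith)]
    linarith

/-- moments of the centred counts at one position -/
lemma momX (hRH : RHs) (j : ℕ) (B : ℝ) (hB : 1 ≤ B) : ∃ C : ℝ, 0 < C ∧ ∀ᶠ M : ℕ in atTop,
    ∀ T : ℝ, 1 ≤ T → ((2 * M : ℕ) : ℝ) * Real.log (2 * M : ℕ) ≤ B * Real.log T →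
    ∀ u : ℝ, |u| ≤ M →
    ∑ n ∈ Finset.Icc 1 (NZ T), XX T u n ^ (2 * 2 ^ j) ≤
      C * (lm (2 * M)) ^ (2 * 2 ^ j) * (T * Real.log T) := by
  obtain ⟨C, hC, hev⟩ := momC hRH j B hB
  obtain ⟨C3, T3, hC3, hT3, hup⟩ := LG.GapAux.NZ_up
  obtain ⟨m, hm⟩ : ∃ m : ℕ, m = 2 ^ j := ⟨_, rfl⟩
  rw [← hm] at hev ⊢
  have hpi := Real.pi_pos
  have hlogt : Tendsto (fun m : ℕ => Real.log ((2 * m : ℕ) : ℝ)) atTop atTop := log_nat.comp two_top
  refine ⟨3 ^ (2 * m) * ((2 * C + C3) * (3 * Real.pi ^ 2) ^ m), by positivity, ?_⟩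
  filter_upwards [hev, two_top.eventually (bigT B hB (max (2 * T3) 10)),
    hlogt.eventually_ge_atTop 2, eventually_ge_atTop 2] with M h1 h2 h3 hM2
  intro T hT1 hrT u hu
  have hTX := h2 T hT1 hrT
  have hTT3 : 2 * T3 ≤ T := (le_max_left _ _).trans hTX
  have hT10 : 10 ≤ T := (le_max_right _ _).trans hTX
  have hT1' : 1 < T := by linarith
  have hL : 0 < Real.log T := Real.log_pos hT1'
  have hMr : (2 : ℝ) ≤ M := by exact_mod_cast hM2
  obtain ⟨lM, hlM⟩ : ∃ lM : ℝ, lM = Real.log ((2 * M : ℕ) : ℝ) := ⟨_, rfl⟩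
  rw [← hlM] at h3
  have hTL : 0 ≤ T * Real.log T := by positivity
  have hlog : ∀ w : ℝ, 0 ≤ w → w ≤ M → (1 + Real.log (2 + w)) ^ m ≤ (3 * lM) ^ m := by
    intro w hw0 hwM
    have a1 : Real.log (2 + w) ≤ lM := by
      rw [hlM]
      apply Real.log_le_log (by linarith)
      push_cast
      linarith
    have a2 := Real.log_nonneg (show (1 : ℝ) ≤ 2 + w by linarith)
    exact pow_le_pow_left₀ (by linarith) (by linarith) m
  have b1 : ∑ n ∈ Finset.Icc 1 (NZ T), WW T (min u 0) (max u 0) n ^ (2 * m) ≤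
      C * (3 * lM) ^ m * (T * Real.log T) := by
    have hab : max u 0 - min u 0 = |u| := by
      rcases le_total 0 u with h | h
      · rw [max_eq_left h, min_eq_right h, abs_of_nonneg h, sub_zero]
      · rw [max_eq_right h, min_eq_left h, abs_of_nonpos h, zero_sub]
    have k1 : |min u 0| ≤ M := by
      rcases le_total 0 u with h | h
      · rw [min_eq_right h, abs_zero]; linarith
      · rw [min_eq_left h]; exact hu
    have k2 : |max u 0| ≤ M := by
      rcases le_total 0 u with h | h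
      · rw [max_eq_left h]; exact hu
      · rw [max_eq_right h, abs_zero]; linarith
    refine (h1 T hT1 hrT (min u 0) (max u 0) k1 k2 (min_le_max)).trans ?_
    rw [hab]
    have := hlog |u| (abs_nonneg _) hu
    gcongr
  have b2 : ∑ n ∈ Finset.Icc 1 (NZ T), WW T (-1) 0 n ^ (2 * m) ≤ C * (3 * lM) ^ m * (T * Real.log T) := by
    refine (h1 T hT1 hrT (-1) 0 (by rw [abs_neg, abs_one]; linarith) (by rw [abs_zero]; linarith)
      (by norm_num)).trans ?_
    have := hlog (0 - -1) (by norm_num) (by linarith)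
    gcongr
  have b3 : (NZ T : ℝ) ≤ C3 * (T * Real.log T) := by
    have a1 := hup (T / 2) (by linarith)
    have e2 : 2 * (T / 2) = T := by ring
    rw [e2] at a1
    refine a1.trans ?_
    apply mul_le_mul_of_nonneg_left _ hC3.le
    have b1 : Real.log (T / 2) ≤ Real.log T := Real.log_le_log (by linarith) (by linarith)
    have b2 : 0 ≤ T / 2 := by linarith
    calc T / 2 * Real.log (T / 2) ≤ T / 2 * Real.log T := by gcongr
      _ ≤ T * Real.log T := mul_le_mul_of_nonneg_right (by linarith) hL.le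
  have hterm : ∀ n ∈ Finset.Icc 1 (NZ T), XX T u n ^ (2 * m) ≤
      3 ^ (2 * m) * (WW T (min u 0) (max u 0) n ^ (2 * m) + WW T (-1) 0 n ^ (2 * m) + 1) := by
    intro n hn
    rw [Finset.mem_Icc] at hn
    have h4 := add3_pow (abs_nonneg (WW T (min u 0) (max u 0) n)) (abs_nonneg (WW T (-1) 0 n)) (2 * m)
    rw [(even_two_mul m).pow_abs, (even_two_mul m).pow_abs] at h4
    refine le_trans ?_ h4
    rw [← (even_two_mul m).pow_abs]
    exact pow_le_pow_left₀ (abs_nonneg _) (XX_abs hT1' hn.1) _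
  refine (Finset.sum_le_sum hterm).trans ?_
  rw [← Finset.mul_sum, Finset.sum_add_distrib, Finset.sum_add_distrib, Finset.sum_const, Nat.card_Icc,
    Nat.add_sub_cancel, nsmul_eq_mul, mul_one]
  have hlm2 : lm (2 * M) ^ (2 * m) = (lM / Real.pi ^ 2) ^ m := by
    rw [pow_mul, lm_sq (by rw [← hlM]; linarith), ← hlM]
  rw [hlm2]
  have e1 : (3 * lM) ^ m = (3 * Real.pi ^ 2) ^ m * (lM / Real.pi ^ 2) ^ m := by
    rw [← mul_pow]
    congr 1
    field_simp
  have e2 : 1 ≤ (3 * lM) ^ m := one_le_pow₀ (by linarith)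
  calc 3 ^ (2 * m) * (∑ n ∈ Finset.Icc 1 (NZ T), WW T (min u 0) (max u 0) n ^ (2 * m) +
        ∑ n ∈ Finset.Icc 1 (NZ T), WW T (-1) 0 n ^ (2 * m) + (NZ T : ℝ)) ≤
      3 ^ (2 * m) * (C * (3 * lM) ^ m * (T * Real.log T) + C * (3 * lM) ^ m * (T * Real.log T) +
        C3 * (T * Real.log T)) := by gcongr
    _ ≤ 3 ^ (2 * m) * (C * (3 * lM) ^ m * (T * Real.log T) + C * (3 * lM) ^ m * (T * Real.log T) +
        C3 * ((3 * lM) ^ m * (T * Real.log T))) := by
        have e3 : C3 * (T * Real.log T) ≤ C3 * ((3 * lM) ^ m * (T * Real.log T)) :=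
          mul_le_mul_of_nonneg_left (le_mul_of_one_le_left hTL e2) hC3.le
        exact mul_le_mul_of_nonneg_left (by linarith) (by positivity)
    _ = _ := by rw [e1]; ring

end

end Pool.Agent.R320.KL
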