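import Pool.Agent.R320.JL.Lv

/-! # Gaussian moments -/

set_option autoImplicit false

namespace Pool.Agent.R320.KL

open Filter Topology MeasureTheory Set ProbabilityTheory
open scoped NNReal ENNReal Nat

noncomputable section

/-- the `p`-th moment of the centred Gaussian law of variance `V` -/
def MM (p : ℕ) (V : ℝ) : ℝ := if Even p then ((p - 1)‼ : ℝ) * V ^ (p / 2) else 0

lemma gm_even (q : ℕ) : ∫ x, x ^ (2 * q) ∂(gaussianReal 0 1) = ((2 * q - 1)‼ : ℝ) := by
  have hpi := Real.pi_pos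
  rw [integral_gaussianReal_eq_integral_smul one_ne_zero]
  have e1 : ∀ x : ℝ, gaussianPDFReal 0 1 x • x ^ (2 * q) =
      (fun y : ℝ => (Real.sqrt (2 * Real.pi))⁻¹ * (y ^ ((2 * q : ℕ) : ℝ) * Real.exp (-(1 / 2) * y ^ (2 : ℝ)))) |x| := by
    intro x
    simp only [gaussianPDFReal, smul_eq_mul, NNReal.coe_one, mul_one, sub_zero]
    rw [Real.rpow_natCast, Real.rpow_two, sq_abs, pow_mul, pow_mul, sq_abs]
    have : -x ^ 2 / 2 = -(1 / 2) * x ^ 2 := by ring
    rw [this]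
    ring
  rw [integral_congr_ae (Eventually.of_forall e1),
    integral_comp_abs (f := fun y : ℝ => (Real.sqrt (2 * Real.pi))⁻¹ *
      (y ^ ((2 * q : ℕ) : ℝ) * Real.exp (-(1 / 2) * y ^ (2 : ℝ)))), integral_const_mul,
    integral_rpow_mul_exp_neg_mul_rpow (by norm_num) (by
      have : (0 : ℝ) ≤ ((2 * q : ℕ) : ℝ) := Nat.cast_nonneg _
      linarith) (by norm_num)]
  have e2 : (((2 * q : ℕ) : ℝ) + 1) / 2 = (q : ℝ) + 1 / 2 := by push_cast; ring
  have e3 : -(((2 * q : ℕ) : ℝ) + 1) / 2 = -((q : ℝ) + 1 / 2) := by push_cast; ring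
  rw [e2, e3, Real.Gamma_nat_add_half]
  have e4 : ((1 : ℝ) / 2) ^ (-((q : ℝ) + 1 / 2)) = 2 ^ q * Real.sqrt 2 := by
    rw [one_div, Real.inv_rpow (by norm_num), Real.rpow_neg (by norm_num), inv_inv,
      Real.rpow_add (by norm_num), Real.rpow_natCast, Real.sqrt_eq_rpow]
    norm_num
  rw [e4]
  have e5 : Real.sqrt (2 * Real.pi) = Real.sqrt 2 * Real.sqrt Real.pi := Real.sqrt_mul (by norm_num) _
  rw [e5]
  have h2 : Real.sqrt 2 ≠ 0 := by positivity
  have h3 : Real.sqrt Real.pi ≠ 0 := by positivity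
  field_simp

lemma gm_odd (p : ℕ) (hp : Odd p) (v : ℝ≥0) : ∫ x, x ^ p ∂(gaussianReal 0 v) = 0 := by
  have h1 := gaussianReal_map_neg (μ := 0) (v := v)
  rw [neg_zero] at h1
  have h2 : ∫ x, x ^ p ∂(gaussianReal 0 v) = ∫ x, (-x) ^ p ∂(gaussianReal 0 v) := by
    conv_lhs => rw [← h1]
    rw [integral_map (by fun_prop) (by fun_prop)]
  have h3 : ∀ x : ℝ, (-x) ^ p = -(x ^ p) := fun x => hp.neg_pow x
  simp only [h3, integral_neg] at h2
  linarith

theorem gm (p : ℕ) (v : ℝ≥0) : ∫ x, x ^ p ∂(gaussianReal 0 v) = MM p v := by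
  unfold MM
  split_ifs with h
  · obtain ⟨q, hq⟩ := h
    have hq' : p = 2 * q := by omega
    rw [Pool.Agent.R320.JL.gau_scale v (fun x => x ^ p) (by fun_prop)]
    simp only [mul_pow]
    rw [integral_const_mul, hq', gm_even]
    have e : Real.sqrt v ^ (2 * q) = (v : ℝ) ^ q := by
      rw [pow_mul, Real.sq_sqrt (NNReal.coe_nonneg v)]
    rw [e, show 2 * q / 2 = q by omega]
    ring
  · exact gm_odd p (Nat.not_even_iff_odd.1 h) v

lemma MM_cont (p : ℕ) : Continuous (MM p) := by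
  unfold MM
  split_ifs
  · fun_prop
  · exact continuous_const

lemma MM_scale (p : ℕ) (V w : ℝ) (hw : 0 ≤ w) : MM p (w ^ 2 * V) = w ^ p * MM p V := by
  unfold MM
  split_ifs with h
  · obtain ⟨q, hq⟩ := h
    have hq' : p = 2 * q := by omega
    rw [hq', show 2 * q / 2 = q by omega, mul_pow, ← pow_mul]
    ring
  · ring

end

end Pool.Agent.R320.KL
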