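import Pool.Agent.R320.JL.Blk

/-! # Counts near a zero: joint law in one block -/

set_option autoImplicit false

namespace Pool.Agent.R320.KL

open Filter Topology MeasureTheory Set
open SG (ord NZ)
open Pool.Agent.Y743.NC (dev dev_nonneg dev_int)
open Pool.Agent.Y743.CL (lm log_nat bigT lm_nonneg exM)
open Pool.Agent.R320.JL

noncomputable section

/-- the centred count near the `n`-th zero -/
def XX (T u : ℝ) (n : ℕ) : ℝ := ((NZ (ord n + u * (2 * Real.pi / Real.log T)) : ℝ) - n) - u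

/-- the linear combination -/
def fc {k : ℕ} (c : Fin k → ℝ) (r : ℕ) (T : ℝ) (u : Fin k → ℝ) (n : ℕ) : ℝ :=
  (∑ i, c i * XX T (u i) n) / lm r

/-- the coefficients, with the base point first -/
def c1 {k : ℕ} (c : Fin k → ℝ) : Fin (k + 1) → ℝ := Fin.cons (-(∑ i, c i)) c

/-- the positions, with the base point first -/
def b1 {k : ℕ} (m : ℕ) (v : Fin k → ℤ) : Fin (k + 1) → ℕ := Fin.cons m (fun i => (v i + m).toNat)

/-- the centred count near `t` -/
def GG (T v t : ℝ) : ℝ := ((NZ (t + v * (2 * Real.pi / Real.log T)) : ℝ) - NZ t) - v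

lemma b1_rng {k : ℕ} {m : ℕ} (hm : 1 ≤ m) {v : Fin k → ℤ} (hv : ∀ i, -(m : ℤ) < v i ∧ v i ≤ m) :
    ∀ i, 1 ≤ b1 m v i ∧ b1 m v i ≤ 2 * m := by
  intro i
  refine Fin.cases ?_ (fun j => ?_) i
  · simp only [b1, Fin.cons_zero]
    omega
  · simp only [b1, Fin.cons_succ]
    have := hv j
    omega

lemma Zc1 {k : ℕ} (c : Fin k → ℝ) (r m : ℕ) {v : Fin k → ℤ} (hv : ∀ i, -(m : ℤ) < v i ∧ v i ≤ m)
    (T t : ℝ) : Zc (c1 c) r (b1 m v) T (t - m * (2 * Real.pi / Real.log T)) =
      (∑ i, c i * GG T (v i) t) / lm r := by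
  unfold Zc
  congr 1
  rw [Fin.sum_univ_succ]
  simp only [c1, b1, Fin.cons_zero, Fin.cons_succ]
  have h1 : ∀ i, YY T ((v i + m).toNat : ℕ) (t - m * (2 * Real.pi / Real.log T)) =
      GG T (v i) t + YY T m (t - m * (2 * Real.pi / Real.log T)) := by
    intro i
    have h2 : (((v i + m).toNat : ℕ) : ℝ) = (v i : ℝ) + m := by
      have h3 : (((v i + m).toNat : ℕ) : ℤ) = v i + m := Int.toNat_of_nonneg (by have := (hv i).1; omega)
      exact_mod_cast h3
    unfold YY GG
    rw [h2]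
    have e1 : t - m * (2 * Real.pi / Real.log T) + 2 * Real.pi * ((v i : ℝ) + m) / Real.log T =
        t + v i * (2 * Real.pi / Real.log T) := by ring
    have e2 : t - m * (2 * Real.pi / Real.log T) + 2 * Real.pi * (m : ℝ) / Real.log T = t := by ring
    rw [e1, e2]
    ring
  simp only [h1, mul_add, Finset.sum_add_distrib]
  rw [← Finset.sum_mul]
  ring

lemma YY_count {T b t : ℝ} : (NZ (t + b * (2 * Real.pi / Real.log T)) : ℝ) - NZ t = YY T b t + b := by
  unfold YY
  rw [show t + 2 * Real.pi * b / Real.log T = t + b * (2 * Real.pi / Real.log T) by ring]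
  ring

/-- comparison of the counts near a zero and near a point -/
lemma cmp {T M u v t : ℝ} {n : ℕ} (hT : 1 < T) (hM : 0 ≤ M) (hn : 1 ≤ n) (huv : |u - v| ≤ 2)
    (ht1 : ord n - M * (2 * Real.pi / Real.log T) ≤ t) (ht2 : t < ord n) :
    |XX T u n - GG T v t| ≤ |YY T (M + 4) (t + (v - 2) * (2 * Real.pi / Real.log T))| +
      |YY T M t| + (2 * M + 6) := by
  have hpi := Real.pi_pos
  have hL : 0 < Real.log T := Real.log_pos hT
  obtain ⟨h, hh⟩ : ∃ h : ℝ, h = 2 * Real.pi / Real.log T := ⟨_, rfl⟩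
  have hh0 : 0 < h := by rw [hh]; positivity
  have k1 := YY_count (T := T) (b := M + 4) (t := t + (v - 2) * h)
  have k2 := YY_count (T := T) (b := M) (t := t)
  unfold XX GG
  rw [← hh] at ht1 k1 k2 ⊢
  have huv' := abs_le.1 huv
  have e1 : t + (v - 2) * h + (M + 4) * h = t + (v + M + 2) * h := by ring
  rw [e1] at k1
  have p1 : (NZ (t + (v - 2) * h) : ℝ) ≤ NZ (ord n + u * h) := by
    exact_mod_cast SG.NZ_mono (by nlinarith)
  have p2 : (NZ (ord n + u * h) : ℝ) ≤ NZ (t + (v + M + 2) * h) := by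
    exact_mod_cast SG.NZ_mono (by nlinarith)
  have p3 : (NZ (t + (v - 2) * h) : ℝ) ≤ NZ (t + v * h) := by
    exact_mod_cast SG.NZ_mono (by nlinarith)
  have p4 : (NZ (t + v * h) : ℝ) ≤ NZ (t + (v + M + 2) * h) := by
    exact_mod_cast SG.NZ_mono (by nlinarith)
  have p5 : (NZ t : ℝ) ≤ n := by
    by_contra hcon
    push Not at hcon
    have h1 : n ≤ NZ t := by exact_mod_cast hcon.le
    have := (SG.ord_le_iff hn _).mpr h1
    linarith
  have p6 : (n : ℝ) ≤ NZ (t + M * h) := by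
    have h1 : n ≤ NZ (t + M * h) := (SG.ord_le_iff hn _).mp (by linarith)
    exact_mod_cast h1
  have q1 := le_abs_self (YY T (M + 4) (t + (v - 2) * h))
  have q2 := le_abs_self (YY T M t)
  rw [abs_le]
  constructor <;> linarith [huv'.1, huv'.2]

theorem blkC {k : ℕ} (c : Fin k → ℝ) (B : ℝ) (hB : 1 ≤ B) (ε : ℝ) (hε : 0 < ε) : ∀ᶠ m : ℕ in atTop,
    ∀ T : ℝ, 1 ≤ T → ((2 * m : ℕ) : ℝ) * Real.log (2 * m : ℕ) ≤ B * Real.log T →
    ∀ v : Fin k → ℤ, (∀ i, -(m : ℤ) < v i ∧ v i ≤ m) → ∀ u : Fin k → ℝ, (∀ i, |u i - v i| ≤ 2) →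
    ∀ A A' : ℝ, T + Real.log T + 20 ≤ A → A + 1 ≤ A' → A' ≤ 2 * T - Real.log T - 20 →
    ‖(∑ n ∈ Finset.Ioc (NZ A) (NZ A'), Complex.exp (Complex.I * (fc c (2 * m) T u n : ℂ))) -
      ((Real.log T / (2 * Real.pi) * ((A' - A) * Real.exp (-(QQ (c1 c) (2 * m) (b1 m v) / 2))) : ℝ) : ℂ)‖ ≤
      ε * (T * Real.log T) := by
  have hpi := Real.pi_pos
  have hpi3 := Real.pi_gt_three
  have hpi4 := Real.pi_lt_d2
  have htwo : Tendsto (fun m : ℕ => 2 * m) atTop atTop :=
    tendsto_atTop_mono (fun m => by show m ≤ 2 * m; omega) tendsto_id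
  obtain ⟨S, hS⟩ : ∃ S : ℝ, S = ∑ i, |c i| := ⟨_, rfl⟩
  have hS0 : 0 ≤ S := by rw [hS]; exact Finset.sum_nonneg fun _ _ => abs_nonneg _
  obtain ⟨η, hηd⟩ : ∃ η : ℝ, η = min 2 ε / (3 * (S + 1)) := ⟨_, rfl⟩
  have hη : 0 < η := by rw [hηd]; positivity
  have hδ2 : 3 * η * S ≤ 2 := by
    have h1 : 3 * η * (S + 1) = min 2 ε := by rw [hηd]; field_simp
    have h2 : 3 * η * S ≤ 3 * η * (S + 1) := by nlinarith
    exact h2.trans (h1.le.trans (min_le_left _ _))
  have hδε : 3 * η * S ≤ ε := by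
    have h1 : 3 * η * (S + 1) = min 2 ε := by rw [hηd]; field_simp
    have h2 : 3 * η * S ≤ 3 * η * (S + 1) := by nlinarith
    exact h2.trans (h1.le.trans (min_le_right _ _))
  obtain ⟨C, T0, hC, hT0, hv⟩ := varB B hB
  obtain ⟨M, hM1, hM⟩ := exM C (ε / 6) (by positivity)
  have hM0 : 0 < M := by linarith
  obtain ⟨s, hsd⟩ : ∃ s : ℝ, s = Real.sqrt (C + Real.log (1 + M)) := ⟨_, rfl⟩
  have hlM : 0 ≤ Real.log (1 + M) := Real.log_nonneg (by linarith)
  have hs : 0 < s := by rw [hsd]; exact Real.sqrt_pos.2 (by linarith)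
  have hs2 : s ^ 2 = C + Real.log (1 + M) := by rw [hsd, Real.sq_sqrt (by linarith)]
  obtain ⟨CM, hCM⟩ : ∃ CM : ℝ, CM = C + Real.log (1 + (M + 4)) := ⟨_, rfl⟩
  have hCMp : 0 < CM := by
    rw [hCM]
    have := Real.log_nonneg (show (1 : ℝ) ≤ 1 + (M + 4) by linarith)
    linarith
  obtain ⟨CM', hCM'⟩ : ∃ CM' : ℝ, CM' = 2 * (k + 1) * CM / ε := ⟨_, rfl⟩
  have hCM'p : 0 < CM' := by rw [hCM']; positivity
  have hlmt : Tendsto (fun m : ℕ => lm (2 * m)) atTop atTop := lm_top.comp htwo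
  have hlogt : Tendsto (fun m : ℕ => Real.log ((2 * m : ℕ) : ℝ)) atTop atTop := log_nat.comp htwo
  filter_upwards [htwo.eventually (leb (c1 c) B hB ε hε),
    hlmt.eventually_ge_atTop ((2 * M + 6) / η), hlmt.eventually_ge_atTop (CM' / η),
    hlmt.eventually_ge_atTop (1 / η), hlogt.eventually_ge_atTop (64 * B),
    htwo.eventually (bigT B hB (max (max T0 100) (24 * M / ε))),
    htwo.eventually (bigT B hB (Real.exp (max 1 (max (2 * Real.pi * M) (max (M * Real.log M)
      ((M + 4) * Real.log (M + 4))))))), eventually_ge_atTop 4] with m h1 h2 h3 h4 h5 h6 h7 hm4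
  intro T hT1 hrT v hvv u huv A A' hA hAA hA'
  have hTb := h6 T hT1 hrT
  have hTT0 : T0 ≤ T := ((le_max_left _ _).trans (le_max_left _ _)).trans hTb
  have hT100 : 100 ≤ T := ((le_max_right _ _).trans (le_max_left _ _)).trans hTb
  have hTM : 24 * M / ε ≤ T := (le_max_right _ _).trans hTb
  have hTe := h7 T hT1 hrT
  obtain ⟨L, hL⟩ : ∃ L : ℝ, L = Real.log T := ⟨_, rfl⟩
  have hLe : max 1 (max (2 * Real.pi * M) (max (M * Real.log M) ((M + 4) * Real.log (M + 4)))) ≤ L := by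
    rw [hL, Real.le_log_iff_exp_le (by linarith)]
    exact hTe
  have hL1 : 1 ≤ L := (le_max_left _ _).trans hLe
  have hLM : 2 * Real.pi * M ≤ L := ((le_max_left _ _).trans (le_max_right _ _)).trans hLe
  have hLM2 : M * Real.log M ≤ L :=
    ((le_max_left _ _).trans ((le_max_right _ _).trans (le_max_right _ _))).trans hLe
  have hLM3 : (M + 4) * Real.log (M + 4) ≤ L :=
    ((le_max_right _ _).trans ((le_max_right _ _).trans (le_max_right _ _))).trans hLe
  obtain ⟨q, hq⟩ : ∃ q : ℝ, q = lm (2 * m) := ⟨_, rfl⟩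
  have hq0 : 0 < lm (2 * m) := lt_of_lt_of_le (by positivity) h4
  have hη1 : 1 ≤ η * q := by
    rw [div_le_iff₀ hη] at h4
    rw [hq]
    linarith
  have hMq : 2 * M + 6 ≤ η * q := by
    rw [div_le_iff₀ hη] at h2
    rw [hq]
    linarith
  have hCMq : CM' ≤ (η * q) ^ 2 := by
    rw [div_le_iff₀ hη] at h3
    have h9 : CM' ≤ η * q := by rw [hq]; linarith
    calc CM' ≤ η * q * 1 := by rw [mul_one]; exact h9
      _ ≤ η * q * (η * q) := mul_le_mul_of_nonneg_left hη1 (by linarith)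
      _ = (η * q) ^ 2 := (sq _).symm
  rw [← hq] at hq0
  have hmr : (4 : ℝ) ≤ m := by exact_mod_cast hm4
  have hmL : (m : ℝ) ≤ L / 64 / 2 := by
    have h9 : ((2 * m : ℕ) : ℝ) * (64 * B) ≤ B * L := by
      rw [hL]
      exact (mul_le_mul_of_nonneg_left h5 (Nat.cast_nonneg _)).trans hrT
    push_cast at h9
    have h10 : (2 * (m : ℝ) * 64 - L) * B ≤ 0 := by linarith
    have h11 : 2 * (m : ℝ) * 64 - L ≤ 0 := by
      by_contra hcon
      push Not at hcon
      have : 0 < (2 * (m : ℝ) * 64 - L) * B := by positivity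
      linarith
    linarith
  obtain ⟨h, hh⟩ : ∃ h : ℝ, h = 2 * Real.pi / Real.log T := ⟨_, rfl⟩
  have hh0 : 0 < h := by rw [hh, ← hL]; positivity
  have hmh : (m + 2) * h ≤ 1 := by
    rw [hh, ← hL, mul_div_assoc', div_le_one (by linarith)]
    have h9 : ((m : ℝ) + 2) * (2 * Real.pi) ≤ (m + 2) * 7 :=
      mul_le_mul_of_nonneg_left (by linarith) (by linarith)
    linarith
  obtain ⟨ℓ, hℓ⟩ : ∃ ℓ : ℝ, ℓ = M * (2 * Real.pi / Real.log T) := ⟨_, rfl⟩
  have hℓ0 : 0 < ℓ := by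
    rw [hℓ, ← hL]; positivity
  have hℓ1 : ℓ ≤ 1 := by
    have : ℓ = 2 * Real.pi * M / L := by rw [hℓ, hL]; ring
    rw [this, div_le_one (by linarith)]
    exact hLM
  have hT' : 0 < T := by linarith
  have hvb : ∀ i, |(v i : ℝ)| ≤ m := by
    intro i
    have := hvv i
    rw [abs_le]
    constructor
    · have h9 : -(m : ℤ) ≤ v i := this.1.le
      exact_mod_cast h9
    · exact_mod_cast this.2
  rw [← hL] at hA hA' ⊢
  obtain ⟨W, hWd⟩ : ∃ W : Set ℝ, W = ({t | η * q ≤ |YY T M (t + 0)|} ∩ Icc (T + 14) (2 * T - 14)) ∪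
    ⋃ i ∈ (Finset.univ : Finset (Fin k)),
    ({t | η * q ≤ |YY T (M + 4) (t + (v i - 2) * h)|} ∩ Icc (T + 14) (2 * T - 14)) := ⟨_, rfl⟩
  have hYm : ∀ a s p : ℝ, MeasurableSet {t | p ≤ |YY T a (t + s)|} := fun a s p =>
    measurableSet_le measurable_const ((YY_meas T a).comp (measurable_id.add_const _)).abs
  have hWm : MeasurableSet W := by
    rw [hWd]
    exact ((hYm _ _ _).inter measurableSet_Icc).union
      (Finset.measurableSet_biUnion _ fun i _ => (hYm _ _ _).inter measurableSet_Icc)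
  have hch : ∀ a s : ℝ, 0 < a → a ≤ M + 4 → a * Real.log a ≤ L → |s| ≤ 14 →
      volume.real ({t | η * q ≤ |YY T a (t + s)|} ∩ Icc (T + 14) (2 * T - 14)) ≤
        ε / (2 * (k + 1)) * T := by
    intro a s ha haM haL hs14
    have c1 := cheb (T := T) (x := a) (s := s) (q := η * q) (by linarith) (by positivity) hs14
    have c2 := hv T hTT0 a ha (by rw [← hL]; exact haL.trans (le_mul_of_one_le_left (by linarith) hB))
    refine c1.trans ?_
    have c3 : Real.log (1 + a) ≤ Real.log (1 + (M + 4)) := Real.log_le_log (by linarith) (by linarith)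
    rw [div_le_iff₀ (by positivity)]
    calc ∫ t in Icc T (2 * T), dev T a t ≤ T * (C + Real.log (1 + a)) := c2
      _ ≤ T * CM := by rw [hCM]; gcongr
      _ = ε / (2 * (k + 1)) * T * CM' := by rw [hCM']; field_simp
      _ ≤ ε / (2 * (k + 1)) * T * (η * q) ^ 2 := by gcongr
  have hWvol : volume.real (W ∩ Icc T (2 * T)) ≤ ε / 2 * T := by
    have hfin : volume W ≠ ⊤ := by
      have h9 : W ⊆ Icc (T + 14) (2 * T - 14) := by
        rw [hWd]
        apply union_subset inter_subset_right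
        exact iUnion₂_subset fun i _ => inter_subset_right
      exact ((measure_mono h9).trans_lt (by rw [Real.volume_Icc]; exact ENNReal.ofReal_lt_top)).ne
    have a1 : volume.real (W ∩ Icc T (2 * T)) ≤ volume.real W := measureReal_mono inter_subset_left hfin
    refine a1.trans ?_
    rw [hWd]
    refine (measureReal_union_le _ _).trans ?_
    have a2 := hch M 0 hM0 (by linarith) hLM2 (by norm_num)
    have a3 : volume.real (⋃ i ∈ (Finset.univ : Finset (Fin k)),
        ({t | η * q ≤ |YY T (M + 4) (t + (v i - 2) * h)|} ∩ Icc (T + 14) (2 * T - 14))) ≤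
        k * (ε / (2 * (k + 1)) * T) := by
      refine (measureReal_biUnion_finset_le _ _).trans ?_
      refine (Finset.sum_le_sum fun i _ => hch (M + 4) ((v i - 2) * h) (by linarith) le_rfl hLM3 ?_).trans ?_
      · rw [abs_mul, abs_of_pos hh0]
        have b1 : |(v i : ℝ) - 2| ≤ m + 2 := by
          refine (abs_sub _ _).trans ?_
          rw [abs_of_pos (show (0 : ℝ) < 2 by norm_num)]
          linarith [hvb i]
        calc |(v i : ℝ) - 2| * h ≤ (m + 2) * h := mul_le_mul_of_nonneg_right b1 hh0.le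
          _ ≤ 14 := by linarith
      · rw [Finset.sum_const, Finset.card_univ, Fintype.card_fin, nsmul_eq_mul]
    have a4 : ε / (2 * (k + 1)) * T + k * (ε / (2 * (k + 1)) * T) = ε / 2 * T := by
      field_simp
      ring
    linarith
  -- the comparison at one zero
  have hone : ∀ n, 1 ≤ n → A < ord n → ord n ≤ A' → ∀ t, ord n - M * (2 * Real.pi / Real.log T) ≤ t →
      t < ord n → t ∉ W → ‖Complex.exp (Complex.I * (fc c (2 * m) T u n : ℂ)) -
        Complex.exp (Complex.I * (Zc (c1 c) (2 * m) (b1 m v) T (t - m * h) : ℂ))‖ ≤ 3 * η * S := by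
    intro n hn1 hn2 hn3 t ht1 ht2 htW
    have htJ : t ∈ Icc (T + 14) (2 * T - 14) := by
      rw [← hℓ] at ht1
      exact ⟨by linarith, by linarith⟩
    refine (exp_lip _ _).trans ?_
    rw [hh, Zc1 c (2 * m) m hvv T t]
    have e : fc c (2 * m) T u n - (∑ i, c i * GG T (v i) t) / lm (2 * m) =
        (∑ i, c i * (XX T (u i) n - GG T (v i) t)) / lm (2 * m) := by
      unfold fc
      rw [← sub_div, ← Finset.sum_sub_distrib]
      congr 1
      refine Finset.sum_congr rfl fun i _ => ?_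
      ring
    rw [e, ← hq, abs_div, abs_of_pos hq0, div_le_iff₀ hq0]
    have hterm : ∀ i, |XX T (u i) n - GG T (v i) t| ≤ 3 * η * q := by
      intro i
      have k1 := cmp (T := T) (M := M) (u := u i) (v := v i) (t := t) (by linarith) hM0.le hn1 (huv i) ht1 ht2
      rw [← hh] at k1
      have k2 : |YY T M t| < η * q := by
        by_contra hcon
        push Not at hcon
        apply htW
        rw [hWd]
        left
        refine ⟨?_, htJ⟩
        show η * q ≤ |YY T M (t + 0)|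
        rw [add_zero]
        exact hcon
      have k3 : |YY T (M + 4) (t + (v i - 2) * h)| < η * q := by
        by_contra hcon
        push Not at hcon
        apply htW
        rw [hWd]
        right
        simp only [Finset.mem_univ, iUnion_true, mem_iUnion]
        exact ⟨i, hcon, htJ⟩
      linarith
    refine (Finset.abs_sum_le_sum_abs _ _).trans ?_
    calc ∑ i, |c i * (XX T (u i) n - GG T (v i) t)| ≤ ∑ i, |c i| * (3 * η * q) := by
          refine Finset.sum_le_sum fun i _ => ?_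
          rw [abs_mul]
          exact mul_le_mul_of_nonneg_left (hterm i) (abs_nonneg _)
      _ = 3 * η * S * q := by rw [← Finset.sum_mul, hS]; ring
  have hFm : Measurable fun t : ℝ =>
      Complex.exp (Complex.I * (Zc (c1 c) (2 * m) (b1 m v) T (t - m * h) : ℂ)) :=
    Complex.measurable_exp.comp ((Complex.measurable_ofReal.comp
        ((Zc_meas _ (2 * m) _ T).comp (measurable_id.sub_const _))).const_mul Complex.I)
  have hpalm := palmF (T := T) (M := M) (s := s) (δ := 3 * η * S) (A := A) (B' := A') (by linarith) hM0 hs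
    (by positivity) hδ2 (by rw [← hℓ]; linarith) (by rw [← hℓ]; linarith) (by linarith)
    (fun n => Complex.exp (Complex.I * (fc c (2 * m) T u n : ℂ)))
    (fun n => by rw [Complex.norm_exp_I_mul_ofReal])
    (fun t => Complex.exp (Complex.I * (Zc (c1 c) (2 * m) (b1 m v) T (t - m * h) : ℂ)))
    hFm (fun t => by rw [Complex.norm_exp_I_mul_ofReal]) W hWm hone
  have hsub : ∫ t in A..A', Complex.exp (Complex.I * (Zc (c1 c) (2 * m) (b1 m v) T (t - m * h) : ℂ)) =
      ∫ t in (A - m * h)..(A' - m * h), Complex.exp (Complex.I * (Zc (c1 c) (2 * m) (b1 m v) T t : ℂ)) :=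
    intervalIntegral.integral_comp_sub_right
      (fun t => Complex.exp (Complex.I * (Zc (c1 c) (2 * m) (b1 m v) T t : ℂ))) (m * h)
  have hmh1 : m * h ≤ 1 := by
    refine le_trans ?_ hmh
    exact mul_le_mul_of_nonneg_right (by linarith) hh0.le
  have hmh0 : 0 ≤ m * h := by positivity
  have hleb := h1 T hT1 hrT (b1 m v) (b1_rng (by omega) hvv) (A - m * h) (A' - m * h)
    (by rw [← hL]; linarith) (by linarith) (by rw [← hL]; linarith)
  rw [← hsub, sub_sub_sub_cancel_right] at hleb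
  have hdev := hv T hTT0 M hM0 (by rw [← hL]; exact hLM2.trans (le_mul_of_one_le_left (by linarith) hB))
  rw [← hℓ] at hpalm
  rw [← hsd] at hM
  obtain ⟨S1, hs1⟩ : ∃ S1 : ℂ, S1 = ∑ n ∈ Finset.Ioc (NZ A) (NZ A'),
    Complex.exp (Complex.I * (fc c (2 * m) T u n : ℂ)) := ⟨_, rfl⟩
  obtain ⟨I1, hI1⟩ : ∃ I1 : ℂ, I1 = ∫ t in A..A',
    Complex.exp (Complex.I * (Zc (c1 c) (2 * m) (b1 m v) T (t - m * h) : ℂ)) := ⟨_, rfl⟩
  rw [← hs1, ← hI1] at hpalm
  rw [← hI1] at hleb
  rw [← hs1]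
  obtain ⟨m1, hm1⟩ : ∃ m1 : ℝ, m1 = (A' - A) * Real.exp (-(QQ (c1 c) (2 * m) (b1 m v) / 2)) := ⟨_, rfl⟩
  rw [← hm1] at hleb ⊢
  have hdevs : (s * T + (1 / s) * ∫ t in Icc T (2 * T), dev T M t) / 2 ≤ s * T := by
    have a1 : (1 / s) * ∫ t in Icc T (2 * T), dev T M t ≤ (1 / s) * (T * s ^ 2) := by
      rw [hs2]; gcongr
    have a2 : (1 / s) * (T * s ^ 2) = s * T := by field_simp
    linarith
  -- the error in `hpalm`
  have hE : M * (3 * η * S * T + 2 * volume.real (W ∩ Icc T (2 * T)) + 4 * ℓ) +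
      (3 + 3 * η * S) * ((s * T + (1 / s) * ∫ t in Icc T (2 * T), dev T M t) / 2) ≤
      M * (3 * ε * T) := by
    have a1 : (3 + 3 * η * S) * ((s * T + (1 / s) * ∫ t in Icc T (2 * T), dev T M t) / 2) ≤
        5 * (s * T) := by
      have b1 : 0 ≤ s * T := by positivity
      have b2 : 0 ≤ 3 + 3 * η * S := by positivity
      calc _ ≤ (3 + 3 * η * S) * (s * T) := mul_le_mul_of_nonneg_left hdevs b2
        _ ≤ 5 * (s * T) := mul_le_mul_of_nonneg_right (by linarith) b1
    have a2 : 5 * (s * T) ≤ M * (5 / 6 * ε * T) := by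
      have : s * T ≤ (ε / 6 * M) * T := mul_le_mul_of_nonneg_right hM hT'.le
      linarith
    have a3 : 4 * ℓ ≤ ε / 6 * T := by
      rw [div_le_iff₀ hε] at hTM
      have : 4 ≤ 4 * M := by linarith
      linarith
    have a4 : 3 * η * S * T ≤ ε * T := mul_le_mul_of_nonneg_right hδε hT'.le
    have a5 : M * (3 * η * S * T + 2 * volume.real (W ∩ Icc T (2 * T)) + 4 * ℓ) ≤
        M * (ε * T + 2 * (ε / 2 * T) + ε / 6 * T) := by
      apply mul_le_mul_of_nonneg_left _ hM0.le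
      linarith
    linarith
  have hp2 := hpalm.trans hE
  -- divide
  have e1 : S1 - ((L / (2 * Real.pi) * m1 : ℝ) : ℂ) =
      ((1 / ℓ : ℝ) : ℂ) * ((ℓ : ℂ) * S1 - (M : ℂ) * I1) +
      ((L / (2 * Real.pi) : ℝ) : ℂ) * (I1 - (m1 : ℂ)) := by
    have e2 : ((L / (2 * Real.pi) : ℝ) : ℂ) = ((1 / ℓ : ℝ) : ℂ) * (M : ℂ) := by
      rw [← Complex.ofReal_mul]
      congr 1
      rw [hℓ, ← hL]
      field_simp
    have e3 : ((1 / ℓ : ℝ) : ℂ) * (ℓ : ℂ) = 1 := by
      rw [← Complex.ofReal_mul, one_div, inv_mul_cancel₀ hℓ0.ne', Complex.ofReal_one]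
    rw [Complex.ofReal_mul, e2]
    linear_combination (-S1) * e3
  rw [e1]
  refine (norm_add_le _ _).trans ?_
  rw [norm_mul, norm_mul, Complex.norm_real, Complex.norm_real, Real.norm_eq_abs, Real.norm_eq_abs,
    abs_of_pos (by positivity : 0 < 1 / ℓ), abs_of_pos (by positivity : 0 < L / (2 * Real.pi))]
  have f1 : 1 / ℓ * ‖(ℓ : ℂ) * S1 - (M : ℂ) * I1‖ ≤ L / (2 * Real.pi) * (3 * ε * T) := by
    have g1 : 1 / ℓ * (M * (3 * ε * T)) = L / (2 * Real.pi) * (3 * ε * T) := by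
      rw [hℓ, ← hL]; field_simp
    rw [← g1]
    gcongr
  have f2 : L / (2 * Real.pi) * ‖I1 - (m1 : ℂ)‖ ≤ L / (2 * Real.pi) * (ε * T) := by gcongr
  have f3 : L / (2 * Real.pi) * (3 * ε * T) + L / (2 * Real.pi) * (ε * T) ≤ ε * (T * L) := by
    have : L / (2 * Real.pi) * (3 * ε * T) + L / (2 * Real.pi) * (ε * T) =
      (4 / (2 * Real.pi)) * (ε * (T * L)) := by ring
    rw [this]
    have g2 : 4 / (2 * Real.pi) ≤ 1 := by
      rw [div_le_one (by positivity)]
      linarith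
    have g3 : 0 ≤ ε * (T * L) := by positivity
    calc 4 / (2 * Real.pi) * (ε * (T * L)) ≤ 1 * (ε * (T * L)) := mul_le_mul_of_nonneg_right g2 g3
      _ = _ := one_mul _
  linarith

end

end Pool.Agent.R320.KL
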