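import Pool.Agent.R320.KL.Cnv

/-! # Limits of the moments of linear combinations of counts near zeros, on RH -/

set_option autoImplicit false

namespace Pool.Agent.R320.KL

open Filter Topology MeasureTheory Set ProbabilityTheory
open SG (ord NZ)
open SP (RHs)
open Pool.Agent.Y743.CL (lm log_nat bigT)
open Pool.Agent.R320.JL
open scoped NNReal

noncomputable section

/-- lower bound for the number of zeros -/
lemma NZ_ge : ∃ c T0 : ℝ, 0 < c ∧ 10 ≤ T0 ∧ ∀ T : ℝ, T0 ≤ T → c * (T * Real.log T) ≤ NZ T := by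
  obtain ⟨T0, h⟩ := W200.HW.NZ_lower (1 / 2) (by norm_num)
  have hpi := Real.pi_pos
  refine ⟨1 / (4 * Real.pi), max T0 10, by positivity, le_max_right _ _, fun T hT => ?_⟩
  refine le_trans (le_of_eq ?_) (h T ((le_max_left _ _).trans hT))
  field_simp
  ring

/-- bounded moments of the linear combinations -/
lemma mom2C (hRH : RHs) {k : ℕ} (c : Fin k → ℝ) (p : ℕ) (B : ℝ) (hB : 1 ≤ B) :
    ∃ C : ℝ, 0 < C ∧ ∀ᶠ M : ℕ in atTop, ∀ T : ℝ, 1 ≤ T →
    ((2 * M : ℕ) : ℝ) * Real.log (2 * M : ℕ) ≤ B * Real.log T → ∀ u : Fin k → ℝ, (∀ i, |u i| ≤ M) →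
    ∑ n ∈ Finset.Icc 1 (NZ T), (1 + |fc c (2 * M) T u n|) ^ p ≤ C * NZ T := by
  obtain ⟨c0, T0, hc0, hT0, hlow⟩ := NZ_ge
  -- a power of two
  obtain ⟨j, hj⟩ : ∃ j : ℕ, p ≤ 2 * 2 ^ j := ⟨p, by have := Nat.lt_two_pow_self (n := p); omega⟩
  obtain ⟨C, hC, hev⟩ := momX hRH j B hB
  obtain ⟨m, hm⟩ : ∃ m : ℕ, m = 2 ^ j := ⟨_, rfl⟩
  have hm1 : 1 ≤ m := by rw [hm]; exact Nat.one_le_two_pow
  rw [← hm] at hj hev
  obtain ⟨q, hq⟩ : ∃ q : ℕ, 2 * m = q + 1 := ⟨2 * m - 1, by omega⟩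
  obtain ⟨D, hD⟩ : ∃ D : ℝ, D = ∑ i, |c i| ^ (2 * m) := ⟨_, rfl⟩
  have hD0 : 0 ≤ D := by rw [hD]; exact Finset.sum_nonneg fun _ _ => by positivity
  have hlmt : Tendsto (fun m : ℕ => lm (2 * m)) atTop atTop := lm_top.comp two_top
  refine ⟨2 ^ (2 * m) * (1 + (k : ℝ) ^ q * D * C / c0), by positivity, ?_⟩
  filter_upwards [hev, two_top.eventually (bigT B hB T0), hlmt.eventually_ge_atTop 1] with M h1 h2 h3
  intro T hT1 hrT u hu
  have hTT0 := h2 T hT1 hrT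
  have hNlow := hlow T hTT0
  have hlm0 : 0 < lm (2 * M) := by linarith
  have hpt : ∀ n, (1 + |fc c (2 * M) T u n|) ^ p ≤ 2 ^ (2 * m) * (1 + (k : ℝ) ^ q *
      ∑ i, |c i| ^ (2 * m) * (XX T (u i) n ^ (2 * m) / lm (2 * M) ^ (2 * m))) := by
    intro n
    have h0 : (1 + |fc c (2 * M) T u n|) ^ p ≤ (1 + |fc c (2 * M) T u n|) ^ (2 * m) :=
      pow_le_pow_right₀ (by have := abs_nonneg (fc c (2 * M) T u n); linarith) hj
    have h4 := add_pow_le2 (x := 1) (y := |fc c (2 * M) T u n|) zero_le_one (abs_nonneg _) (2 * m)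
    rw [one_pow] at h4
    refine h0.trans (h4.trans ?_)
    apply mul_le_mul_of_nonneg_left _ (by positivity)
    apply add_le_add le_rfl
    have h5 : |fc c (2 * M) T u n| ≤ ∑ i, |c i| * |XX T (u i) n / lm (2 * M)| := by
      unfold fc
      rw [Finset.sum_div]
      refine (Finset.abs_sum_le_sum_abs _ _).trans (le_of_eq ?_)
      refine Finset.sum_congr rfl fun i _ => ?_
      rw [mul_div_assoc, abs_mul]
    refine (pow_le_pow_left₀ (abs_nonneg _) h5 _).trans ?_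
    have h6 := pow_sum_le_card_mul_sum_pow (s := (Finset.univ : Finset (Fin k)))
      (f := fun i => |c i| * |XX T (u i) n / lm (2 * M)|) (fun i _ => by positivity) q
    rw [Finset.card_univ, Fintype.card_fin, ← hq] at h6
    refine h6.trans (le_of_eq ?_)
    congr 1
    refine Finset.sum_congr rfl fun i _ => ?_
    rw [mul_pow, (even_two_mul m).pow_abs (XX T (u i) n / lm (2 * M)), div_pow]
  calc ∑ n ∈ Finset.Icc 1 (NZ T), (1 + |fc c (2 * M) T u n|) ^ p ≤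
      ∑ n ∈ Finset.Icc 1 (NZ T), 2 ^ (2 * m) * (1 + (k : ℝ) ^ q *
      ∑ i, |c i| ^ (2 * m) * (XX T (u i) n ^ (2 * m) / lm (2 * M) ^ (2 * m))) :=
        Finset.sum_le_sum fun n _ => hpt n
    _ = 2 ^ (2 * m) * (NZ T + (k : ℝ) ^ q * ∑ i, |c i| ^ (2 * m) *
        ((∑ n ∈ Finset.Icc 1 (NZ T), XX T (u i) n ^ (2 * m)) / lm (2 * M) ^ (2 * m))) := by
        rw [← Finset.mul_sum, Finset.sum_add_distrib, ← Finset.mul_sum, Finset.sum_comm]
        congr 2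
        · simp
        · congr 1
          refine Finset.sum_congr rfl fun i _ => ?_
          rw [← Finset.mul_sum, Finset.sum_div]
    _ ≤ 2 ^ (2 * m) * (NZ T + (k : ℝ) ^ q * ∑ i, |c i| ^ (2 * m) * (C * (NZ T / c0))) := by
        apply mul_le_mul_of_nonneg_left _ (by positivity)
        apply add_le_add le_rfl
        apply mul_le_mul_of_nonneg_left _ (by positivity)
        refine Finset.sum_le_sum fun i _ => ?_
        apply mul_le_mul_of_nonneg_left _ (by positivity)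
        rw [div_le_iff₀ (by positivity)]
        refine (h1 T hT1 hrT (u i) (hu i)).trans ?_
        have h7 : T * Real.log T ≤ NZ T / c0 := by
          rw [le_div_iff₀ hc0]
          linarith
        calc C * lm (2 * M) ^ (2 * m) * (T * Real.log T) ≤ C * lm (2 * M) ^ (2 * m) * (NZ T / c0) := by
              gcongr
          _ = _ := by ring
    _ = _ := by
        rw [← Finset.sum_mul, ← hD]
        ring

/-- **the moments of linear combinations of counts near the zeros** -/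
theorem momlim (hRH : RHs) {k : ℕ} (c : Fin k → ℝ) (p : ℕ) (B : ℝ) (hB : 1 ≤ B) (ε : ℝ) (hε : 0 < ε) :
    ∀ᶠ M : ℕ in atTop, ∀ T : ℝ, 1 ≤ T → ((2 * M : ℕ) : ℝ) * Real.log (2 * M : ℕ) ≤ B * Real.log T →
    ∀ u : Fin k → ℝ, (∀ i, |u i| ≤ M - 1) →
    |((NZ T : ℝ)⁻¹) * ∑ n ∈ Finset.Icc 1 (NZ T), fc c (2 * M) T u n ^ p -
      MM p (QR c u / Real.log ((2 * M : ℕ) : ℝ))| ≤ ε := by
  obtain ⟨c0, T0, hc0, hT0, hlow⟩ := NZ_ge
  have hlogt : Tendsto (fun m : ℕ => Real.log ((2 * m : ℕ) : ℝ)) atTop atTop := log_nat.comp two_top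
  by_contra hcon
  rw [not_eventually] at hcon
  have hcon2 := hcon.and_eventually ((hlogt.eventually_ge_atTop 1).and
    ((two_top.eventually (bigT B hB T0)).and (eventually_ge_atTop 2)))
  obtain ⟨φ, hφ, hall⟩ := extraction_of_frequently_atTop hcon2
  have hall' : ∀ m, ∃ T : ℝ, 1 ≤ T ∧ ((2 * φ m : ℕ) : ℝ) * Real.log (2 * φ m : ℕ) ≤ B * Real.log T ∧
      ∃ u : Fin k → ℝ, (∀ i, |u i| ≤ φ m - 1) ∧
      ε < |((NZ T : ℝ)⁻¹) * ∑ n ∈ Finset.Icc 1 (NZ T), fc c (2 * φ m) T u n ^ p -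
      MM p (QR c u / Real.log ((2 * φ m : ℕ) : ℝ))| := by
    intro m
    have h1 := (hall m).1
    push Not at h1
    exact h1
  choose T hT1 hrT u hu hlt using hall'
  have hlog : ∀ m, 1 ≤ Real.log ((2 * φ m : ℕ) : ℝ) := fun m => (hall m).2.1
  have hTT0 : ∀ m, T0 ≤ T m := fun m => (hall m).2.2.1 (T m) (hT1 m) (hrT m)
  have hφ2 : ∀ m, 2 ≤ φ m := fun m => (hall m).2.2.2
  have hNpos : ∀ m, 1 ≤ NZ (T m) := by
    intro m
    have h1 := hlow (T m) (hTT0 m)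
    have h2 : 0 < Real.log (T m) := Real.log_pos (by linarith [hTT0 m])
    have h3 : 0 < T m := by linarith [hTT0 m]
    have h4 : (0 : ℝ) < NZ (T m) := lt_of_lt_of_le (by positivity) h1
    exact_mod_cast h4
  obtain ⟨v, hv⟩ : ∃ v : ℕ → Fin k → ℤ, v = fun m i => ⌊u m i⌋ := ⟨_, rfl⟩
  have hvr : ∀ m i, -(φ m : ℤ) < v m i ∧ v m i ≤ φ m := by
    intro m i
    rw [hv]
    show -(φ m : ℤ) < ⌊u m i⌋ ∧ ⌊u m i⌋ ≤ φ m
    obtain ⟨a1, a2⟩ := abs_le.1 (hu m i)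
    constructor
    · have : (-(φ m : ℤ) + 1 : ℤ) ≤ ⌊u m i⌋ := by
        rw [Int.le_floor]
        push_cast
        linarith
      omega
    · have : (⌊u m i⌋ : ℝ) ≤ φ m := (Int.floor_le _).trans (by linarith)
      exact_mod_cast this
  obtain ⟨Bd, hBd⟩ : ∃ Bd : ℝ, Bd = (∑ i, |c1 c i|) ^ 2 * (3 / 2) := ⟨_, rfl⟩
  have hQB : ∀ m, QQ (c1 c) (2 * φ m) (b1 (φ m) (v m)) ∈ Icc (-Bd) Bd := by
    intro m
    have := abs_le.1 (QQ_bd (c1 c) (hlog m) (b1 (φ m) (v m)) (b1_rng (by have := hφ2 m; omega) (hvr m)))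
    rw [← hBd] at this
    exact ⟨this.1, this.2⟩
  obtain ⟨V, -, ψ, hψ, hlim⟩ := isCompact_Icc.tendsto_subseq hQB
  have hφψ : Tendsto (fun m => φ (ψ m)) atTop atTop := hφ.tendsto_atTop.comp hψ.tendsto_atTop
  have hlim' : Tendsto (fun m => QQ (c1 c) (2 * φ (ψ m)) (b1 (φ (ψ m)) (v (ψ m)))) atTop (𝓝 V) := hlim
  have hlogψ : Tendsto (fun m => Real.log ((2 * φ (ψ m) : ℕ) : ℝ)) atTop atTop := hlogt.comp hφψ
  -- the real version has the same limit
  have hlimR : Tendsto (fun m => QR c (u (ψ m)) / Real.log ((2 * φ (ψ m) : ℕ) : ℝ)) atTop (𝓝 V) := by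
    have h1 : Tendsto (fun m => QR c (u (ψ m)) / Real.log ((2 * φ (ψ m) : ℕ) : ℝ) -
        QQ (c1 c) (2 * φ (ψ m)) (b1 (φ (ψ m)) (v (ψ m)))) atTop (𝓝 0) := by
      have h2 : Tendsto (fun m => (∑ i, |c i|) ^ 2 * (3 / 2) / Real.log ((2 * φ (ψ m) : ℕ) : ℝ)) atTop (𝓝 0) :=
        tendsto_const_nhds.div_atTop hlogψ
      refine squeeze_zero_norm (fun m => ?_) h2
      rw [Real.norm_eq_abs, abs_sub_comm, hv]
      exact QQ_QR c (by linarith [hlog (ψ m)]) (hu (ψ m))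
    have h3 := h1.add hlim'
    rw [zero_add] at h3
    refine h3.congr fun m => ?_
    ring
  -- the characteristic functions
  have hc1 : ∀ ξ : ℝ, c1 (fun i => ξ * c i) = fun i => ξ * c1 c i := by
    intro ξ
    funext i
    refine Fin.cases ?_ (fun j => ?_) i
    · simp only [c1, Fin.cons_zero]
      rw [← Finset.mul_sum]
      ring
    · simp only [c1, Fin.cons_succ]
  have hcf0 : ∀ ξ : ℝ, Tendsto (fun m => ((NZ (T (ψ m)) : ℝ)⁻¹) • ∑ n ∈ Finset.Icc 1 (NZ (T (ψ m))),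
      Complex.exp (Complex.I * ((ξ * fc c (2 * φ (ψ m)) (T (ψ m)) (u (ψ m)) n : ℝ) : ℂ)) -
      (Real.exp (-(ξ ^ 2 * QQ (c1 c) (2 * φ (ψ m)) (b1 (φ (ψ m)) (v (ψ m))) / 2)) : ℂ)) atTop (𝓝 0) := by
    intro ξ
    rw [Metric.tendsto_atTop]
    intro η hη
    have hj := jointC (fun i => ξ * c i) B hB (η / 2 * c0) (by positivity)
    obtain ⟨m0, hm0⟩ := eventually_atTop.1 (hφψ.eventually hj)
    refine ⟨m0, fun m hm => ?_⟩
    have h1 := hm0 m hm (T (ψ m)) (hT1 _) (hrT _) (u (ψ m)) (hu _)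
    have hNp : (0 : ℝ) < NZ (T (ψ m)) := by exact_mod_cast hNpos (ψ m)
    rw [dist_zero_right]
    have e : ((NZ (T (ψ m)) : ℝ)⁻¹) • ∑ n ∈ Finset.Icc 1 (NZ (T (ψ m))),
        Complex.exp (Complex.I * ((ξ * fc c (2 * φ (ψ m)) (T (ψ m)) (u (ψ m)) n : ℝ) : ℂ)) -
        (Real.exp (-(ξ ^ 2 * QQ (c1 c) (2 * φ (ψ m)) (b1 (φ (ψ m)) (v (ψ m))) / 2)) : ℂ) =
        ((NZ (T (ψ m)) : ℝ)⁻¹) • ∑ n ∈ Finset.Icc 1 (NZ (T (ψ m))),
          (Complex.exp (Complex.I * (fc (fun i => ξ * c i) (2 * φ (ψ m)) (T (ψ m)) (u (ψ m)) n : ℂ)) -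
          (Real.exp (-(QQ (c1 (fun i => ξ * c i)) (2 * φ (ψ m)) (b1 (φ (ψ m)) (fun i => ⌊u (ψ m) i⌋)) / 2)) : ℂ)) := by
      rw [Finset.sum_sub_distrib, smul_sub, Finset.sum_const, Nat.card_Icc, Nat.add_sub_cancel]
      congr 1
      · congr 1
        refine Finset.sum_congr rfl fun n _ => ?_
        have : fc (fun i => ξ * c i) (2 * φ (ψ m)) (T (ψ m)) (u (ψ m)) n =
            ξ * fc c (2 * φ (ψ m)) (T (ψ m)) (u (ψ m)) n := by
          unfold fc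
          rw [mul_div_assoc', Finset.mul_sum]
          congr 1
          refine Finset.sum_congr rfl fun i _ => ?_
          ring
        rw [this]
      · have hQ : QQ (c1 (fun i => ξ * c i)) (2 * φ (ψ m)) (b1 (φ (ψ m)) (fun i => ⌊u (ψ m) i⌋)) =
            ξ ^ 2 * QQ (c1 c) (2 * φ (ψ m)) (b1 (φ (ψ m)) (v (ψ m))) := by
          rw [hc1, hv]
          unfold QQ
          rw [Finset.mul_sum]
          refine Finset.sum_congr rfl fun i _ => ?_
          rw [Finset.mul_sum]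
          refine Finset.sum_congr rfl fun j _ => ?_
          ring
        rw [hQ, Complex.real_smul, nsmul_eq_mul, Complex.ofReal_inv, Complex.ofReal_natCast,
          inv_mul_cancel_left₀]
        exact_mod_cast hNp.ne'
    rw [e, norm_smul, Real.norm_of_nonneg (by positivity), inv_mul_lt_iff₀ hNp]
    refine lt_of_le_of_lt h1 ?_
    have h2 := hlow (T (ψ m)) (hTT0 _)
    have h3 : η / 2 * c0 * (T (ψ m) * Real.log (T (ψ m))) ≤ η / 2 * NZ (T (ψ m)) := by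
      rw [mul_assoc]
      exact mul_le_mul_of_nonneg_left h2 (by linarith)
    have h4 : η / 2 * (NZ (T (ψ m)) : ℝ) < NZ (T (ψ m)) * η := by nlinarith
    linarith
  have hcf1 : ∀ ξ : ℝ, Tendsto (fun m => ((NZ (T (ψ m)) : ℝ)⁻¹) • ∑ n ∈ Finset.Icc 1 (NZ (T (ψ m))),
      Complex.exp (Complex.I * ((ξ * fc c (2 * φ (ψ m)) (T (ψ m)) (u (ψ m)) n : ℝ) : ℂ))) atTop
      (𝓝 (Real.exp (-(ξ ^ 2 * V / 2)) : ℂ)) := by
    intro ξ
    have h1 : Tendsto (fun m => (Real.exp (-(ξ ^ 2 * QQ (c1 c) (2 * φ (ψ m)) (b1 (φ (ψ m)) (v (ψ m))) / 2)) : ℂ))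
        atTop (𝓝 (Real.exp (-(ξ ^ 2 * V / 2)) : ℂ)) := by
      refine (Complex.continuous_ofReal.tendsto _).comp ?_
      refine (Real.continuous_exp.tendsto _).comp ?_
      exact ((hlim'.const_mul (ξ ^ 2)).div_const 2).neg
    have h2 := (hcf0 ξ).add h1
    rw [zero_add] at h2
    refine h2.congr fun m => ?_
    ring
  -- the limit variance is nonnegative
  have hv0 : 0 ≤ V := by
    have h1 := (hcf1 1).norm
    have h2 : ‖(Real.exp (-((1 : ℝ) ^ 2 * V / 2)) : ℂ)‖ ≤ 1 := by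
      refine le_of_tendsto h1 (Eventually.of_forall fun m => ?_)
      have hNp : (0 : ℝ) < NZ (T (ψ m)) := by exact_mod_cast hNpos (ψ m)
      rw [norm_smul, Real.norm_of_nonneg (by positivity), inv_mul_le_iff₀ hNp, mul_one]
      refine (norm_sum_le _ _).trans ?_
      have h3 : ∀ n ∈ Finset.Icc 1 (NZ (T (ψ m))),
          ‖Complex.exp (Complex.I * ((1 * fc c (2 * φ (ψ m)) (T (ψ m)) (u (ψ m)) n : ℝ) : ℂ))‖ ≤ 1 := by
        intro n _
        rw [mul_comm, Complex.norm_exp_ofReal_mul_I]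
      refine (Finset.sum_le_sum h3).trans ?_
      rw [Finset.sum_const, Nat.card_Icc, Nat.add_sub_cancel, nsmul_eq_mul, mul_one]
    rw [Complex.norm_real, Real.norm_of_nonneg (Real.exp_pos _).le] at h2
    have h3 := Real.exp_le_one_iff.1 h2
    linarith
  obtain ⟨v', hv'⟩ : ∃ v' : ℝ≥0, v' = V.toNNReal := ⟨_, rfl⟩
  have hvv : (v' : ℝ) = V := by rw [hv']; exact Real.coe_toNNReal V hv0
  obtain ⟨C, hC0, hC⟩ := mom2C hRH c (p + 1) B hB
  have hC' := hφψ.eventually hC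
  have hL := lv (fun m n => fc c (2 * φ (ψ m)) (T (ψ m)) (u (ψ m)) n) (fun m => NZ (T (ψ m)))
    (fun m => hNpos _) v'
    (fun ξ => by rw [hvv]; exact hcf1 ξ) (fun x => x ^ p) (by fun_prop) 1 p (fun x => by
      rw [one_mul, abs_pow]
      exact pow_le_pow_left₀ (abs_nonneg _) (by linarith) p) C
    (by
      filter_upwards [hC'] with m hm
      exact hm (T (ψ m)) (hT1 _) (hrT _) (u (ψ m)) (fun i => (hu _ i).trans (by linarith)))
  rw [gm, hvv] at hL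
  have hG : Tendsto (fun m => MM p (QR c (u (ψ m)) / Real.log ((2 * φ (ψ m) : ℕ) : ℝ))) atTop
      (𝓝 (MM p V)) := ((MM_cont p).tendsto V).comp hlimR
  have hD := (hL.sub hG).abs
  rw [sub_self, abs_zero] at hD
  obtain ⟨m, hm⟩ := (hD.eventually_lt_const hε).exists
  have h5 := hlt (ψ m)
  linarith

end

end Pool.Agent.R320.KL
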