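import Pool.Agent.R320.KL.Mzb
import Pool.Agent.R320.KL.All
import Pool.Agent.R320.JL.Mom

/-! # Moments of the counts near all zeros up to height `T`, on RH -/

set_option autoImplicit false

namespace Pool.Agent.R320.KL

open Filter Topology MeasureTheory Set
open SG (ord NZ)
open SP (RHs)
open Pool.Agent.Y743.CL (lm log_nat bigT)
open Pool.Agent.R320.JL

noncomputable section

lemma split_sumR (g : ℕ → ℝ) (x : ℝ) (hx : 0 ≤ x) (K : ℕ) :
    ∑ n ∈ Finset.Icc 1 (NZ x), g n = ∑ n ∈ Finset.Icc 1 (NZ ((2 / 3) ^ K * x)), g n +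
      ∑ k ∈ Finset.range K,
        ∑ n ∈ Finset.Ioc (NZ (2 / 3 * ((2 / 3) ^ k * x))) (NZ ((2 / 3) ^ k * x)), g n := by
  have h := split_sum (fun n => (g n : ℂ)) x hx K
  exact_mod_cast h

lemma WW_conv {T T' x y : ℝ} (hT : 1 < T) (hT' : 1 < T') (n : ℕ) :
    WW T x y n = WW T' (x * (Real.log T' / Real.log T)) (y * (Real.log T' / Real.log T)) n -
      (y - x) * (1 - Real.log T' / Real.log T) := by
  have h1 : 0 < Real.log T := Real.log_pos hT
  have h2 : 0 < Real.log T' := Real.log_pos hT'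
  have e : ∀ u : ℝ, u * (Real.log T' / Real.log T) * (2 * Real.pi / Real.log T') =
      u * (2 * Real.pi / Real.log T) := by
    intro u
    field_simp
  unfold WW
  rw [e, e]
  ring

lemma geo_pow (k : ℕ) : ∃ S : ℝ, 0 < S ∧ ∀ K : ℕ,
    ∑ i ∈ Finset.range K, ((i : ℝ) + 1) ^ k * (2 / 3 : ℝ) ^ i ≤ S := by
  have h1 : Summable fun n : ℕ => (n : ℝ) ^ k * (2 / 3 : ℝ) ^ n :=
    summable_pow_mul_geometric_of_norm_lt_one k (by norm_num)
  have h2 : Summable fun n : ℕ => ((n : ℝ) + 1) ^ k * (2 / 3 : ℝ) ^ n := by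
    have h3 := (summable_nat_add_iff (f := fun n : ℕ => (n : ℝ) ^ k * (2 / 3 : ℝ) ^ n) 1).2 h1
    have h4 := h3.mul_left (3 / 2)
    refine h4.congr fun n => ?_
    push_cast
    rw [pow_succ]
    ring
  refine ⟨∑' n : ℕ, ((n : ℝ) + 1) ^ k * (2 / 3 : ℝ) ^ n + 1, ?_, fun K => ?_⟩
  · have : 0 ≤ ∑' n : ℕ, ((n : ℝ) + 1) ^ k * (2 / 3 : ℝ) ^ n := tsum_nonneg fun n => by positivity
    linarith
  · have := h2.sum_le_tsum (Finset.range K) (fun i _ => by positivity)
    linarith

lemma two_pow_add {x y : ℝ} (m : ℕ) : (x - y) ^ (2 * m) ≤ 2 ^ (2 * m) * (x ^ (2 * m) + y ^ (2 * m)) := by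
  have h1 := add_pow_le2 (abs_nonneg x) (abs_nonneg y) (2 * m)
  rw [(even_two_mul m).pow_abs, (even_two_mul m).pow_abs] at h1
  refine le_trans ?_ h1
  rw [← (even_two_mul m).pow_abs]
  exact pow_le_pow_left₀ (abs_nonneg _) (abs_sub _ _) _

theorem momC (hRH : RHs) (j : ℕ) (B : ℝ) (hB : 1 ≤ B) : ∃ C : ℝ, 0 < C ∧ ∀ᶠ M : ℕ in atTop,
    ∀ T : ℝ, 1 ≤ T → ((2 * M : ℕ) : ℝ) * Real.log (2 * M : ℕ) ≤ B * Real.log T →
    ∀ x y : ℝ, |x| ≤ M → |y| ≤ M → x ≤ y →
    ∑ n ∈ Finset.Icc 1 (NZ T), WW T x y n ^ (2 * 2 ^ j) ≤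
      C * (1 + Real.log (2 + (y - x))) ^ (2 ^ j) * (T * Real.log T) := by
  obtain ⟨C1, T1, hC1, hT1, hblm⟩ := blm hRH j (12 * B) (by linarith)
  obtain ⟨C3, T3, hC3, hT3, hup⟩ := LG.GapAux.NZ_up
  obtain ⟨C4, hC4, hunit⟩ := Pool.Agent.Y743.NC.unit_count
  obtain ⟨m, hm⟩ : ∃ m : ℕ, m = 2 ^ j := ⟨_, rfl⟩
  rw [← hm] at hblm ⊢
  obtain ⟨Sm, hSm, hgeo⟩ := geo_pow (2 * m)
  obtain ⟨S0, hS0, hgeo0⟩ := geo_pow 0
  have hpi := Real.pi_pos
  have hpi4 := Real.pi_lt_d2
  obtain ⟨C5, hC5⟩ : ∃ C5 : ℝ, C5 = C4 + NZ 4 + 1 := ⟨_, rfl⟩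
  have hN4 : (0 : ℝ) ≤ NZ 4 := Nat.cast_nonneg _
  have hC5p : 0 < C5 := by rw [hC5]; linarith
  -- large heights
  have ev1 : ∀ᶠ s : ℝ in atTop, C3 * C5 ^ (2 * m) * (2 * Real.log s) ^ (2 * m + 1) ≤ s := by
    have h1 : (fun T : ℝ => Real.log T ^ (2 * m + 1)) =o[atTop] id := Real.isLittleO_pow_log_id_atTop
    have h2 := h1.bound (c := 1 / (C3 * C5 ^ (2 * m) * 2 ^ (2 * m + 1))) (by positivity)
    filter_upwards [h2, eventually_ge_atTop 1] with s hs hs1
    have hl := Real.log_nonneg hs1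
    rw [id, Real.norm_of_nonneg (by positivity), Real.norm_of_nonneg (by linarith)] at hs
    rw [mul_pow]
    have e : C3 * C5 ^ (2 * m) * (2 ^ (2 * m + 1) * Real.log s ^ (2 * m + 1)) =
        (C3 * C5 ^ (2 * m) * 2 ^ (2 * m + 1)) * Real.log s ^ (2 * m + 1) := by ring
    rw [e]
    calc _ ≤ (C3 * C5 ^ (2 * m) * 2 ^ (2 * m + 1)) * (1 / (C3 * C5 ^ (2 * m) * 2 ^ (2 * m + 1)) * s) := by
          gcongr
      _ = s := by field_simp
  have hsq : Tendsto Real.sqrt atTop atTop := Real.tendsto_sqrt_atTop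
  have ev2 : ∀ᶠ T : ℝ in atTop, C3 * C5 ^ (2 * m) * (2 * Real.log (Real.sqrt T)) ^ (2 * m + 1) ≤ Real.sqrt T ∧
      (2 * T3 ≤ Real.sqrt T ∧ 2 * T1 ≤ Real.sqrt T) ∧ 100 ≤ Real.sqrt T ∧
      (Real.exp 30 ≤ T) := by
    filter_upwards [hsq.eventually ev1, hsq.eventually_ge_atTop (2 * T3), hsq.eventually_ge_atTop (2 * T1),
      hsq.eventually_ge_atTop 100, eventually_ge_atTop (Real.exp 30)] with T a1 a2 a3 a4 a5
    exact ⟨a1, ⟨a2, a3⟩, a4, a5⟩
  obtain ⟨X0, hX0⟩ := ev2.exists_forall_of_atTop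
  have hlogt : Tendsto (fun m : ℕ => Real.log ((2 * m : ℕ) : ℝ)) atTop atTop := log_nat.comp two_top
  refine ⟨2 ^ (2 * m) * (C1 * S0 + C3 * Sm) + 1, by positivity, ?_⟩
  filter_upwards [two_top.eventually (bigT B hB X0), hlogt.eventually_ge_atTop (64 * B),
    eventually_ge_atTop 4] with M h1 h2 hM4
  intro T hT1 hrT x y hx hy hxy
  have hTX := h1 T hT1 hrT
  obtain ⟨g1, ⟨g2, g2'⟩, g3, g4⟩ := hX0 T hTX
  have hM4r : (4 : ℝ) ≤ M := by exact_mod_cast hM4
  have hT0 : 0 < T := by linarith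
  have hL30 : 30 ≤ Real.log T := by
    rw [Real.le_log_iff_exp_le hT0]
    exact g4
  obtain ⟨L, hL⟩ : ∃ L : ℝ, L = Real.log T := ⟨_, rfl⟩
  have hT1' : 1 < T := by
    by_contra hcon
    push Not at hcon
    have := Real.log_nonpos hT0.le hcon
    linarith
  have hML : 2 * (M : ℝ) * 64 ≤ L := by
    have h9 : ((2 * M : ℕ) : ℝ) * (64 * B) ≤ B * L := by
      rw [hL]
      exact (mul_le_mul_of_nonneg_left h2 (Nat.cast_nonneg _)).trans hrT
    push_cast at h9
    have h10 : B * (2 * M * 64) ≤ B * L := by linarith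
    exact le_of_mul_le_mul_left h10 (by linarith)
  rw [← hL] at hL30 hrT ⊢
  obtain ⟨w, hw⟩ : ∃ w : ℝ, w = y - x := ⟨_, rfl⟩
  have hw0 : 0 ≤ w := by rw [hw]; linarith
  have hwM : w ≤ 2 * M := by
    have := (abs_le.1 hx).1
    have := (abs_le.1 hy).2
    rw [hw]; linarith
  rw [← hw]
  obtain ⟨σ, hσ⟩ : ∃ σ : ℝ, σ = (1 + Real.log (2 + w)) ^ m := ⟨_, rfl⟩
  have hlog2 : 0 ≤ Real.log (2 + w) := Real.log_nonneg (by linarith)
  have hσ1 : 1 ≤ σ := by rw [hσ]; exact one_le_pow₀ (by linarith)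
  rw [← hσ]
  have hsT : Real.sqrt T * Real.sqrt T = T := Real.mul_self_sqrt hT0.le
  have hsT1 : Real.sqrt T ≤ T := by
    calc Real.sqrt T = Real.sqrt T * 1 := (mul_one _).symm
      _ ≤ Real.sqrt T * Real.sqrt T := mul_le_mul_of_nonneg_left (by linarith) (Real.sqrt_nonneg _)
      _ = T := hsT
  have hsT2 : Real.sqrt T + 1 ≤ T := by
    calc Real.sqrt T + 1 ≤ Real.sqrt T * 2 := by linarith
      _ ≤ Real.sqrt T * Real.sqrt T := mul_le_mul_of_nonneg_left (by linarith) (Real.sqrt_nonneg _)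
      _ = T := hsT
  have hNZu : ∀ z, Real.sqrt T ≤ z → z ≤ T → (NZ z : ℝ) ≤ C3 * (z * L) := by
    intro z hz1 hz2
    have a1 := hup (z / 2) (by linarith)
    have e2 : 2 * (z / 2) = z := by ring
    rw [e2] at a1
    refine a1.trans ?_
    apply mul_le_mul_of_nonneg_left _ hC3.le
    have b1 : Real.log (z / 2) ≤ L := by
      rw [hL]
      exact Real.log_le_log (by linarith) (by linarith)
    have b2 : 0 ≤ z / 2 := by linarith
    calc z / 2 * Real.log (z / 2) ≤ z / 2 * L := by gcongr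
      _ ≤ z * L := mul_le_mul_of_nonneg_right (by linarith) (by linarith)
  -- the number of blocks
  have hex : ∃ K : ℕ, (2 / 3 : ℝ) ^ K * T ≤ Real.sqrt T := by
    obtain ⟨K, hK⟩ := exists_pow_lt_of_lt_one (show 0 < Real.sqrt T / T by positivity)
      (show (2 / 3 : ℝ) < 1 by norm_num)
    refine ⟨K, ?_⟩
    rw [lt_div_iff₀ hT0] at hK
    exact hK.le
  obtain ⟨K, hKd⟩ : ∃ K : ℕ, K = Nat.find hex := ⟨_, rfl⟩
  have hKs : (2 / 3 : ℝ) ^ K * T ≤ Real.sqrt T := by rw [hKd]; exact Nat.find_spec hex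
  have hKi : ∀ i < K, Real.sqrt T < (2 / 3 : ℝ) ^ i * T := by
    intro i hi
    rw [hKd] at hi
    have := Nat.find_min hex hi
    push Not at this
    exact this
  have e2 := split_sumR (fun n => WW T x y n ^ (2 * m)) T hT0.le K
  rw [e2]
  -- the low part
  have hlow : ∑ n ∈ Finset.Icc 1 (NZ ((2 / 3) ^ K * T)), WW T x y n ^ (2 * m) ≤ T * L := by
    have hterm : ∀ n ∈ Finset.Icc 1 (NZ ((2 / 3) ^ K * T)), WW T x y n ^ (2 * m) ≤ (C5 * L) ^ (2 * m) := by
      intro n hn
      rw [Finset.mem_Icc] at hn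
      have hon : ord n ≤ Real.sqrt T := ((SG.ord_le_iff hn.1 _).mpr hn.2).trans hKs
      rw [← (even_two_mul m).pow_abs]
      apply pow_le_pow_left₀ (abs_nonneg _)
      obtain ⟨h, hh⟩ : ∃ h : ℝ, h = 2 * Real.pi / Real.log T := ⟨_, rfl⟩
      have hh0 : 0 < h := by rw [hh, ← hL]; positivity
      have hMh : M * h ≤ 1 / 16 := by
        rw [hh, ← hL, mul_div_assoc', div_le_iff₀ (by linarith)]
        have h9 : (M : ℝ) * (2 * Real.pi) ≤ M * 7 := mul_le_mul_of_nonneg_left (by linarith) (by linarith)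
        linarith
      have hxh : |x * h| ≤ 1 / 16 := by
        rw [abs_mul, abs_of_pos hh0]
        exact (mul_le_mul_of_nonneg_right hx hh0.le).trans hMh
      have hyh : |y * h| ≤ 1 / 16 := by
        rw [abs_mul, abs_of_pos hh0]
        exact (mul_le_mul_of_nonneg_right hy hh0.le).trans hMh
      have hxh' := abs_le.1 hxh
      have hyh' := abs_le.1 hyh
      have hxyh : x * h ≤ y * h := mul_le_mul_of_nonneg_right hxy hh0.le
      unfold WW
      rw [← hh, ← hw]
      have p1 : (NZ (ord n + x * h) : ℝ) ≤ NZ (ord n + y * h) := by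
        exact_mod_cast SG.NZ_mono (by linarith)
      have p2 : (NZ (ord n + y * h) : ℝ) ≤ NZ (ord n + x * h) + (C4 * L + NZ 4) := by
        rcases le_total 3 (ord n + x * h) with h3 | h3
        · have q1 := hunit (ord n + x * h) h3
          have q2 : (NZ (ord n + y * h) : ℝ) ≤ NZ (ord n + x * h + 1) := by
            exact_mod_cast SG.NZ_mono (by linarith)
          have q3 : Real.log (ord n + x * h) ≤ L := by
            rw [hL]
            apply Real.log_le_log (by linarith)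
            linarith
          have q4 : C4 * Real.log (ord n + x * h) ≤ C4 * L := mul_le_mul_of_nonneg_left q3 hC4.le
          linarith
        · have q2 : (NZ (ord n + y * h) : ℝ) ≤ NZ 4 := by
            exact_mod_cast SG.NZ_mono (by linarith)
          have q3 : (0 : ℝ) ≤ NZ (ord n + x * h) := Nat.cast_nonneg _
          have q4 : 0 ≤ C4 * L := by positivity
          linarith
      have hC5L : C4 * L + NZ 4 + L ≤ C5 * L := by
        rw [hC5]
        have : (NZ 4 : ℝ) ≤ NZ 4 * L := le_mul_of_one_le_right hN4 (by linarith)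
        linarith
      rw [abs_le]
      constructor <;> linarith
    refine (Finset.sum_le_sum hterm).trans ?_
    rw [Finset.sum_const, Nat.card_Icc, Nat.add_sub_cancel, nsmul_eq_mul]
    have a1 : (NZ ((2 / 3) ^ K * T) : ℝ) ≤ C3 * (Real.sqrt T * L) := by
      refine le_trans ?_ (hNZu (Real.sqrt T) le_rfl hsT1)
      exact_mod_cast SG.NZ_mono hKs
    have a2 : L = 2 * Real.log (Real.sqrt T) := by
      rw [Real.log_sqrt hT0.le, hL]
      ring
    calc (NZ ((2 / 3) ^ K * T) : ℝ) * (C5 * L) ^ (2 * m) ≤ C3 * (Real.sqrt T * L) * (C5 * L) ^ (2 * m) := by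
          gcongr
      _ = Real.sqrt T * (C3 * C5 ^ (2 * m) * L ^ (2 * m + 1)) := by
          rw [mul_pow, pow_succ]
          ring
      _ ≤ Real.sqrt T * Real.sqrt T := by
          apply mul_le_mul_of_nonneg_left _ (Real.sqrt_nonneg _)
          rw [a2]
          exact g1
      _ = T := hsT
      _ ≤ T * L := le_mul_of_one_le_right hT0.le (by linarith)
  -- the blocks
  have hblk : ∀ i ∈ Finset.range K, ∑ n ∈ Finset.Ioc (NZ (2 / 3 * ((2 / 3) ^ i * T)))
      (NZ ((2 / 3) ^ i * T)), WW T x y n ^ (2 * m) ≤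
      2 ^ (2 * m) * (C1 * σ * (((i : ℝ) + 1) ^ 0 * (2 / 3) ^ i) +
        C3 * (((i : ℝ) + 1) ^ (2 * m) * (2 / 3) ^ i)) * (T * L) := by
    intro i hi
    rw [Finset.mem_range] at hi
    have hKi' := hKi i hi
    obtain ⟨z, hz⟩ : ∃ z : ℝ, z = (2 / 3) ^ i * T := ⟨_, rfl⟩
    rw [← hz] at hKi' ⊢
    have hzT : z ≤ T := by
      rw [hz]
      have : (2 / 3 : ℝ) ^ i ≤ 1 := pow_le_one₀ (by norm_num) (by norm_num)
      calc (2 / 3 : ℝ) ^ i * T ≤ 1 * T := mul_le_mul_of_nonneg_right this hT0.le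
        _ = T := one_mul T
    obtain ⟨T', hT'⟩ : ∃ T' : ℝ, T' = 3 / 5 * z := ⟨_, rfl⟩
    have hT'1 : 1 < T' := by rw [hT']; linarith
    have hlT' : 0 < Real.log T' := Real.log_pos hT'1
    have hlTT : L ≤ 3 * Real.log T' := by
      have m1 : Real.log (Real.sqrt T) ≤ Real.log (5 / 3 * T') := by
        apply Real.log_le_log (by linarith)
        rw [hT']
        linarith
      rw [Real.log_mul (by norm_num) (by linarith), Real.log_sqrt hT0.le, ← hL] at m1
      have m2 : Real.log (5 / 3) ≤ 1 := by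
        have := Real.log_le_sub_one_of_pos (show (0 : ℝ) < 5 / 3 by norm_num)
        linarith
      linarith
    have hdl : L - Real.log T' ≤ i + 1 := by
      have m1 : L = Real.log (5 / 3) + i * Real.log (3 / 2) + Real.log T' := by
        have m2 : T = 5 / 3 * (3 / 2) ^ i * T' := by
          rw [hT', hz]
          have : (3 / 2 : ℝ) ^ i * (2 / 3) ^ i = 1 := by
            rw [← mul_pow]
            norm_num
          calc T = ((3 / 2 : ℝ) ^ i * (2 / 3) ^ i) * T := by rw [this, one_mul]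
            _ = _ := by ring
        rw [hL]
        conv_lhs => rw [m2]
        rw [Real.log_mul (by positivity) (by linarith), Real.log_mul (by norm_num) (by positivity),
          Real.log_pow]
      have m3 : Real.log (5 / 3) ≤ 1 := by
        have := Real.log_le_sub_one_of_pos (show (0 : ℝ) < 5 / 3 by norm_num)
        linarith
      have m4 : Real.log (3 / 2) ≤ 1 := by
        have := Real.log_le_sub_one_of_pos (show (0 : ℝ) < 3 / 2 by norm_num)
        linarith
      have m5 : (i : ℝ) * Real.log (3 / 2) ≤ i * 1 := mul_le_mul_of_nonneg_left m4 (Nat.cast_nonneg _)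
      linarith
    have hlT'L : Real.log T' ≤ L := by
      rw [hL]
      exact Real.log_le_log (by linarith) (by rw [hT']; linarith)
    obtain ⟨ρ, hρ⟩ : ∃ ρ : ℝ, ρ = Real.log T' / Real.log T := ⟨_, rfl⟩
    have hL0 : 0 < L := by linarith
    have hρ0 : 0 < ρ := by rw [hρ, ← hL]; positivity
    have hρ1 : ρ ≤ 1 := by rw [hρ, ← hL, div_le_one hL0]; exact hlT'L
    have hρh : ∀ a : ℝ, a * ρ * (2 * Real.pi / Real.log T') = a * (2 * Real.pi / L) := by
      intro a
      rw [hρ, ← hL]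
      field_simp
    have hMh : M * (2 * Real.pi / L) ≤ 1 / 16 := by
      rw [mul_div_assoc', div_le_iff₀ hL0]
      have h9 : (M : ℝ) * (2 * Real.pi) ≤ M * 7 := mul_le_mul_of_nonneg_left (by linarith) (by linarith)
      linarith
    have h2pi : 0 < 2 * Real.pi / L := by positivity
    have hwρ : y * ρ - x * ρ = w * ρ := by rw [hw]; ring
    have hwρw : w * ρ ≤ w := by
      calc w * ρ ≤ w * 1 := mul_le_mul_of_nonneg_left hρ1 hw0
        _ = w := mul_one w
    have hwρ0 : 0 ≤ w * ρ := by positivity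
    have hb := hblm T' (by rw [hT']; linarith) (x * ρ) (y * ρ)
      (mul_le_mul_of_nonneg_right hxy hρ0.le)
      (by
        rw [abs_mul, abs_of_pos hρ0, hρh]
        exact (mul_le_mul_of_nonneg_right hx h2pi.le).trans (by linarith))
      (by
        rw [hwρ]
        have hM2 : w * ρ + 1 ≤ 4 * M := by linarith
        have hM3 : Real.log (w * ρ + 1) ≤ 2 * Real.log ((2 * M : ℕ) : ℝ) := by
          have : Real.log (w * ρ + 1) ≤ Real.log (((2 * M : ℕ) : ℝ) ^ 2) := by
            apply Real.log_le_log (by linarith)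
            push_cast
            have h11 : (4 : ℝ) * M * 1 ≤ 4 * M * M := mul_le_mul_of_nonneg_left (by linarith) (by linarith)
            calc w * ρ + 1 ≤ 4 * M := hM2
              _ = 4 * M * 1 := (mul_one _).symm
              _ ≤ 4 * M * M := h11
              _ = (2 * M) ^ 2 := by ring
          rw [Real.log_pow] at this
          push_cast at this ⊢
          exact this
        have hM5 : 0 ≤ Real.log (w * ρ + 1) := Real.log_nonneg (by linarith)
        calc (w * ρ + 1) * Real.log (w * ρ + 1) ≤ (4 * M) * (2 * Real.log ((2 * M : ℕ) : ℝ)) := by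
              apply mul_le_mul hM2 hM3 hM5 (by linarith)
          _ = 4 * (((2 * M : ℕ) : ℝ) * Real.log (2 * M : ℕ)) := by push_cast; ring
          _ ≤ 4 * (B * L) := by linarith
          _ ≤ 4 * (B * (3 * Real.log T')) := by gcongr
          _ = 12 * B * Real.log T' := by ring)
      (by
        rw [hwρ]
        have h9 : w * ρ * (2 * Real.pi / Real.log T') ≤ 1 / 8 := by
          rw [hρh]
          calc w * (2 * Real.pi / L) ≤ 2 * M * (2 * Real.pi / L) := mul_le_mul_of_nonneg_right hwM h2pi.le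
            _ = 2 * (M * (2 * Real.pi / L)) := by ring
            _ ≤ 1 / 8 := by linarith
        have h10 : 2 * Real.pi / Real.log T' ≤ 7 / 8 := by
          rw [div_le_iff₀ hlT']
          linarith
        calc (w * ρ + 1) * (2 * Real.pi / Real.log T') =
            w * ρ * (2 * Real.pi / Real.log T') + 2 * Real.pi / Real.log T' := by ring
          _ ≤ 1 := by linarith)
      (2 / 3 * z) z (by rw [hT']; linarith) (by linarith) (by rw [hT']; linarith)
    rw [hwρ] at hb
    -- comparison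
    have hoff : |w * (1 - ρ)| ≤ i + 1 := by
      have e3 : w * (1 - ρ) = w * ((L - Real.log T') / L) := by
        rw [hρ, ← hL]
        field_simp
      rw [e3, abs_mul, abs_of_nonneg hw0, abs_of_nonneg (div_nonneg (by linarith) hL0.le), mul_div_assoc',
        div_le_iff₀ hL0]
      calc w * (L - Real.log T') ≤ L * (i + 1) := by
            apply mul_le_mul (by linarith) hdl (by linarith) hL0.le
        _ = (i + 1) * L := by ring
    have hterm : ∀ n, WW T x y n ^ (2 * m) ≤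
        2 ^ (2 * m) * (WW T' (x * ρ) (y * ρ) n ^ (2 * m) + ((i : ℝ) + 1) ^ (2 * m)) := by
      intro n
      rw [WW_conv (x := x) (y := y) hT1' hT'1 n, ← hρ, ← hw]
      refine (two_pow_add m).trans ?_
      apply mul_le_mul_of_nonneg_left _ (by positivity)
      apply add_le_add le_rfl
      rw [← (even_two_mul m).pow_abs]
      exact pow_le_pow_left₀ (abs_nonneg _) hoff _
    refine (Finset.sum_le_sum fun n _ => hterm n).trans ?_
    rw [← Finset.mul_sum, Finset.sum_add_distrib, Finset.sum_const, nsmul_eq_mul, mul_assoc]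
    apply mul_le_mul_of_nonneg_left _ (by positivity)
    have hσ' : (1 + Real.log (2 + w * ρ)) ^ m ≤ σ := by
      rw [hσ]
      apply pow_le_pow_left₀
      · have := Real.log_nonneg (show (1 : ℝ) ≤ 2 + w * ρ by linarith)
        linarith
      · have := Real.log_le_log (show 0 < 2 + w * ρ by linarith) (show 2 + w * ρ ≤ 2 + w by linarith)
        linarith
    have c1 : ∑ n ∈ Finset.Ioc (NZ (2 / 3 * z)) (NZ z), WW T' (x * ρ) (y * ρ) n ^ (2 * m) ≤
        C1 * σ * (z * L) := by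
      refine hb.trans ?_
      have h9 : T' * Real.log T' ≤ z * L :=
        mul_le_mul (by rw [hT']; linarith) hlT'L hlT'.le (by linarith)
      have h10 : 0 ≤ T' * Real.log T' := by positivity
      calc C1 * (1 + Real.log (2 + w * ρ)) ^ m * (T' * Real.log T') ≤ C1 * σ * (T' * Real.log T') := by
            gcongr
        _ ≤ C1 * σ * (z * L) := mul_le_mul_of_nonneg_left h9 (by positivity)
    have c2 : (((Finset.Ioc (NZ (2 / 3 * z)) (NZ z)).card : ℕ) : ℝ) * ((i : ℝ) + 1) ^ (2 * m) ≤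
        C3 * (z * L) * ((i : ℝ) + 1) ^ (2 * m) := by
      apply mul_le_mul_of_nonneg_right _ (by positivity)
      refine le_trans ?_ (hNZu z hKi'.le hzT)
      rw [Nat.card_Ioc]
      exact_mod_cast Nat.sub_le _ _
    refine (add_le_add c1 c2).trans (le_of_eq ?_)
    rw [hz]
    ring
  have hblks : ∑ i ∈ Finset.range K, ∑ n ∈ Finset.Ioc (NZ (2 / 3 * ((2 / 3) ^ i * T)))
      (NZ ((2 / 3) ^ i * T)), WW T x y n ^ (2 * m) ≤
      2 ^ (2 * m) * (C1 * σ * S0 + C3 * Sm) * (T * L) := by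
    refine (Finset.sum_le_sum hblk).trans ?_
    rw [← Finset.sum_mul, ← Finset.mul_sum, Finset.sum_add_distrib, ← Finset.mul_sum, ← Finset.mul_sum]
    have := hgeo K
    have := hgeo0 K
    have : 0 ≤ T * L := by positivity
    gcongr
  refine (add_le_add hlow hblks).trans ?_
  have hTL : 0 ≤ T * L := by positivity
  have f1 : C3 * Sm ≤ C3 * Sm * σ := le_mul_of_one_le_right (by positivity) hσ1
  have f2 : T * L ≤ 1 * σ * (T * L) := by
    rw [one_mul]
    exact le_mul_of_one_le_left hTL hσ1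
  calc T * L + 2 ^ (2 * m) * (C1 * σ * S0 + C3 * Sm) * (T * L) ≤
      1 * σ * (T * L) + 2 ^ (2 * m) * (C1 * σ * S0 + C3 * Sm * σ) * (T * L) := by gcongr
    _ = _ := by ring

end

end Pool.Agent.R320.KL
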