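import Pool.Agent.R320.VQ.Var
import Pool.Agent.R320.JL.Palm

/-! # Moments of the counts near the zeros in one block, on RH -/

set_option autoImplicit false

namespace Pool.Agent.R320.KL

open Filter Topology MeasureTheory Set
open SG (ord NZ)
open SP (RHs)
open Pool.Agent.R320.JL
open Pool.Agent.R320.VQ (dv dv_nonneg varq)

noncomputable section

/-- the centred count in a window near the `n`-th zero -/
def WW (T x y : ℝ) (n : ℕ) : ℝ := ((NZ (ord n + y * (2 * Real.pi / Real.log T)) : ℝ) -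
  NZ (ord n + x * (2 * Real.pi / Real.log T))) - (y - x)

/-- the majorant -/
def Gm (T x w t : ℝ) : ℝ := |YY T (w + 1) (t + x * (2 * Real.pi / Real.log T))| +
  |YY T (max (w - 1) 0) (t + (x + 1) * (2 * Real.pi / Real.log T))| + 1

lemma Gm_pos (T x w t : ℝ) : 0 < Gm T x w t := by unfold Gm; positivity

lemma Gm_meas (T x w : ℝ) : Measurable (Gm T x w) := by
  unfold Gm
  exact (((YY_meas T _).comp (measurable_id.add_const _)).abs.add
    ((YY_meas T _).comp (measurable_id.add_const _)).abs).add_const _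

lemma WW_le {T x y t : ℝ} {n : ℕ} (hT : 1 < T) (hxy : x ≤ y)
    (ht1 : ord n - 2 * Real.pi / Real.log T ≤ t) (ht2 : t < ord n) :
    |WW T x y n| ≤ Gm T x (y - x) t := by
  have hpi := Real.pi_pos
  have hL : 0 < Real.log T := Real.log_pos hT
  obtain ⟨h, hh⟩ : ∃ h : ℝ, h = 2 * Real.pi / Real.log T := ⟨_, rfl⟩
  have hh0 : 0 < h := by rw [hh]; positivity
  have hY : ∀ b s : ℝ, YY T b s = (NZ (s + b * h) : ℝ) - NZ s - b := by
    intro b s
    unfold YY
    rw [show s + 2 * Real.pi * b / Real.log T = s + b * h by rw [hh]; ring]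
  unfold WW Gm
  rw [← hh] at ht1 ⊢
  rw [hY, hY]
  have e1 : t + x * h + (y - x + 1) * h = t + (y + 1) * h := by ring
  rw [e1]
  have p1 : (NZ (ord n + y * h) : ℝ) ≤ NZ (t + (y + 1) * h) := by
    exact_mod_cast SG.NZ_mono (by linarith)
  have p2 : (NZ (t + x * h) : ℝ) ≤ NZ (ord n + x * h) := by
    exact_mod_cast SG.NZ_mono (by linarith)
  have q1 := le_abs_self ((NZ (t + (y + 1) * h) : ℝ) - NZ (t + x * h) - (y - x + 1))
  have q2 := abs_nonneg ((NZ (t + (x + 1) * h + max (y - x - 1) 0 * h) : ℝ) - NZ (t + (x + 1) * h) -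
    max (y - x - 1) 0)
  have q2' := neg_abs_le ((NZ (t + (x + 1) * h + max (y - x - 1) 0 * h) : ℝ) - NZ (t + (x + 1) * h) -
    max (y - x - 1) 0)
  have q1' := abs_nonneg ((NZ (t + (y + 1) * h) : ℝ) - NZ (t + x * h) - (y - x + 1))
  rw [abs_le]
  refine ⟨?_, by linarith⟩
  rcases le_total (y - x) 1 with h1 | h1
  · have p3 : (NZ (ord n + x * h) : ℝ) ≤ NZ (ord n + y * h) := by
      exact_mod_cast SG.NZ_mono (by nlinarith)
    linarith
  · rw [max_eq_left (by linarith)] at q2' ⊢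
    have e2 : t + (x + 1) * h + (y - x - 1) * h = t + y * h := by ring
    rw [e2] at q2' ⊢
    have p3 : (NZ (t + y * h) : ℝ) ≤ NZ (ord n + y * h) := by
      exact_mod_cast SG.NZ_mono (by linarith)
    have p4 : (NZ (ord n + x * h) : ℝ) ≤ NZ (t + (x + 1) * h) := by
      exact_mod_cast SG.NZ_mono (by linarith)
    linarith

lemma YY_bd {T a s X : ℝ} (hT : 1 < T) (ha : 0 ≤ a) (hs : s ≤ X) :
    |YY T a s| ≤ NZ (X + a * (2 * Real.pi / Real.log T)) + a := by
  have hpi := Real.pi_pos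
  have hL : 0 < Real.log T := Real.log_pos hT
  obtain ⟨h, hh⟩ : ∃ h : ℝ, h = 2 * Real.pi / Real.log T := ⟨_, rfl⟩
  have hh0 : 0 < h := by rw [hh]; positivity
  unfold YY
  rw [show s + 2 * Real.pi * a / Real.log T = s + a * h by rw [hh]; ring, ← hh]
  have p1 : (NZ (s + a * h) : ℝ) ≤ NZ (X + a * h) := by exact_mod_cast SG.NZ_mono (by linarith)
  have p2 : (NZ s : ℝ) ≤ NZ (s + a * h) := by exact_mod_cast SG.NZ_mono (by nlinarith)
  have p3 : (0 : ℝ) ≤ NZ s := Nat.cast_nonneg _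
  rw [abs_le]
  constructor <;> linarith

/-- sums over zeros as integrals -/
lemma sum_int {T A A' : ℝ} (hT : 1 < T) (F : ℕ → ℝ) (G : ℝ → ℝ) (hGm : Measurable G)
    (hG0 : ∀ t, 0 ≤ G t) (Bd : ℝ) (hGB : ∀ t ≤ A', G t ≤ Bd)
    (hFG : ∀ n, 1 ≤ n → A < ord n → ord n ≤ A' → ∀ t, ord n - 2 * Real.pi / Real.log T ≤ t → t < ord n →
      F n ≤ G t) :
    2 * Real.pi / Real.log T * ∑ n ∈ Finset.Ioc (NZ A) (NZ A'), F n ≤
      ∫ t in Icc (A - 2 * Real.pi / Real.log T) A',
        ((NZ (t + 2 * Real.pi / Real.log T) : ℝ) - NZ t) * G t := by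
  have hpi := Real.pi_pos
  have hL : 0 < Real.log T := Real.log_pos hT
  obtain ⟨h, hh⟩ : ∃ h : ℝ, h = 2 * Real.pi / Real.log T := ⟨_, rfl⟩
  have hh0 : 0 < h := by rw [hh]; positivity
  rw [← hh] at hFG ⊢
  set S := Finset.Ioc (NZ A) (NZ A') with hS
  have hSm : ∀ n ∈ S, 1 ≤ n ∧ A < ord n ∧ ord n ≤ A' := by
    intro n hn
    rw [hS, Finset.mem_Ioc] at hn
    have hn1 : 1 ≤ n := by omega
    refine ⟨hn1, ?_, (SG.ord_le_iff hn1 _).mpr hn.2⟩
    by_contra hcon
    push Not at hcon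
    have := (SG.ord_le_iff hn1 _).mp hcon
    omega
  obtain ⟨J, hJ⟩ : ∃ J : Set ℝ, J = Icc (A - h) A' := ⟨_, rfl⟩
  have hJm : MeasurableSet J := by rw [hJ]; exact measurableSet_Icc
  have hJf : volume J ≠ ⊤ := by rw [hJ, Real.volume_Icc]; exact ENNReal.ofReal_ne_top
  rw [← hJ]
  have hBd0 : 0 ≤ Bd := (hG0 A').trans (hGB A' le_rfl)
  have i1 : ∀ n ∈ S, IntegrableOn ((Ico (ord n - h) (ord n)).indicator fun _ : ℝ => F n) J := fun n _ =>
    (integrableOn_const hJf).indicator measurableSet_Ico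
  have i1' : ∀ n ∈ S, ∫ t in J, (Ico (ord n - h) (ord n)).indicator (fun _ : ℝ => F n) t = h * F n := by
    intro n hn
    obtain ⟨b1, b2, b3⟩ := hSm n hn
    rw [setIntegral_indicator measurableSet_Ico, setIntegral_const]
    have e1 : J ∩ Ico (ord n - h) (ord n) = Ico (ord n - h) (ord n) := by
      apply inter_eq_right.2
      rw [hJ]
      intro t ht
      exact ⟨by linarith [ht.1], by linarith [ht.2]⟩
    rw [e1, Real.volume_real_Ico_of_le (by linarith), sub_sub_cancel, smul_eq_mul]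
  have hNm : Measurable fun t : ℝ => (NZ t : ℝ) := measurable_from_nat.comp (SG.NZ_mono.measurable)
  have i2 : IntegrableOn (fun t => ((NZ (t + h) : ℝ) - NZ t) * G t) J := by
    refine Measure.integrableOn_of_bounded (M := (NZ (A' + h) : ℝ) * Bd) hJf
      (((hNm.comp (measurable_id.add_const _)).sub hNm).mul hGm).aestronglyMeasurable ?_
    rw [ae_restrict_iff' hJm]
    refine ae_of_all _ fun t ht => ?_
    rw [hJ] at ht
    have p1 : (NZ t : ℝ) ≤ NZ (t + h) := by exact_mod_cast SG.NZ_mono (by linarith)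
    have p2 : (NZ (t + h) : ℝ) ≤ NZ (A' + h) := by exact_mod_cast SG.NZ_mono (by linarith [ht.2])
    have p3 : (0 : ℝ) ≤ NZ t := Nat.cast_nonneg _
    rw [Real.norm_of_nonneg (mul_nonneg (by linarith) (hG0 t))]
    exact mul_le_mul (by linarith) (hGB t ht.2) (hG0 t) (by positivity)
  have e0 : h * ∑ n ∈ S, F n = ∫ t in J, ∑ n ∈ S, (Ico (ord n - h) (ord n)).indicator (fun _ : ℝ => F n) t := by
    rw [integral_finsetSum _ i1, Finset.mul_sum]
    exact Finset.sum_congr rfl fun n hn => (i1' n hn).symm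
  rw [e0]
  refine setIntegral_mono_on (integrable_finsetSum _ i1) i2 hJm fun t ht => ?_
  have h1 : ∑ n ∈ S, (Ico (ord n - h) (ord n)).indicator (fun _ : ℝ => F n) t =
      ∑ n ∈ S.filter (fun n => ord n - h ≤ t ∧ t < ord n), F n := by
    rw [Finset.sum_filter]
    refine Finset.sum_congr rfl fun n _ => ?_
    rw [indicator_apply]
    rfl
  rw [h1]
  have hsub : S.filter (fun n => ord n - h ≤ t ∧ t < ord n) ⊆ Finset.Ioc (NZ t) (NZ (t + h)) := by
    intro n hn
    rw [Finset.mem_filter] at hn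
    obtain ⟨c1, c2, c3⟩ := hn
    obtain ⟨b1, b2, b3⟩ := hSm n c1
    rw [Finset.mem_Ioc]
    refine ⟨?_, (SG.ord_le_iff b1 _).mp (by linarith)⟩
    by_contra hcon
    push Not at hcon
    have := (SG.ord_le_iff b1 _).mpr hcon
    linarith
  have hmono : NZ t ≤ NZ (t + h) := SG.NZ_mono (by linarith)
  have hcard : ((S.filter (fun n => ord n - h ≤ t ∧ t < ord n)).card : ℝ) ≤ (NZ (t + h) : ℝ) - NZ t := by
    have h2 := Finset.card_le_card hsub
    rw [Nat.card_Ioc] at h2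
    have h3 : ((S.filter (fun n => ord n - h ≤ t ∧ t < ord n)).card : ℝ) ≤ ((NZ (t + h) - NZ t : ℕ) : ℝ) := by
      exact_mod_cast h2
    rwa [Nat.cast_sub hmono] at h3
  calc ∑ n ∈ S.filter (fun n => ord n - h ≤ t ∧ t < ord n), F n ≤
      ∑ _n ∈ S.filter (fun n => ord n - h ≤ t ∧ t < ord n), G t := by
        refine Finset.sum_le_sum fun n hn => ?_
        rw [Finset.mem_filter] at hn
        obtain ⟨b1, b2, b3⟩ := hSm n hn.1
        exact hFG n b1 b2 b3 t hn.2.1 hn.2.2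
    _ = ((S.filter (fun n => ord n - h ≤ t ∧ t < ord n)).card : ℝ) * G t := by
        rw [Finset.sum_const, nsmul_eq_mul]
    _ ≤ _ := mul_le_mul_of_nonneg_right hcard (hG0 t)

/-- shifted moments -/
lemma shift_int {T a s A A' : ℝ} (m : ℕ) (hT : 1 < T) (hA : T ≤ A + s) (hA' : A' + s ≤ 2 * T) :
    ∫ t in Icc A A', YY T a (t + s) ^ (2 * m) ≤ ∫ t in Icc T (2 * T), dv m T a t := by
  have e : ∀ t, YY T a t ^ (2 * m) = dv m T a t := fun t => by
    unfold YY Pool.Agent.R320.VQ.dv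
    rfl
  rcases le_total A A' with h | h
  · have h1 : ∫ t in Icc A A', YY T a (t + s) ^ (2 * m) = ∫ t in Icc (A + s) (A' + s), dv m T a t := by
      rw [integral_Icc_eq_integral_Ioc, ← intervalIntegral.integral_of_le h,
        integral_Icc_eq_integral_Ioc, ← intervalIntegral.integral_of_le (by linarith)]
      simp only [e]
      exact intervalIntegral.integral_comp_add_right (fun t => dv m T a t) s
    rw [h1]
    exact setIntegral_mono_set (Pool.Agent.R320.VQ.dv_int m T a T (2 * T))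
      (ae_of_all _ fun t => dv_nonneg m T a t) (Icc_subset_Icc hA hA').eventuallyLE
  · rw [integral_Icc_eq_integral_Ioc, Ioc_eq_empty (not_lt.2 h), setIntegral_empty]
    exact integral_nonneg fun t => dv_nonneg m T a t

lemma add3_pow {a b : ℝ} (ha : 0 ≤ a) (hb : 0 ≤ b) (k : ℕ) :
    (a + b + 1) ^ k ≤ 3 ^ k * (a ^ k + b ^ k + 1) := by
  have h1 : a + b + 1 ≤ 3 * max (max a b) 1 := by
    have h2 := le_max_left a b
    have h3 := le_max_right a b
    have h4 := le_max_left (max a b) 1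
    have h5 := le_max_right (max a b) 1
    linarith
  have h2 : (max (max a b) 1) ^ k ≤ a ^ k + b ^ k + 1 := by
    have ha' : 0 ≤ a ^ k := by positivity
    have hb' : 0 ≤ b ^ k := by positivity
    rcases max_cases (max a b) 1 with h | h
    · rw [h.1]
      rcases max_cases a b with h' | h'
      · rw [h'.1]; linarith
      · rw [h'.1]; linarith
    · rw [h.1, one_pow]; linarith
  calc (a + b + 1) ^ k ≤ (3 * max (max a b) 1) ^ k := pow_le_pow_left₀ (by positivity) h1 k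
    _ = 3 ^ k * (max (max a b) 1) ^ k := mul_pow _ _ _
    _ ≤ _ := mul_le_mul_of_nonneg_left h2 (by positivity)

lemma YY_int {T a s A A' : ℝ} (hT : 1 < T) (ha : 0 ≤ a) (k : ℕ) :
    IntegrableOn (fun t => YY T a (t + s) ^ k) (Icc A A') := by
  have hJf : volume (Icc A A') ≠ ⊤ := by rw [Real.volume_Icc]; exact ENNReal.ofReal_ne_top
  refine Measure.integrableOn_of_bounded
    (M := ((NZ (A' + s + a * (2 * Real.pi / Real.log T)) : ℝ) + a) ^ k) hJf
    (((YY_meas T a).comp (measurable_id.add_const _)).pow_const k).aestronglyMeasurable ?_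
  rw [ae_restrict_iff' measurableSet_Icc]
  refine ae_of_all _ fun t ht => ?_
  rw [norm_pow, Real.norm_eq_abs]
  exact pow_le_pow_left₀ (abs_nonneg _) (YY_bd hT ha (by linarith [ht.2])) k

/-- **moments of the counts near zeros, one block (RH)** -/
theorem blm (hRH : RHs) (j : ℕ) (B : ℝ) (hB : 1 ≤ B) : ∃ C T0 : ℝ, 0 < C ∧ 10 ≤ T0 ∧ ∀ T : ℝ, T0 ≤ T →
    ∀ x y : ℝ, x ≤ y → |x| * (2 * Real.pi / Real.log T) ≤ 1 →
    (y - x + 1) * Real.log (y - x + 1) ≤ B * Real.log T → (y - x + 1) * (2 * Real.pi / Real.log T) ≤ 1 →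
    ∀ A A' : ℝ, T + 5 ≤ A → A ≤ A' → A' ≤ 2 * T - 5 →
    ∑ n ∈ Finset.Ioc (NZ A) (NZ A'), WW T x y n ^ (2 * 2 ^ j) ≤
      C * (1 + Real.log (2 + (y - x))) ^ (2 ^ j) * (T * Real.log T) := by
  obtain ⟨C1, T1, hC1, hT1, hv1⟩ := varq hRH 0 B hB
  obtain ⟨C2, T2, hC2, hT2, hv2⟩ := varq hRH (j + 1) B hB
  have hpi := Real.pi_pos
  have hpi3 := Real.pi_gt_three
  obtain ⟨m, hm⟩ : ∃ m : ℕ, m = 2 ^ j := ⟨_, rfl⟩
  have hm1 : 1 ≤ m := by rw [hm]; exact Nat.one_le_two_pow
  have hm2 : 2 ^ (j + 1) = 2 * m := by rw [hm]; ring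
  rw [hm2] at hv2
  rw [← hm]
  refine ⟨2 * C1 + 1 + 3 ^ (4 * m) * (C2 + 1), max (max T1 T2) 20, by positivity,
    hT1.trans ((le_max_left _ _).trans (le_max_left _ _)), ?_⟩
  intro T hT x y hxy hx hyx hyx2 A A' hA hAA hA'
  have hTT1 : T1 ≤ T := ((le_max_left _ _).trans (le_max_left _ _)).trans hT
  have hTT2 : T2 ≤ T := ((le_max_right _ _).trans (le_max_left _ _)).trans hT
  have hT20 : 20 ≤ T := (le_max_right _ _).trans hT
  have hT1' : 1 < T := by linarith
  have hL : 0 < Real.log T := Real.log_pos hT1'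
  obtain ⟨h, hh⟩ : ∃ h : ℝ, h = 2 * Real.pi / Real.log T := ⟨_, rfl⟩
  have hh0 : 0 < h := by rw [hh]; positivity
  rw [← hh] at hx hyx2
  obtain ⟨w, hw⟩ : ∃ w : ℝ, w = y - x := ⟨_, rfl⟩
  have hw0 : 0 ≤ w := by rw [hw]; linarith
  rw [← hw] at hyx hyx2 ⊢
  have hwh : 0 ≤ w * h := mul_nonneg hw0 hh0.le
  have hh1 : h ≤ 1 := by
    have : (w + 1) * h = w * h + h := by ring
    linarith
  obtain ⟨lw, hlw⟩ : ∃ lw : ℝ, lw = 1 + Real.log (2 + w) := ⟨_, rfl⟩
  have hlog2 : 0 ≤ Real.log (2 + w) := Real.log_nonneg (by linarith)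
  have hlw1 : 1 ≤ lw := by rw [hlw]; linarith
  rw [← hlw]
  obtain ⟨σ, hσ⟩ : ∃ σ : ℝ, σ = lw ^ m := ⟨_, rfl⟩
  have hσ1 : 1 ≤ σ := by rw [hσ]; exact one_le_pow₀ hlw1
  have hσ0 : 0 < σ := by linarith
  have hσ2 : lw ^ (2 * m) = σ ^ 2 := by rw [hσ, ← pow_mul, mul_comm]
  rw [← hσ]
  have hxh := abs_le.1 (show |x * h| ≤ 1 by rw [abs_mul, abs_of_pos hh0]; exact hx)
  -- boundedness of the majorant
  obtain ⟨Bd, hBd⟩ : ∃ Bd : ℝ, Bd = ((NZ (A' + 2 + (w + 1) * h) : ℝ) + (w + 1)) +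
      ((NZ (A' + 2 + (max (w - 1) 0) * h) : ℝ) + max (w - 1) 0) + 1 := ⟨_, rfl⟩
  have hmax0 : 0 ≤ max (w - 1) 0 := le_max_right _ _
  have hGB : ∀ t ≤ A', Gm T x w t ≤ Bd := by
    intro t ht
    unfold Gm
    rw [← hh, hBd]
    have k1 := YY_bd (T := T) (a := w + 1) (s := t + x * h) (X := A' + 2) hT1' (by linarith) (by linarith)
    have k2 := YY_bd (T := T) (a := max (w - 1) 0) (s := t + (x + 1) * h) (X := A' + 2) hT1' hmax0
      (by linarith)
    rw [← hh] at k1 k2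
    linarith
  have hG0 : ∀ t, 0 ≤ Gm T x w t := fun t => (Gm_pos T x w t).le
  have key := sum_int (T := T) (A := A) (A' := A') hT1' (fun n => WW T x y n ^ (2 * m))
    (fun t => Gm T x w t ^ (2 * m)) ((Gm_meas T x w).pow_const _) (fun t => pow_nonneg (hG0 t) _)
    (Bd ^ (2 * m)) (fun t ht => pow_le_pow_left₀ (hG0 t) (hGB t ht) _)
    (fun n _ _ _ t ht1 ht2 => by
      show WW T x y n ^ (2 * m) ≤ Gm T x w t ^ (2 * m)
      rw [← (even_two_mul m).pow_abs (WW T x y n), hw]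
      exact pow_le_pow_left₀ (abs_nonneg _) (WW_le hT1' hxy ht1 ht2) _)
  rw [← hh] at key
  obtain ⟨J, hJ⟩ : ∃ J : Set ℝ, J = Icc (A - h) A' := ⟨_, rfl⟩
  have hJf : volume J ≠ ⊤ := by rw [hJ, Real.volume_Icc]; exact ENNReal.ofReal_ne_top
  have hJv : volume.real J ≤ T := by
    rw [hJ, Real.volume_real_Icc_of_le (by linarith)]
    linarith
  -- the majorant of the integrand
  obtain ⟨H, hH⟩ : ∃ H : ℝ → ℝ, H = fun t => σ * (YY T 1 (t + 0) ^ (2 * 1) + 1) +
    (1 / (2 * σ)) * (3 ^ (4 * m) * (YY T (w + 1) (t + x * h) ^ (2 * (2 * m)) +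
      YY T (max (w - 1) 0) (t + (x + 1) * h) ^ (2 * (2 * m)) + 1)) := ⟨_, rfl⟩
  have hpt : ∀ t, ((NZ (t + h) : ℝ) - NZ t) * Gm T x w t ^ (2 * m) ≤ H t := by
    intro t
    have e1 : (NZ (t + h) : ℝ) - NZ t = YY T 1 (t + 0) + 1 := by
      unfold YY
      rw [add_zero, mul_one, ← hh]
      ring
    rw [e1, hH]
    obtain ⟨Y, hY⟩ : ∃ Y : ℝ, Y = YY T 1 (t + 0) := ⟨_, rfl⟩
    obtain ⟨g, hg⟩ : ∃ g : ℝ, g = Gm T x w t ^ (2 * m) := ⟨_, rfl⟩
    show (YY T 1 (t + 0) + 1) * Gm T x w t ^ (2 * m) ≤ σ * (YY T 1 (t + 0) ^ (2 * 1) + 1) +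
      (1 / (2 * σ)) * (3 ^ (4 * m) * (YY T (w + 1) (t + x * h) ^ (2 * (2 * m)) +
      YY T (max (w - 1) 0) (t + (x + 1) * h) ^ (2 * (2 * m)) + 1))
    rw [← hY, ← hg]
    have h1 : (Y + 1) * g ≤ σ * (Y ^ (2 * 1) + 1) + 1 / (2 * σ) * g ^ 2 := by
      have h2 : 0 ≤ (σ * (Y + 1) - g) ^ 2 / (2 * σ) := by positivity
      have h3 : (σ * (Y + 1) - g) ^ 2 / (2 * σ) = σ * (Y + 1) ^ 2 / 2 - (Y + 1) * g + 1 / (2 * σ) * g ^ 2 := by
        field_simp
        ring
      have h4 : σ * (Y + 1) ^ 2 / 2 ≤ σ * (Y ^ (2 * 1) + 1) := by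
        have h5 : (Y + 1) ^ 2 / 2 ≤ Y ^ (2 * 1) + 1 := by
          rw [mul_one]
          nlinarith [sq_nonneg (Y - 1)]
        calc σ * (Y + 1) ^ 2 / 2 = σ * ((Y + 1) ^ 2 / 2) := by ring
          _ ≤ _ := mul_le_mul_of_nonneg_left h5 hσ0.le
      linarith
    refine h1.trans (add_le_add le_rfl ?_)
    apply mul_le_mul_of_nonneg_left _ (by positivity)
    have e2 : g ^ 2 = Gm T x w t ^ (4 * m) := by rw [hg, ← pow_mul]; ring_nf
    rw [e2]
    have h6 := add3_pow (abs_nonneg (YY T (w + 1) (t + x * h)))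
      (abs_nonneg (YY T (max (w - 1) 0) (t + (x + 1) * h))) (4 * m)
    have e3 : ∀ z : ℝ, |z| ^ (4 * m) = z ^ (2 * (2 * m)) := by
      intro z
      rw [show 4 * m = 2 * (2 * m) by ring, (even_two_mul (2 * m)).pow_abs]
    rw [e3, e3] at h6
    unfold Gm
    rw [← hh]
    exact h6
  have iY1 : IntegrableOn (fun t => YY T 1 (t + 0) ^ (2 * 1)) J := by
    rw [hJ]; exact YY_int hT1' zero_le_one _
  have iY2 : IntegrableOn (fun t => YY T (w + 1) (t + x * h) ^ (2 * (2 * m))) J := by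
    rw [hJ]; exact YY_int hT1' (by linarith) _
  have iY3 : IntegrableOn (fun t => YY T (max (w - 1) 0) (t + (x + 1) * h) ^ (2 * (2 * m))) J := by
    rw [hJ]; exact YY_int hT1' hmax0 _
  have i1 : IntegrableOn (fun _ : ℝ => (1 : ℝ)) J := integrableOn_const hJf
  have iA : IntegrableOn (fun t => YY T 1 (t + 0) ^ (2 * 1) + 1) J := iY1.add i1
  have iB : IntegrableOn (fun t => YY T (w + 1) (t + x * h) ^ (2 * (2 * m)) +
      YY T (max (w - 1) 0) (t + (x + 1) * h) ^ (2 * (2 * m)) + 1) J := (iY2.add iY3).add i1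
  have iH : IntegrableOn H J := by
    rw [hH]
    exact (iA.const_mul σ).add ((iB.const_mul _).const_mul _)
  have hNm : Measurable fun t : ℝ => (NZ t : ℝ) := measurable_from_nat.comp (SG.NZ_mono.measurable)
  have i2 : IntegrableOn (fun t => ((NZ (t + h) : ℝ) - NZ t) * Gm T x w t ^ (2 * m)) J := by
    refine Measure.integrableOn_of_bounded (M := (NZ (A' + h) : ℝ) * Bd ^ (2 * m)) hJf
      (((hNm.comp (measurable_id.add_const _)).sub hNm).mul
        ((Gm_meas T x w).pow_const _)).aestronglyMeasurable ?_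
    rw [ae_restrict_iff' (by rw [hJ]; exact measurableSet_Icc)]
    refine ae_of_all _ fun t ht => ?_
    rw [hJ] at ht
    have p1 : (NZ t : ℝ) ≤ NZ (t + h) := by exact_mod_cast SG.NZ_mono (by linarith)
    have p2 : (NZ (t + h) : ℝ) ≤ NZ (A' + h) := by exact_mod_cast SG.NZ_mono (by linarith [ht.2])
    have p3 : (0 : ℝ) ≤ NZ t := Nat.cast_nonneg _
    rw [Real.norm_of_nonneg (mul_nonneg (by linarith) (pow_nonneg (hG0 t) _))]
    exact mul_le_mul (by linarith) (pow_le_pow_left₀ (hG0 t) (hGB t ht.2) _) (pow_nonneg (hG0 t) _)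
      (by positivity)
  rw [← hJ] at key
  have hint : ∫ t in J, ((NZ (t + h) : ℝ) - NZ t) * Gm T x w t ^ (2 * m) ≤ ∫ t in J, H t :=
    setIntegral_mono i2 iH hpt
  -- the integral of the majorant
  have q1 : ∫ t in J, YY T 1 (t + 0) ^ (2 * 1) ≤ 2 * C1 * T := by
    rw [hJ]
    refine (shift_int 1 hT1' (by linarith) (by linarith)).trans ?_
    have h1 := hv1 T hTT1 1 one_pos (by rw [Real.log_one]; have := mul_nonneg (zero_le_one.trans hB) hL.le; linarith)
    rw [pow_zero] at h1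
    refine h1.trans ?_
    have h2 : Real.log (1 + 1) ≤ 1 := by
      have := Real.log_two_lt_d9
      norm_num at this ⊢
      linarith
    calc C1 * (1 + Real.log (1 + 1)) ^ 1 * T ≤ C1 * (1 + 1) ^ 1 * T := by gcongr
      _ = 2 * C1 * T := by ring
  have q2 : ∫ t in J, YY T (w + 1) (t + x * h) ^ (2 * (2 * m)) ≤ C2 * σ ^ 2 * T := by
    rw [hJ]
    refine (shift_int (2 * m) hT1' (by linarith) (by linarith)).trans ?_
    refine (hv2 T hTT2 (w + 1) (by linarith) hyx).trans (le_of_eq ?_)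
    rw [← hσ2, hlw, show 1 + (w + 1) = 2 + w by ring]
  have q3 : ∫ t in J, YY T (max (w - 1) 0) (t + (x + 1) * h) ^ (2 * (2 * m)) ≤ C2 * σ ^ 2 * T := by
    rw [hJ]
    refine (shift_int (2 * m) hT1' (by linarith) (by linarith)).trans ?_
    rcases le_total w 1 with h1 | h1
    · rw [max_eq_right (by linarith)]
      have e : ∀ t, dv (2 * m) T 0 t = 0 := by
        intro t
        unfold Pool.Agent.R320.VQ.dv
        rw [mul_zero, zero_div, add_zero, sub_self, sub_zero, zero_pow (by omega)]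
      simp only [e, integral_zero]
      positivity
    · rcases h1.lt_or_eq with h2 | h2
      · rw [max_eq_left (by linarith)]
        have hcond : (w - 1) * Real.log (w - 1) ≤ B * Real.log T := by
          rcases le_total (w - 1) 1 with h3 | h3
          · have h4 : Real.log (w - 1) ≤ 0 := Real.log_nonpos (by linarith) h3
            have h5 : (w - 1) * Real.log (w - 1) ≤ 0 := mul_nonpos_of_nonneg_of_nonpos (by linarith) h4
            have := mul_nonneg (zero_le_one.trans hB) hL.le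
            linarith
          · refine le_trans ?_ hyx
            exact mul_le_mul (by linarith) (Real.log_le_log (by linarith) (by linarith))
              (Real.log_nonneg h3) (by linarith)
        refine (hv2 T hTT2 (w - 1) (by linarith) hcond).trans ?_
        have h6 : 1 + Real.log (1 + (w - 1)) ≤ lw := by
          rw [hlw]
          have := Real.log_le_log (show 0 < 1 + (w - 1) by linarith) (show 1 + (w - 1) ≤ 2 + w by linarith)
          linarith
        have h7 : 0 ≤ 1 + Real.log (1 + (w - 1)) := by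
          have := Real.log_nonneg (show (1 : ℝ) ≤ 1 + (w - 1) by linarith)
          linarith
        rw [← hσ2]
        gcongr
      · rw [← h2, sub_self, max_self]
        have e : ∀ t, dv (2 * m) T 0 t = 0 := by
          intro t
          unfold Pool.Agent.R320.VQ.dv
          rw [mul_zero, zero_div, add_zero, sub_self, sub_zero, zero_pow (by omega)]
        simp only [e, integral_zero]
        positivity
  have iAB : IntegrableOn (fun t => YY T (w + 1) (t + x * h) ^ (2 * (2 * m)) +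
      YY T (max (w - 1) 0) (t + (x + 1) * h) ^ (2 * (2 * m))) J := iY2.add iY3
  have hHI : ∫ t in J, H t ≤ σ * (2 * C1 * T + T) +
      1 / (2 * σ) * (3 ^ (4 * m) * (C2 * σ ^ 2 * T + C2 * σ ^ 2 * T + T)) := by
    rw [hH]
    rw [integral_add (iA.const_mul σ) ((iB.const_mul _).const_mul _), integral_const_mul,
      integral_const_mul, integral_const_mul, integral_add iY1 i1, integral_add iAB i1,
      integral_add iY2 iY3]
    have h1 : ∫ _t in J, (1 : ℝ) = volume.real J := by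
      rw [setIntegral_const, smul_eq_mul, mul_one]
    rw [h1]
    gcongr
  have hfin : h * ∑ n ∈ Finset.Ioc (NZ A) (NZ A'), WW T x y n ^ (2 * m) ≤
      (2 * C1 + 1 + 3 ^ (4 * m) * (C2 + 1)) * σ * T := by
    refine (key.trans (hint.trans hHI)).trans ?_
    have h1 : 1 / (2 * σ) * (3 ^ (4 * m) * (C2 * σ ^ 2 * T + C2 * σ ^ 2 * T + T)) =
        3 ^ (4 * m) * (C2 * σ * T + T / (2 * σ)) := by
      field_simp
      ring
    rw [h1]
    have h2 : T / (2 * σ) ≤ σ * T := by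
      rw [div_le_iff₀ (by positivity)]
      have h3 : T ≤ σ * T := le_mul_of_one_le_left (by linarith) hσ1
      have h4 : σ * T ≤ σ * T * (2 * σ) := le_mul_of_one_le_right (by positivity) (by linarith)
      linarith
    have h5 : (3 : ℝ) ^ (4 * m) * (C2 * σ * T + T / (2 * σ)) ≤ 3 ^ (4 * m) * (C2 * σ * T + σ * T) := by
      gcongr
    calc σ * (2 * C1 * T + T) + 3 ^ (4 * m) * (C2 * σ * T + T / (2 * σ)) ≤
        σ * (2 * C1 * T + T) + 3 ^ (4 * m) * (C2 * σ * T + σ * T) := by linarith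
      _ = _ := by ring
  have hS0 : 0 ≤ ∑ n ∈ Finset.Ioc (NZ A) (NZ A'), WW T x y n ^ (2 * m) :=
    Finset.sum_nonneg fun n _ => (even_two_mul m).pow_nonneg _
  obtain ⟨S, hS⟩ : ∃ S : ℝ, S = ∑ n ∈ Finset.Ioc (NZ A) (NZ A'), WW T x y n ^ (2 * m) := ⟨_, rfl⟩
  rw [← hS] at hfin hS0 ⊢
  obtain ⟨Cc, hCc⟩ : ∃ Cc : ℝ, Cc = 2 * C1 + 1 + 3 ^ (4 * m) * (C2 + 1) := ⟨_, rfl⟩
  have hCc0 : 0 ≤ Cc := by rw [hCc]; positivity
  rw [← hCc] at hfin ⊢
  have h1 : 2 * Real.pi * S ≤ Cc * σ * T * Real.log T := by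
    have h2 : h * S * Real.log T = 2 * Real.pi * S := by
      rw [hh]
      field_simp
    rw [← h2]
    exact mul_le_mul_of_nonneg_right hfin hL.le
  have h3 : S ≤ 2 * Real.pi * S := le_mul_of_one_le_left hS0 (by linarith)
  calc S ≤ 2 * Real.pi * S := h3
    _ ≤ Cc * σ * T * Real.log T := h1
    _ = _ := by ring

end

end Pool.Agent.R320.KL
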