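import Pool.Agent.R320.KL.Cmp
import Pool.Agent.W54.TCF.NT

/-! # k-level correlations and mixed moments -/

set_option autoImplicit false

namespace Pool.Agent.R320.KL

open Filter Topology MeasureTheory Set ProbabilityTheory
open SG (ord NZ)
open SP (RHs)
open Pool.Agent.Y743.CL (lm log_nat bigT)
open Pool.Agent.R320.JL
open scoped NNReal Nat

noncomputable section

/-- the number of tuples of distinct indices -/
def Nk {ι : Type} (T : ℝ) (x y : ι → ℝ) : ℕ :=
  {j : Option ι → ℕ | Function.Injective j ∧ (∀ i, 1 ≤ j i ∧ ord (j i) ≤ T) ∧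
    ∀ i : ι, (ord (j (some i)) - ord (j none)) * (Real.log T / (2 * Real.pi)) ∈ Icc (x i) (y i)}.ncard

lemma Nk_eq {m : ℕ} (T : ℝ) (x y : Fin m → ℝ)
    (hdis : ∀ i j, i ≠ j → Disjoint (Icc (x i) (y i)) (Icc (x j) (y j))) (S : Finset (Fin m)) :
    (Nk T (fun i : S => x i) (fun i : S => y i) : ℝ) =
      ∑ n ∈ Finset.Icc 1 (NZ T), ∏ i ∈ S, ((Cs T (x i) (y i) n).card : ℝ) := by
  classical
  obtain ⟨Φ, hΦ⟩ : ∃ Φ : Finset (Σ _ : ℕ, (S → ℕ)), Φ = (Finset.Icc 1 (NZ T)).sigma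
    (fun n => Fintype.piFinset (fun i : S => Cs T (x i) (y i) n)) := ⟨_, rfl⟩
  obtain ⟨g, hg⟩ : ∃ g : (Σ _ : ℕ, (S → ℕ)) → (Option S → ℕ), g = fun z o => o.elim z.1 z.2 := ⟨_, rfl⟩
  have hginj : Function.Injective g := by
    rintro ⟨n, l⟩ ⟨n', l'⟩ h
    rw [hg] at h
    have h1 : n = n' := congrFun h none
    have h2 : l = l' := funext fun i => congrFun h (some i)
    subst h1 h2
    rfl
  have hset : {j : Option S → ℕ | Function.Injective j ∧ (∀ i, 1 ≤ j i ∧ ord (j i) ≤ T) ∧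
      ∀ i : S, (ord (j (some i)) - ord (j none)) * (Real.log T / (2 * Real.pi)) ∈ Icc (x i) (y i)} =
      ((Φ.image g : Finset (Option S → ℕ)) : Set (Option S → ℕ)) := by
    ext j
    simp only [mem_setOf_eq, Finset.coe_image, mem_image, Finset.mem_coe]
    constructor
    · rintro ⟨h1, h2, h3⟩
      refine ⟨⟨j none, fun i => j (some i)⟩, ?_, ?_⟩
      · rw [hΦ, Finset.mem_sigma, Fintype.mem_piFinset]
        refine ⟨?_, fun i => ?_⟩
        · rw [Finset.mem_Icc]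
          exact ⟨(h2 none).1, (SG.ord_le_iff (h2 none).1 _).mp (h2 none).2⟩
        · unfold Cs
          rw [Finset.mem_filter, Finset.mem_Icc]
          refine ⟨⟨(h2 (some i)).1, (SG.ord_le_iff (h2 (some i)).1 _).mp (h2 (some i)).2⟩, ?_, h3 i⟩
          intro h4
          have := h1 h4
          simp at this
      · rw [hg]
        funext o
        cases o <;> rfl
    · rintro ⟨⟨n, l⟩, h1, rfl⟩
      rw [hΦ, Finset.mem_sigma, Fintype.mem_piFinset, Finset.mem_Icc] at h1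
      obtain ⟨⟨h2, h3⟩, h4⟩ := h1
      have h5 : ∀ i : S, (1 ≤ l i ∧ l i ≤ NZ T) ∧ l i ≠ n ∧
          (ord (l i) - ord n) * (Real.log T / (2 * Real.pi)) ∈ Icc (x i) (y i) := by
        intro i
        have := h4 i
        unfold Cs at this
        rw [Finset.mem_filter, Finset.mem_Icc] at this
        exact this
      have h2' : 1 ≤ n := h2
      rw [hg]
      refine ⟨?_, ?_, ?_⟩
      · intro o o' hoo
        cases o with
        | none =>
          cases o' with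
          | none => rfl
          | some i' => exact absurd hoo.symm (h5 i').2.1
        | some i =>
          cases o' with
          | none => exact absurd hoo (h5 i).2.1
          | some i' =>
            have h6 : l i = l i' := hoo
            by_contra hne
            have hne' : (i : Fin m) ≠ i' := fun h => hne (by rw [Subtype.ext h])
            have h7 := (h5 i).2.2
            have h8 := (h5 i').2.2
            rw [h6] at h7
            exact (Set.disjoint_left.1 (hdis i i' hne')) h7 h8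
      · intro o
        cases o with
        | none => exact ⟨h2', (SG.ord_le_iff h2' _).mpr h3⟩
        | some i => exact ⟨(h5 i).1.1, (SG.ord_le_iff (h5 i).1.1 _).mpr (h5 i).1.2⟩
      · intro i
        exact (h5 i).2.2
  unfold Nk
  rw [hset, Set.ncard_coe_finset, Finset.card_image_of_injective _ hginj, hΦ, Finset.card_sigma]
  push_cast
  refine Finset.sum_congr rfl fun n _ => ?_
  rw [Fintype.card_piFinset]
  push_cast
  rw [← Finset.prod_coe_sort S]

/-- the connected sums -/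
lemma conn_eq {m : ℕ} (T : ℝ) (x y : Fin m → ℝ)
    (hdis : ∀ i j, i ≠ j → Disjoint (Icc (x i) (y i)) (Icc (x j) (y j))) :
    ∑ S : Finset (Fin m), (-1 : ℝ) ^ (Sᶜ).card * (∏ i ∈ Sᶜ, (y i - x i)) *
      (Nk T (fun i : S => x i) (fun i : S => y i) : ℝ) =
      ∑ n ∈ Finset.Icc 1 (NZ T), ∏ i, DD T (x i) (y i) n := by
  classical
  simp only [Nk_eq T x y hdis, Finset.mul_sum]
  rw [Finset.sum_comm]
  refine Finset.sum_congr rfl fun n _ => ?_
  have h1 : ∏ i, DD T (x i) (y i) n = ∏ i, (((Cs T (x i) (y i) n).card : ℝ) + -(y i - x i)) := by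
    refine Finset.prod_congr rfl fun i _ => ?_
    unfold DD
    ring
  rw [h1, Finset.prod_add, Finset.powerset_univ]
  refine Finset.sum_congr rfl fun S _ => ?_
  rw [← Finset.compl_eq_univ_sdiff]
  have h2 : ∏ i ∈ Sᶜ, -(y i - x i) = (-1 : ℝ) ^ (Sᶜ).card * ∏ i ∈ Sᶜ, (y i - x i) := by
    rw [← Finset.prod_const, ← Finset.prod_mul_distrib]
    refine Finset.prod_congr rfl fun i _ => ?_
    ring
  rw [h2]
  ring

lemma Hf_scale (m : ℕ) (K : Fin m → Fin m → ℝ) (c : ℝ) :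
    Hf m (fun i j => c * K i j) = c ^ (m / 2) * Hf m K := by
  unfold Hf
  have : ∀ e : Fin (m / 2) ⊕ Fin (m / 2) ≃ Fin m, ∏ l, c * K (e (Sum.inl l)) (e (Sum.inr l)) =
      c ^ (m / 2) * ∏ l, K (e (Sum.inl l)) (e (Sum.inr l)) := by
    intro e
    rw [Finset.prod_mul_distrib, Finset.prod_const, Finset.card_univ, Fintype.card_fin]
  simp only [this]
  rw [← Finset.mul_sum]
  ring

lemma Hf_odd (m : ℕ) (hm : ¬ Even m) (K : Fin m → Fin m → ℝ) : Hf m K = 0 := by
  unfold Hf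
  have : IsEmpty (Fin (m / 2) ⊕ Fin (m / 2) ≃ Fin m) := by
    refine ⟨fun e => hm ?_⟩
    have := Fintype.card_congr e
    rw [Fintype.card_sum, Fintype.card_fin, Fintype.card_fin] at this
    exact ⟨m / 2, this.symm⟩
  rw [Fintype.sum_empty]
  simp

lemma Hf_bd (m : ℕ) : ∃ G : ℝ, 0 < G ∧ ∀ (K : Fin m → Fin m → ℝ) (s : ℝ), 0 ≤ s →
    (∀ i j, |K i j| ≤ s ^ 2) → |Hf m K| ≤ G * s ^ m := by
  refine ⟨(Fintype.card (Fin (m / 2) ⊕ Fin (m / 2) ≃ Fin m) : ℝ) + 1, by positivity, fun K s hs hK => ?_⟩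
  by_cases hm : Even m
  · obtain ⟨q, hq⟩ := hm
    have hq2 : m / 2 = q := by omega
    have hden : (1 : ℝ) ≤ 2 ^ (m / 2) * ((m / 2)! : ℝ) := by
      have h1 : (1 : ℝ) ≤ 2 ^ (m / 2) := one_le_pow₀ (by norm_num)
      have h2 : (1 : ℝ) ≤ ((m / 2)! : ℝ) := by exact_mod_cast Nat.factorial_pos _
      nlinarith
    unfold Hf
    rw [abs_div, abs_of_pos (by positivity : (0 : ℝ) < 2 ^ (m / 2) * ((m / 2)! : ℝ)),
      div_le_iff₀ (by positivity)]
    have h3 : |∑ e : Fin (m / 2) ⊕ Fin (m / 2) ≃ Fin m, ∏ l, K (e (Sum.inl l)) (e (Sum.inr l))| ≤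
        (Fintype.card (Fin (m / 2) ⊕ Fin (m / 2) ≃ Fin m) : ℝ) * s ^ m := by
      refine (Finset.abs_sum_le_sum_abs _ _).trans ?_
      have h4 : ∀ e ∈ (Finset.univ : Finset (Fin (m / 2) ⊕ Fin (m / 2) ≃ Fin m)),
          |∏ l, K (e (Sum.inl l)) (e (Sum.inr l))| ≤ s ^ m := by
        intro e _
        rw [Finset.abs_prod]
        calc ∏ l, |K (e (Sum.inl l)) (e (Sum.inr l))| ≤ ∏ _l : Fin (m / 2), s ^ 2 :=
              Finset.prod_le_prod (fun l _ => abs_nonneg _) fun l _ => hK _ _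
          _ = s ^ m := by
              rw [Finset.prod_const, Finset.card_univ, Fintype.card_fin, ← pow_mul]
              congr 1
              omega
      refine (Finset.sum_le_sum h4).trans (le_of_eq ?_)
      rw [Finset.sum_const, Finset.card_univ, nsmul_eq_mul]
    have h5 : 0 ≤ s ^ m := by positivity
    calc |∑ e : Fin (m / 2) ⊕ Fin (m / 2) ≃ Fin m, ∏ l, K (e (Sum.inl l)) (e (Sum.inr l))| ≤
        (Fintype.card (Fin (m / 2) ⊕ Fin (m / 2) ≃ Fin m) : ℝ) * s ^ m := h3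
      _ ≤ ((Fintype.card (Fin (m / 2) ⊕ Fin (m / 2) ≃ Fin m) : ℝ) + 1) * s ^ m * 1 := by
          rw [mul_one]
          apply mul_le_mul_of_nonneg_right (by linarith) h5
      _ ≤ _ := mul_le_mul_of_nonneg_left hden (by positivity)
  · rw [Hf_odd m hm, abs_zero]
    positivity

lemma lp_le {u a : ℝ} (ha : 4 ≤ a) (hu : |u| ≤ 2 * a) : lp u ≤ 2 * Real.log a := by
  unfold lp
  have h1 : max 1 |u| ≤ a ^ 2 := max_le (by nlinarith) (by nlinarith)
  have h2 := Real.log_le_log (by positivity) h1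
  rw [Real.log_pow] at h2
  push_cast at h2
  exact h2

lemma NZ_eq_NN (T : ℝ) : NZ T = H370.NN riemannZeta 0 T := by
  unfold SG.NZ H370.NN
  have h : {s : ℂ | riemannZeta s = 0 ∧ 0 < s.re ∧ s.re < 1 ∧ 0 < s.im ∧ s.im ≤ T} =
      H370.zset riemannZeta 0 T := by
    ext s
    simp only [H370.zset, Set.mem_ofPred_eq]
    tauto
  rw [h]
  rfl

/-- **connected k-level correlations in long boxes (RH)** -/
theorem main (hR : RHs) (m : ℕ) (B ε : ℝ) (hε : 0 < ε) :
    ∃ a₀ : ℝ, ∀ a : ℝ, a₀ ≤ a → ∀ T : ℝ, 1 ≤ T → a * Real.log a ≤ B * Real.log T →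
    ∀ x y : Fin m → ℝ, (∀ i, -a ≤ x i ∧ x i ≤ y i ∧ y i ≤ a) →
    (∀ i j, i ≠ j → Disjoint (Icc (x i) (y i)) (Icc (x j) (y j))) →
    |(∑ S : Finset (Fin m), (-1 : ℝ) ^ (Sᶜ).card * (∏ i ∈ Sᶜ, (y i - x i)) *
      (Nk T (fun i : S => x i) (fun i : S => y i) : ℝ)) / (T / (2 * Real.pi) * Real.log T) -
      Hf m (fun i j => KR (x i) (y i) (x j) (y j) / Real.pi ^ 2)| ≤
      ε * Real.sqrt (Real.log a) ^ m := by
  obtain ⟨G, hG, hGb⟩ := Hf_bd m
  have hpi := Real.pi_pos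
  have hpi3 := Real.pi_gt_three
  obtain ⟨η, hη⟩ : ∃ η : ℝ, η = min (1 / 2) (ε / (2 * G)) := ⟨_, rfl⟩
  have hη0 : 0 < η := by rw [hη]; positivity
  have hη1 : η ≤ 1 / 2 := by rw [hη]; exact min_le_left _ _
  have hηG : η * G ≤ ε / 2 := by
    have h1 : η ≤ ε / (2 * G) := by rw [hη]; exact min_le_right _ _
    calc η * G ≤ ε / (2 * G) * G := mul_le_mul_of_nonneg_right h1 hG.le
      _ = ε / 2 := by field_simp
  obtain ⟨T2, hT2, hup⟩ := Pool.Agent.W54.TCF.NT_asymp' η hη0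
  obtain ⟨B', hB'⟩ : ∃ B' : ℝ, B' = 8 * max B 1 := ⟨_, rfl⟩
  have hB'1 : 1 ≤ B' := by rw [hB']; linarith [le_max_right B 1]
  have hev := (cntlim hR m B' hB'1 (ε / 4) (by positivity)).and
    ((two_top.eventually (bigT B' hB'1 T2)).and (eventually_ge_atTop 4))
  obtain ⟨M0, hM0⟩ := eventually_atTop.1 hev
  refine ⟨max M0 4, fun a ha T hTone haT x y hxy hdis => ?_⟩
  have haM : (M0 : ℝ) ≤ a := (le_max_left _ _).trans ha
  have ha4 : 4 ≤ a := (le_max_right _ _).trans ha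
  obtain ⟨M, hM⟩ : ∃ M : ℕ, M = ⌈a⌉₊ + 1 := ⟨_, rfl⟩
  have hMa : a + 1 ≤ M := by
    rw [hM]
    push_cast
    linarith [Nat.le_ceil a]
  have hMa2 : (M : ℝ) ≤ a + 2 := by
    rw [hM]
    push_cast
    linarith [Nat.ceil_lt_add_one (show 0 ≤ a by linarith)]
  have hMM0 : M0 ≤ M := by
    have : (M0 : ℝ) ≤ M := by linarith
    exact_mod_cast this
  obtain ⟨k1, k2, k3⟩ := hM0 M hMM0
  have hla : 0 < Real.log a := Real.log_pos (by linarith)
  have h2M : ((2 * M : ℕ) : ℝ) ≤ 4 * a := by push_cast; linarith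
  have h2M0 : (0 : ℝ) < ((2 * M : ℕ) : ℝ) := by
    push_cast
    linarith
  have hl2M : Real.log ((2 * M : ℕ) : ℝ) ≤ 2 * Real.log a := by
    have h1 : Real.log ((2 * M : ℕ) : ℝ) ≤ Real.log (a ^ 2) := Real.log_le_log h2M0 (by nlinarith)
    rw [Real.log_pow] at h1
    push_cast at h1 ⊢
    exact h1
  have hl2M0 : 0 < Real.log ((2 * M : ℕ) : ℝ) := by
    apply Real.log_pos
    push_cast
    linarith
  have hcond : ((2 * M : ℕ) : ℝ) * Real.log (2 * M : ℕ) ≤ B' * Real.log T := by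
    have hlT : 0 ≤ Real.log T := Real.log_nonneg hTone
    have hBB : B * Real.log T ≤ max B 1 * Real.log T :=
      mul_le_mul_of_nonneg_right (le_max_left _ _) hlT
    calc ((2 * M : ℕ) : ℝ) * Real.log (2 * M : ℕ) ≤ 4 * a * (2 * Real.log a) :=
          mul_le_mul h2M hl2M hl2M0.le (by linarith)
      _ = 8 * (a * Real.log a) := by ring
      _ ≤ 8 * (max B 1 * Real.log T) := by linarith
      _ = B' * Real.log T := by rw [hB']; ring
  have hTT2 := k2 T hTone hcond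
  have hT10 : 10 ≤ T := hT2.trans hTT2
  have hL : 0 < Real.log T := Real.log_pos (by linarith)
  have hxa : ∀ i, |x i| ≤ M - 1 := by
    intro i
    obtain ⟨a1, a2, a3⟩ := hxy i
    rw [abs_le]
    constructor <;> linarith
  have hya : ∀ i, |y i| ≤ M - 1 := by
    intro i
    obtain ⟨a1, a2, a3⟩ := hxy i
    rw [abs_le]
    constructor <;> linarith
  have g1 := k1 T hTone hcond x y hxa hya (fun i => (hxy i).2.1)
  obtain ⟨X, hX⟩ : ∃ X : ℝ, X = T / (2 * Real.pi) * Real.log T := ⟨_, rfl⟩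
  have hX0 : 0 < X := by rw [hX]; positivity
  obtain ⟨g2, g3⟩ := hup T hTT2
  rw [← hX, ← NZ_eq_NN] at g2 g3
  rw [conn_eq T x y hdis, ← hX]
  obtain ⟨q, hq⟩ : ∃ q : ℝ, q = lm (2 * M) := ⟨_, rfl⟩
  have hq2 : q ^ 2 = Real.log ((2 * M : ℕ) : ℝ) / Real.pi ^ 2 := by
    rw [hq]; exact lm_sq hl2M0.le
  have hq0 : 0 < q := by
    have h1 : 0 < q ^ 2 := by rw [hq2]; positivity
    have h2 : 0 ≤ q := by rw [hq]; exact Pool.Agent.Y743.CL.lm_nonneg _
    rcases h2.lt_or_eq with h | h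
    · exact h
    · rw [← h] at h1; norm_num at h1
  obtain ⟨s, hs⟩ : ∃ s : ℝ, s = Real.sqrt (Real.log a) := ⟨_, rfl⟩
  have hs0 : 0 ≤ s := by rw [hs]; exact Real.sqrt_nonneg _
  have hs2 : s ^ 2 = Real.log a := by rw [hs]; exact Real.sq_sqrt hla.le
  have hpisq : 4 * Real.log a ≤ Real.log a * Real.pi ^ 2 := by
    have h9 : 4 ≤ Real.pi ^ 2 := by nlinarith
    nlinarith
  have hqs : q ≤ s := by
    have h1 : q ^ 2 ≤ s ^ 2 := by
      rw [hq2, hs2, div_le_iff₀ (by positivity)]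
      linarith
    exact (pow_le_pow_iff_left₀ hq0.le hs0 (by norm_num)).1 h1
  rw [← hs]
  rw [← hq] at g1
  obtain ⟨K, hK⟩ : ∃ K : Fin m → Fin m → ℝ, K = fun i j => KR (x i) (y i) (x j) (y j) := ⟨_, rfl⟩
  obtain ⟨W, hW⟩ : ∃ W : ℝ, W = Hf m (fun i j => KR (x i) (y i) (x j) (y j) / Real.pi ^ 2) := ⟨_, rfl⟩
  rw [← hW]
  -- scaling
  have hscale : q ^ m * Hf m (fun i j => KR (x i) (y i) (x j) (y j) / Real.log ((2 * M : ℕ) : ℝ)) = W := by
    have e1 : (fun i j => KR (x i) (y i) (x j) (y j) / Real.log ((2 * M : ℕ) : ℝ)) =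
        fun i j => (Real.log ((2 * M : ℕ) : ℝ))⁻¹ * K i j := by
      funext i j
      rw [hK, div_eq_inv_mul]
    have e2 : (fun i j => KR (x i) (y i) (x j) (y j) / Real.pi ^ 2) =
        fun i j => (Real.pi ^ 2)⁻¹ * K i j := by
      funext i j
      rw [hK, div_eq_inv_mul]
    rw [hW, e1, e2, Hf_scale, Hf_scale]
    by_cases hm : Even m
    · obtain ⟨p, hp⟩ := hm
      have hp2 : m / 2 = p := by omega
      have e3 : q ^ m = (Real.log ((2 * M : ℕ) : ℝ) / Real.pi ^ 2) ^ p := by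
        rw [← hq2, ← pow_mul]
        congr 1
        omega
      rw [hp2, e3, ← mul_assoc, ← mul_pow]
      congr 2
      field_simp
    · rw [Hf_odd m hm, mul_zero, mul_zero, mul_zero]
  obtain ⟨Cn, hCn⟩ : ∃ Cn : ℝ, Cn = ∑ n ∈ Finset.Icc 1 (NZ T), ∏ i, DD T (x i) (y i) n := ⟨_, rfl⟩
  have e4 : ∑ n ∈ Finset.Icc 1 (NZ T), ∏ j, (DD T (x j) (y j) n / q) = Cn / q ^ m := by
    rw [hCn, Finset.sum_div]
    refine Finset.sum_congr rfl fun n _ => ?_
    rw [Finset.prod_div_distrib, Finset.prod_const, Finset.card_univ, Fintype.card_fin]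
  rw [e4] at g1
  rw [← hCn]
  have hqm : 0 < q ^ m := by positivity
  have hqsm : q ^ m ≤ s ^ m := pow_le_pow_left₀ hq0.le hqs m
  have hNpos : 0 < (NZ T : ℝ) := by
    have h1 : 0 < (1 - η) * X := mul_pos (by linarith) hX0
    linarith
  obtain ⟨N, hN⟩ : ∃ N : ℝ, N = (NZ T : ℝ) := ⟨_, rfl⟩
  rw [← hN] at g1 g2 g3 hNpos
  -- comparison of the normalised sum with the pairings
  have hW1 : |Cn / N - W| ≤ ε / 4 * s ^ m := by
    have e5 : Cn / N - W = q ^ m * (N⁻¹ * (Cn / q ^ m) -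
        Hf m (fun i j => KR (x i) (y i) (x j) (y j) / Real.log ((2 * M : ℕ) : ℝ))) := by
      rw [mul_sub, hscale]
      field_simp
    rw [e5, abs_mul, abs_of_pos hqm]
    calc _ ≤ q ^ m * (ε / 4) := mul_le_mul_of_nonneg_left g1 hqm.le
      _ ≤ s ^ m * (ε / 4) := mul_le_mul_of_nonneg_right hqsm (by linarith)
      _ = ε / 4 * s ^ m := by ring
  have hW2 : |W| ≤ G * s ^ m := by
    rw [hW]
    refine hGb _ s hs0 fun i j => ?_
    obtain ⟨a1, a2, a3⟩ := hxy i
    obtain ⟨b1, b2, b3⟩ := hxy j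
    have c1 : lp (y i - x j) ≤ 2 * Real.log a := lp_le ha4 (by rw [abs_le]; constructor <;> linarith)
    have c2 : lp (x i - y j) ≤ 2 * Real.log a := lp_le ha4 (by rw [abs_le]; constructor <;> linarith)
    have c3 : lp (y i - y j) ≤ 2 * Real.log a := lp_le ha4 (by rw [abs_le]; constructor <;> linarith)
    have c4 : lp (x i - x j) ≤ 2 * Real.log a := lp_le ha4 (by rw [abs_le]; constructor <;> linarith)
    have d1 := lp_nonneg (y i - x j)
    have d2 := lp_nonneg (x i - y j)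
    have d3 := lp_nonneg (y i - y j)
    have d4 := lp_nonneg (x i - x j)
    rw [hs2, abs_div, abs_of_pos (by positivity : (0 : ℝ) < Real.pi ^ 2), div_le_iff₀ (by positivity)]
    unfold KR
    rw [abs_le]
    constructor <;> linarith
  have hr : |N / X - 1| ≤ η := by
    have e6 : N / X - 1 = (N - X) / X := by field_simp
    rw [e6, abs_div, abs_of_pos hX0, div_le_iff₀ hX0, abs_le]
    constructor <;> linarith
  have hr2 : N / X ≤ 2 := by
    rw [div_le_iff₀ hX0]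
    nlinarith
  have hsm : 0 ≤ s ^ m := by positivity
  have e7 : Cn / X - W = N / X * (Cn / N - W) + (N / X - 1) * W := by
    field_simp
    ring
  rw [e7]
  have hNX : 0 ≤ N / X := by positivity
  calc |N / X * (Cn / N - W) + (N / X - 1) * W| ≤ |N / X * (Cn / N - W)| + |(N / X - 1) * W| :=
        abs_add_le _ _
    _ = N / X * |Cn / N - W| + |N / X - 1| * |W| := by
        rw [abs_mul, abs_mul, abs_of_nonneg hNX]
    _ ≤ 2 * (ε / 4 * s ^ m) + η * (G * s ^ m) := by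
        apply add_le_add
        · exact mul_le_mul hr2 hW1 (abs_nonneg _) (by norm_num)
        · exact mul_le_mul hr hW2 (abs_nonneg _) hη0.le
    _ = ε / 2 * s ^ m + η * G * s ^ m := by ring
    _ ≤ ε / 2 * s ^ m + ε / 2 * s ^ m := by
        apply add_le_add le_rfl
        exact mul_le_mul_of_nonneg_right hηG hsm
    _ = ε * s ^ m := by ring

end

end Pool.Agent.R320.KL
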