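import Pool.Agent.R320.KL.Lim

/-! # Mixed moments of counts near zeros, on RH -/

set_option autoImplicit false

namespace Pool.Agent.R320.KL

open Filter Topology MeasureTheory Set ProbabilityTheory
open SG (ord NZ)
open SP (RHs)
open Pool.Agent.Y743.CL (lm log_nat bigT)
open Pool.Agent.R320.JL
open scoped NNReal Nat

noncomputable section

/-- the covariance (without `π⁻²`) of the counts in the windows `[x, y]` and `[x', y']` -/
def KR (x y x' y' : ℝ) : ℝ := (lp (y - x') + lp (x - y') - lp (y - y') - lp (x - x')) / 2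

/-- the coefficients of the sum over `S` -/
def cS {m : ℕ} (S : Finset (Fin m)) : Fin (m + m) → ℝ :=
  Fin.append (fun j => if j ∈ S then 1 else 0) (fun j => if j ∈ S then -1 else 0)

lemma sum_ite {m : ℕ} (S : Finset (Fin m)) (f : Fin m → ℝ) (a : ℝ) :
    ∑ j, (if j ∈ S then a else 0) * f j = a * ∑ j ∈ S, f j := by
  have : ∀ j, (if j ∈ S then a else 0) * f j = if j ∈ S then a * f j else 0 := by
    intro j
    split_ifs <;> ring
  simp only [this]
  rw [← Finset.sum_filter, Finset.filter_mem_eq_inter, Finset.univ_inter, Finset.mul_sum]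

lemma fc_cS {m : ℕ} (S : Finset (Fin m)) (r : ℕ) (T : ℝ) (x y : Fin m → ℝ) (n : ℕ) :
    fc (cS S) r T (Fin.append y x) n = ∑ j ∈ S, (XX T (y j) n - XX T (x j) n) / lm r := by
  unfold fc cS
  rw [Fin.sum_univ_add]
  simp only [Fin.append_left, Fin.append_right]
  rw [sum_ite S (fun j => XX T (y j) n) 1, sum_ite S (fun j => XX T (x j) n) (-1), ← Finset.sum_div]
  congr 1
  rw [Finset.sum_sub_distrib]
  ring

lemma QR_cS {m : ℕ} (S : Finset (Fin m)) (x y : Fin m → ℝ) :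
    QR (cS S) (Fin.append y x) = ∑ i ∈ S, ∑ j ∈ S, KR (x i) (y i) (x j) (y j) := by
  have hs : ∀ (f : Fin (m + m) → ℝ), ∑ b, cS S b * f b =
      ∑ j ∈ S, (f (Fin.castAdd m j) - f (Fin.natAdd m j)) := by
    intro f
    unfold cS
    rw [Fin.sum_univ_add]
    simp only [Fin.append_left, Fin.append_right]
    rw [sum_ite S (fun j => f (Fin.castAdd m j)) 1, sum_ite S (fun j => f (Fin.natAdd m j)) (-1),
      Finset.sum_sub_distrib]
    ring
  unfold QR
  have h1 : ∀ a, ∑ b, cS S a * cS S b * (lp (Fin.append y x a) + lp (Fin.append y x b) -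
      lp (Fin.append y x a - Fin.append y x b)) = cS S a * ∑ b, cS S b *
        (lp (Fin.append y x a) + lp (Fin.append y x b) - lp (Fin.append y x a - Fin.append y x b)) := by
    intro a
    rw [Finset.mul_sum]
    refine Finset.sum_congr rfl fun b _ => ?_
    ring
  simp only [h1]
  rw [hs]
  simp only [hs, Fin.append_left, Fin.append_right]
  rw [Finset.sum_div]
  refine Finset.sum_congr rfl fun i _ => ?_
  rw [← Finset.sum_sub_distrib, Finset.sum_div]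
  refine Finset.sum_congr rfl fun j _ => ?_
  unfold KR
  ring

theorem prodlim (hRH : RHs) (m : ℕ) (B : ℝ) (hB : 1 ≤ B) (ε : ℝ) (hε : 0 < ε) :
    ∀ᶠ M : ℕ in atTop, ∀ T : ℝ, 1 ≤ T → ((2 * M : ℕ) : ℝ) * Real.log (2 * M : ℕ) ≤ B * Real.log T →
    ∀ x y : Fin m → ℝ, (∀ i, |x i| ≤ M - 1) → (∀ i, |y i| ≤ M - 1) →
    |((NZ T : ℝ)⁻¹) * ∑ n ∈ Finset.Icc 1 (NZ T), ∏ j, ((XX T (y j) n - XX T (x j) n) / lm (2 * M)) -
      Hf m (fun i j => KR (x i) (y i) (x j) (y j) / Real.log ((2 * M : ℕ) : ℝ))| ≤ ε := by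
  have hall : ∀ᶠ M : ℕ in atTop, ∀ S : Finset (Fin m), ∀ T : ℝ, 1 ≤ T →
      ((2 * M : ℕ) : ℝ) * Real.log (2 * M : ℕ) ≤ B * Real.log T →
      ∀ u : Fin (m + m) → ℝ, (∀ i, |u i| ≤ M - 1) →
      |((NZ T : ℝ)⁻¹) * ∑ n ∈ Finset.Icc 1 (NZ T), fc (cS S) (2 * M) T u n ^ m -
        MM m (QR (cS S) u / Real.log ((2 * M : ℕ) : ℝ))| ≤ ε / 2 ^ m := by
    rw [eventually_all]
    intro S
    exact momlim hRH (cS S) m B hB (ε / 2 ^ m) (by positivity)
  filter_upwards [hall] with M hM T hT1 hrT x y hx hy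
  have hu : ∀ i, |Fin.append y x i| ≤ M - 1 := by
    intro i
    refine Fin.addCases (fun j => ?_) (fun j => ?_) i
    · rw [Fin.append_left]; exact hy j
    · rw [Fin.append_right]; exact hx j
  obtain ⟨z, hz⟩ : ∃ z : ℕ → Fin m → ℝ, z = fun n j => (XX T (y j) n - XX T (x j) n) / lm (2 * M) := ⟨_, rfl⟩
  obtain ⟨K, hK⟩ : ∃ K : Fin m → Fin m → ℝ, K = fun i j => KR (x i) (y i) (x j) (y j) /
    Real.log ((2 * M : ℕ) : ℝ) := ⟨_, rfl⟩
  have hmf : (0 : ℝ) < (m ! : ℝ) := by exact_mod_cast Nat.factorial_pos m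
  have hmf1 : (1 : ℝ) ≤ (m ! : ℝ) := by exact_mod_cast Nat.factorial_pos m
  have e1 : ∀ n, ∏ j, z n j = (∑ S : Finset (Fin m), (-1 : ℝ) ^ (Sᶜ).card * (∑ i ∈ S, z n i) ^ m) / m ! := by
    intro n
    rw [pol1, mul_div_cancel_left₀ _ hmf.ne']
  have e2 : Hf m K = (∑ S : Finset (Fin m), (-1 : ℝ) ^ (Sᶜ).card *
      MM m (∑ i ∈ S, ∑ j ∈ S, K i j)) / m ! := by
    rw [pol, mul_div_cancel_left₀ _ hmf.ne']
  have e3 : ((NZ T : ℝ)⁻¹) * ∑ n ∈ Finset.Icc 1 (NZ T), ∏ j, z n j - Hf m K =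
      (∑ S : Finset (Fin m), (-1 : ℝ) ^ (Sᶜ).card * (((NZ T : ℝ)⁻¹) *
        ∑ n ∈ Finset.Icc 1 (NZ T), (∑ i ∈ S, z n i) ^ m - MM m (∑ i ∈ S, ∑ j ∈ S, K i j))) / m ! := by
    rw [e2]
    simp only [e1]
    rw [← Finset.sum_div, Finset.sum_comm]
    simp only [mul_sub, Finset.sum_sub_distrib]
    rw [sub_div, mul_div_assoc', Finset.mul_sum]
    congr 2
    refine Finset.sum_congr rfl fun S _ => ?_
    rw [← Finset.mul_sum]
    ring
  have e4 : ∏ j, ((XX T (y j) 0 - XX T (x j) 0) / lm (2 * M)) = ∏ j, z 0 j := by rw [hz]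
  have e5 : ∀ n, ∏ j, ((XX T (y j) n - XX T (x j) n) / lm (2 * M)) = ∏ j, z n j := fun n => by rw [hz]
  simp only [e5]
  rw [← hK, e3, abs_div, abs_of_pos hmf, div_le_iff₀ hmf]
  have hterm : ∀ S : Finset (Fin m), |(-1 : ℝ) ^ (Sᶜ).card * (((NZ T : ℝ)⁻¹) *
        ∑ n ∈ Finset.Icc 1 (NZ T), (∑ i ∈ S, z n i) ^ m - MM m (∑ i ∈ S, ∑ j ∈ S, K i j))| ≤ ε / 2 ^ m := by
    intro S
    rw [abs_mul, abs_pow, abs_neg, abs_one, one_pow, one_mul]
    have h1 := hM S T hT1 hrT (Fin.append y x) hu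
    simp only [fc_cS] at h1
    rw [QR_cS] at h1
    have h2 : (∑ i ∈ S, ∑ j ∈ S, KR (x i) (y i) (x j) (y j)) / Real.log ((2 * M : ℕ) : ℝ) =
        ∑ i ∈ S, ∑ j ∈ S, K i j := by
      rw [hK, Finset.sum_div]
      refine Finset.sum_congr rfl fun i _ => ?_
      rw [Finset.sum_div]
    rw [h2] at h1
    rw [hz]
    exact h1
  refine (Finset.abs_sum_le_sum_abs _ _).trans ((Finset.sum_le_sum fun S _ => hterm S).trans ?_)
  rw [Finset.sum_const, Finset.card_univ, Fintype.card_finset, Fintype.card_fin, nsmul_eq_mul]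
  have : ((2 ^ m : ℕ) : ℝ) * (ε / 2 ^ m) = ε := by
    push_cast
    field_simp
  rw [this]
  exact le_mul_of_one_le_right hε.le hmf1

end

end Pool.Agent.R320.KL
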